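import Mathlib

set_option autoImplicit false

open Set Filter Topology MeasureTheory Metric

namespace Pool.Agent.Helper383.WaveODE

open scoped NNReal

variable {E : Type*} [NormedAddCommGroup E] [NormedSpace ℝ E] [CompleteSpace E]

/-- global solutions for bounded Lipschitz fields. -/
theorem global_ode {v : ℝ → E → E} {K B : ℝ≥0} (hK : ∀ t, LipschitzWith K (v t))
    (hc : ∀ x, Continuous (fun t => v t x)) (hB : ∀ t x, ‖v t x‖ ≤ B) (x0 : E) :
    ∃ f : ℝ → E, f 0 = x0 ∧ ∀ t, HasDerivAt f (v t (f t)) t := by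
  have h1 : ∀ n : ℕ, ∃ f : ℝ → E, f 0 = x0 ∧
      ∀ t ∈ Ioo (-((n:ℝ) + 1)) ((n:ℝ) + 1), HasDerivAt f (v t (f t)) t := by
    intro n
    have h0 : (0:ℝ) ∈ Icc (-((n:ℝ) + 1)) ((n:ℝ) + 1) := by
      constructor
      · have : (0:ℝ) ≤ n := n.cast_nonneg
        linarith
      · positivity
    have hpl : IsPicardLindelof v (tmin := -((n:ℝ) + 1)) (tmax := (n:ℝ) + 1) ⟨0, h0⟩ x0
        (B * (n + 1)) 0 B K := by
      refine ⟨fun t _ => (hK t).lipschitzOnWith, fun x _ => (hc x).continuousOn,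
        fun t _ x _ => hB t x, ?_⟩
      simp
    obtain ⟨f, hf0, hf⟩ := hpl.exists_eq_forall_mem_Icc_hasDerivWithinAt₀
    refine ⟨f, hf0, fun t ht => ?_⟩
    exact (hf t ⟨ht.1.le, ht.2.le⟩).hasDerivAt (Icc_mem_nhds ht.1 ht.2)
  choose be hbe0 hbe using h1
  have h2 : ∀ m n : ℕ, ∀ t, t ∈ Ioo (-((m:ℝ) + 1)) ((m:ℝ) + 1) → t ∈ Ioo (-((n:ℝ) + 1)) ((n:ℝ) + 1) →
      be m t = be n t := by
    intro m n t hm hn
    have key : ∀ m n : ℕ, m ≤ n → ∀ t, t ∈ Ioo (-((m:ℝ) + 1)) ((m:ℝ) + 1) → be m t = be n t := by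
      intro m n hmn t hm
      have hmn' : (m:ℝ) ≤ n := by exact_mod_cast hmn
      have h0 : (0:ℝ) ∈ Ioo (-((m:ℝ) + 1)) ((m:ℝ) + 1) := by
        have : (0:ℝ) ≤ m := m.cast_nonneg
        constructor <;> linarith
      refine ODE_solution_unique_of_mem_Ioo (v := v) (s := fun _ => univ) (K := K)
        (fun t _ => (hK t).lipschitzOnWith) h0
        (fun t ht => ⟨hbe m t ht, mem_univ _⟩) (fun t ht => ⟨hbe n t ⟨by linarith [ht.1], by linarith [ht.2]⟩, mem_univ _⟩)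
        (by rw [hbe0, hbe0]) hm
    rcases le_total m n with h | h
    · exact key m n h t hm
    · exact (key n m h t hn).symm
  have h3 : ∀ n : ℕ, ∀ t ∈ Ioo (-((n:ℝ) + 1)) ((n:ℝ) + 1), be ⌈|t|⌉₊ t = be n t := by
    intro n t ht
    apply h2 _ _ _ _ ht
    have := Nat.le_ceil |t|
    have h4 := abs_le.mp this
    constructor <;> linarith
  refine ⟨fun t => be ⌈|t|⌉₊ t, ?_, fun t => ?_⟩
  · simp [hbe0]
  · obtain ⟨n, hn⟩ := exists_nat_gt |t|
    have ht : t ∈ Ioo (-((n:ℝ) + 1)) ((n:ℝ) + 1) := by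
      have := abs_lt.mp hn
      constructor <;> linarith
    have h4 := hbe n t ht
    rw [← h3 n t ht] at h4
    refine h4.congr_of_eventuallyEq ?_
    filter_upwards [Ioo_mem_nhds ht.1 ht.2] with r hr
    exact h3 n r hr

omit [CompleteSpace E] in
/-- two-sided Gronwall estimate from time zero. -/
theorem gronwall_two {f f' : ℝ → E} {de K ep T : ℝ} (hf : ∀ t, HasDerivAt f (f' t) t)
    (h0 : ‖f 0‖ ≤ de) (hb : ∀ t, |t| ≤ T → ‖f' t‖ ≤ K * ‖f t‖ + ep) {t : ℝ} (ht : |t| ≤ T) :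
    ‖f t‖ ≤ gronwallBound de K ep |t| := by
  have fwd : ∀ (g g' : ℝ → E), (∀ t, HasDerivAt g (g' t) t) → ‖g 0‖ ≤ de →
      (∀ t, |t| ≤ T → ‖g' t‖ ≤ K * ‖g t‖ + ep) → ∀ t, 0 ≤ t → t ≤ T →
      ‖g t‖ ≤ gronwallBound de K ep t := by
    intro g g' hg hg0 hgb t ht0 htT
    have := norm_le_gronwallBound_of_norm_deriv_right_le (f := g) (f' := g') (a := 0) (b := T)
      (fun t _ => (hg t).continuousAt.continuousWithinAt) (fun t _ => (hg t).hasDerivWithinAt) hg0
      (fun t ht => hgb t (by rw [abs_of_nonneg ht.1]; exact ht.2.le)) t ⟨ht0, htT⟩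
    rwa [sub_zero] at this
  rcases le_total 0 t with h | h
  · rw [abs_of_nonneg h] at ht ⊢
    exact fwd f f' hf h0 hb t h ht
  · rw [abs_of_nonpos h] at ht ⊢
    have := fwd (fun t => f (-t)) (fun t => - f' (-t)) (fun t => by
      have h1 := (hf (-t)).scomp t (hasDerivAt_neg t)
      simpa [Function.comp_def] using h1) (by simpa using h0)
      (fun t ht => by
        have := hb (-t) (by rwa [abs_neg])
        simpa using this) (-t) (by linarith) ht
    simpa using this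

end Pool.Agent.Helper383.WaveODE
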