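import Mathlib
import Pool.Agent.Helper383.WaveODE

set_option autoImplicit false

open Set Filter Topology MeasureTheory Metric

namespace Pool.Agent.Helper383.WaveCirc

open scoped NNReal
open Pool.Agent.Helper383.WaveODE

variable {l : ℝ} [hfl : Fact (0 < l)]

/-- the vector field on the space of continuous functions on the circle. -/
noncomputable def vf (psi : C(ℝ, ℝ)) (t : ℝ) (f : C(AddCircle l, ℝ)) : C(AddCircle l, ℝ) where
  toFun s := - psi (f s - f ((t : AddCircle l) - s))
  continuous_toFun := by fun_prop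

omit hfl in
theorem vf_cont (psi : C(ℝ, ℝ)) (f : C(AddCircle l, ℝ)) : Continuous (fun t : ℝ => vf psi t f) := by
  apply ContinuousMap.continuous_of_continuous_uncurry
  have : Continuous (fun q : ℝ × AddCircle l => - psi (f q.2 - f ((q.1 : AddCircle l) - q.2))) := by
    have h1 : Continuous (fun q : ℝ × AddCircle l => (q.1 : AddCircle l)) :=
      (AddCircle.continuous_mk' l).comp continuous_fst
    fun_prop
  exact this

theorem vf_lip {psi : C(ℝ, ℝ)} {K : ℝ≥0} (hK : LipschitzWith K psi) (t : ℝ) :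
    LipschitzWith (K * 2) (vf (l := l) psi t) := by
  apply LipschitzWith.of_dist_le_mul
  intro f g
  rw [ContinuousMap.dist_le (by positivity)]
  intro s
  simp only [vf, ContinuousMap.coe_mk, dist_neg_neg]
  refine (hK.dist_le_mul _ _).trans ?_
  push_cast
  rw [mul_assoc]
  apply mul_le_mul_of_nonneg_left _ K.2
  have h1 := ContinuousMap.dist_apply_le_dist (f := f) (g := g) s
  have h2 := ContinuousMap.dist_apply_le_dist (f := f) (g := g) ((t : AddCircle l) - s)
  rw [Real.dist_eq] at h1 h2 ⊢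
  have h3 : f s - f ((t : AddCircle l) - s) - (g s - g ((t : AddCircle l) - s)) =
      (f s - g s) - (f ((t : AddCircle l) - s) - g ((t : AddCircle l) - s)) := by ring
  rw [h3]
  have := abs_sub (f s - g s) (f ((t : AddCircle l) - s) - g ((t : AddCircle l) - s))
  linarith

theorem vf_bd {psi : C(ℝ, ℝ)} {B : ℝ≥0} (hB : ∀ z, |psi z| ≤ B) (t : ℝ) (f : C(AddCircle l, ℝ)) :
    ‖vf psi t f‖ ≤ B := by
  refine (ContinuousMap.norm_le (vf psi t f) B.coe_nonneg).mpr fun s => ?_
  simp only [vf, ContinuousMap.coe_mk, norm_neg, Real.norm_eq_abs]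
  exact hB _

/-- existence of the circle curve. -/
theorem exists_curve {psi : C(ℝ, ℝ)} {K B : ℝ≥0} (hK : LipschitzWith K psi)
    (hB : ∀ z, |psi z| ≤ B) (p0 : C(AddCircle l, ℝ)) :
    ∃ F : ℝ → C(AddCircle l, ℝ), F 0 = p0 ∧ ∀ t, HasDerivAt F (vf psi t (F t)) t :=
  global_ode (vf_lip hK) (vf_cont psi) (vf_bd hB) p0

theorem hasDerivAt_eval {F : ℝ → C(AddCircle l, ℝ)} {F' : C(AddCircle l, ℝ)} {t : ℝ}
    (h : HasDerivAt F F' t) (s : AddCircle l) : HasDerivAt (fun t => F t s) (F' s) t := by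
  exact (ContinuousMap.evalCLM ℝ s : C(AddCircle l, ℝ) →L[ℝ] ℝ).hasFDerivAt.comp_hasDerivAt t h

omit hfl in
theorem curve_cont {F : ℝ → C(AddCircle l, ℝ)} (h : Continuous F) :
    Continuous (fun q : ℝ × ℝ => F q.1 (q.2 : AddCircle l)) := by
  have h1 : Continuous (fun q : ℝ × ℝ => (q.2 : AddCircle l)) :=
    (AddCircle.continuous_mk' l).comp continuous_snd
  fun_prop

end Pool.Agent.Helper383.WaveCirc
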