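import Mathlib
import Pool.Agent.Helper383.WaveCirc

set_option autoImplicit false

open Set Filter Topology MeasureTheory Metric

namespace Pool.Agent.Helper383.WaveReg

open scoped NNReal
open Pool.Agent.Helper383.WaveODE Pool.Agent.Helper383.WaveCirc

variable {l : ℝ} [hfl : Fact (0 < l)]

/-- truncation. -/
noncomputable def clip (rho x : ℝ) : ℝ := max (-rho) (min rho x)

theorem clip_cont (rho : ℝ) : Continuous (clip rho) := by unfold clip; fun_prop

theorem clip_abs_le {rho : ℝ} (h : 0 ≤ rho) (x : ℝ) : |clip rho x| ≤ rho := by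
  unfold clip
  rw [abs_le]
  exact ⟨le_max_left _ _, max_le (by linarith) (min_le_left _ _)⟩

theorem clip_abs_le' {rho : ℝ} (h : 0 ≤ rho) (x : ℝ) : |clip rho x| ≤ |x| := by
  unfold clip
  rcases le_total 0 x with hx | hx
  · have h1 : 0 ≤ min rho x := le_min h hx
    rw [max_eq_right (by linarith), abs_of_nonneg h1, abs_of_nonneg hx]
    exact min_le_right _ _
  · have h1 : min rho x = x := min_eq_right (by linarith)
    rw [h1, abs_of_nonpos hx]
    rw [abs_of_nonpos (max_le (by linarith) hx)]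
    have := le_max_right (-rho) x
    linarith

theorem clip_eq {rho x : ℝ} (h : |x| ≤ rho) : clip rho x = x := by
  unfold clip
  have := abs_le.mp h
  rw [min_eq_right this.2, max_eq_right this.1]

theorem clip_lip (rho x y : ℝ) : |clip rho x - clip rho y| ≤ |x - y| := by
  unfold clip
  refine (abs_max_sub_max_le_max _ _ _ _).trans ?_
  rw [sub_self, abs_zero]
  refine max_le (abs_nonneg _) ?_
  refine (abs_min_sub_min_le_max _ _ _ _).trans ?_
  rw [sub_self, abs_zero]
  exact max_le (abs_nonneg _) le_rfl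

/-- the coefficient. -/
noncomputable def zed (F : ℝ → C(AddCircle l, ℝ)) (t : ℝ) (s : AddCircle l) : ℝ :=
  F t s - F t ((t : AddCircle l) - s)

/-- truncated linearised field. -/
noncomputable def wf (psi' : C(ℝ, ℝ)) (rho : ℝ) (F : ℝ → C(AddCircle l, ℝ)) (t : ℝ)
    (g : C(AddCircle l, ℝ)) : C(AddCircle l, ℝ) where
  toFun s := - (psi' (F t s - F t ((t : AddCircle l) - s)) *
    (clip rho (g s) + clip rho (g ((t : AddCircle l) - s))))
  continuous_toFun := by
    have := clip_cont rho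
    fun_prop

omit hfl in
theorem wf_cont (psi' : C(ℝ, ℝ)) (rho : ℝ) {F : ℝ → C(AddCircle l, ℝ)} (hF : Continuous F)
    (g : C(AddCircle l, ℝ)) : Continuous (fun t : ℝ => wf psi' rho F t g) := by
  apply ContinuousMap.continuous_of_continuous_uncurry
  have hcl := clip_cont rho
  have h1 : Continuous (fun q : ℝ × AddCircle l => (q.1 : AddCircle l)) :=
    (AddCircle.continuous_mk' l).comp continuous_fst
  have : Continuous (fun q : ℝ × AddCircle l => - (psi' (F q.1 q.2 - F q.1 ((q.1 : AddCircle l) - q.2)) *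
    (clip rho (g q.2) + clip rho (g ((q.1 : AddCircle l) - q.2))))) := by
    fun_prop
  exact this

theorem wf_lip {psi' : C(ℝ, ℝ)} {K : ℝ≥0} (hK : ∀ z, |psi' z| ≤ K) (rho : ℝ)
    (F : ℝ → C(AddCircle l, ℝ)) (t : ℝ) : LipschitzWith (K * 2) (wf psi' rho F t) := by
  apply LipschitzWith.of_dist_le_mul
  intro f g
  rw [ContinuousMap.dist_le (by positivity)]
  intro s
  simp only [wf, ContinuousMap.coe_mk, dist_neg_neg]
  rw [Real.dist_eq, ← mul_sub, abs_mul]
  push_cast
  rw [mul_assoc]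
  apply mul_le_mul (hK _) _ (abs_nonneg _) K.coe_nonneg
  have h1 := ContinuousMap.dist_apply_le_dist (f := f) (g := g) s
  have h2 := ContinuousMap.dist_apply_le_dist (f := f) (g := g) ((t : AddCircle l) - s)
  rw [Real.dist_eq] at h1 h2
  have h3 : clip rho (f s) + clip rho (f ((t : AddCircle l) - s)) -
      (clip rho (g s) + clip rho (g ((t : AddCircle l) - s))) =
      (clip rho (f s) - clip rho (g s)) +
        (clip rho (f ((t : AddCircle l) - s)) - clip rho (g ((t : AddCircle l) - s))) := by ring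
  rw [h3]
  have h4 := abs_add_le (clip rho (f s) - clip rho (g s))
    (clip rho (f ((t : AddCircle l) - s)) - clip rho (g ((t : AddCircle l) - s)))
  have h5 := clip_lip rho (f s) (g s)
  have h6 := clip_lip rho (f ((t : AddCircle l) - s)) (g ((t : AddCircle l) - s))
  linarith

theorem wf_bd {psi' : C(ℝ, ℝ)} {K : ℝ≥0} (hK : ∀ z, |psi' z| ≤ K) (rho : ℝ≥0)
    (F : ℝ → C(AddCircle l, ℝ)) (t : ℝ) (g : C(AddCircle l, ℝ)) :
    ‖wf psi' rho F t g‖ ≤ (K * (2 * rho) : ℝ≥0) := by
  refine (ContinuousMap.norm_le (wf psi' rho F t g) (NNReal.coe_nonneg _)).mpr fun s => ?_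
  simp only [wf, ContinuousMap.coe_mk, norm_neg, Real.norm_eq_abs, abs_mul]
  push_cast
  apply mul_le_mul (hK _) _ (abs_nonneg _) K.coe_nonneg
  have h4 := abs_add_le (clip rho (g s)) (clip rho (g ((t : AddCircle l) - s)))
  have h5 := clip_abs_le rho.coe_nonneg (g s)
  have h6 := clip_abs_le rho.coe_nonneg (g ((t : AddCircle l) - s))
  linarith

theorem wf_bd' {psi' : C(ℝ, ℝ)} {K : ℝ≥0} (hK : ∀ z, |psi' z| ≤ K) {rho : ℝ} (hr : 0 ≤ rho)
    (F : ℝ → C(AddCircle l, ℝ)) (t : ℝ) (g : C(AddCircle l, ℝ)) :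
    ‖wf psi' rho F t g‖ ≤ (2 * K) * ‖g‖ := by
  refine (ContinuousMap.norm_le (wf psi' rho F t g) (by positivity)).mpr fun s => ?_
  simp only [wf, ContinuousMap.coe_mk, norm_neg, Real.norm_eq_abs, abs_mul]
  have h4 := abs_add_le (clip rho (g s)) (clip rho (g ((t : AddCircle l) - s)))
  have h5 := clip_abs_le' hr (g s)
  have h6 := clip_abs_le' hr (g ((t : AddCircle l) - s))
  have h7 := ContinuousMap.norm_coe_le_norm g s
  have h8 := ContinuousMap.norm_coe_le_norm g ((t : AddCircle l) - s)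
  rw [Real.norm_eq_abs] at h7 h8
  calc |psi' (F t s - F t ((t : AddCircle l) - s))| *
        |clip rho (g s) + clip rho (g ((t : AddCircle l) - s))| ≤ K * (2 * ‖g‖) :=
        mul_le_mul (hK _) (by linarith) (abs_nonneg _) K.coe_nonneg
    _ = _ := by ring

/-- the linearised solution on a bounded time interval. -/
theorem exists_lin {psi' : C(ℝ, ℝ)} {K : ℝ≥0} (hK : ∀ z, |psi' z| ≤ K) (hK0 : 0 < K)
    {F : ℝ → C(AddCircle l, ℝ)} (hF : Continuous F) (p1 : C(AddCircle l, ℝ)) (T : ℝ) :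
    ∃ (D : ℝ → C(AddCircle l, ℝ)) (rho : ℝ), D 0 = p1 ∧ 0 ≤ rho ∧
      (∀ t, HasDerivAt D (wf psi' rho F t (D t)) t) ∧ ∀ t, |t| ≤ T → ‖D t‖ ≤ rho := by
  set rho : ℝ≥0 := ⟨‖p1‖ * Real.exp (2 * K * T), by positivity⟩ with hrho
  obtain ⟨D, hD0, hD⟩ := global_ode (v := wf psi' rho F) (wf_lip hK rho F)
    (wf_cont psi' rho hF) (wf_bd hK rho F) p1
  refine ⟨D, rho, hD0, rho.coe_nonneg, hD, fun t ht => ?_⟩
  have h1 := gronwall_two hD (de := ‖p1‖) (K := 2 * K) (ep := 0) (T := T) (by rw [hD0])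
    (fun t _ => by rw [add_zero]; exact wf_bd' hK rho.coe_nonneg F t (D t)) ht
  rw [gronwallBound_ε0] at h1
  refine h1.trans ?_
  have h2 : Real.exp (2 * K * |t|) ≤ Real.exp (2 * K * T) := by
    apply Real.exp_le_exp.mpr
    exact mul_le_mul_of_nonneg_left ht (by positivity)
  exact mul_le_mul_of_nonneg_left h2 (norm_nonneg _)

/-- mean value theorem in symmetric form. -/
theorem mvt {f f' : ℝ → ℝ} (hf : ∀ x, HasDerivAt f (f' x) x) (a b : ℝ) :
    ∃ xi ∈ uIcc a b, f b - f a = f' xi * (b - a) := by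
  rcases lt_trichotomy a b with h | h | h
  · obtain ⟨c, hc, hc'⟩ := exists_hasDerivAt_eq_slope f f' h
      (fun x _ => (hf x).continuousAt.continuousWithinAt) (fun x _ => hf x)
    refine ⟨c, by rw [uIcc_of_le h.le]; exact ⟨hc.1.le, hc.2.le⟩, ?_⟩
    rw [hc', div_mul_cancel₀ _ (by linarith : b - a ≠ 0)]
  · exact ⟨a, left_mem_uIcc, by rw [h]; ring⟩
  · obtain ⟨c, hc, hc'⟩ := exists_hasDerivAt_eq_slope f f' h
      (fun x _ => (hf x).continuousAt.continuousWithinAt) (fun x _ => hf x)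
    refine ⟨c, by rw [uIcc_of_ge h.le]; exact ⟨hc.1.le, hc.2.le⟩, ?_⟩
    rw [hc']
    have : a - b ≠ 0 := by linarith
    field_simp
    ring

theorem abs_uIcc {a b x : ℝ} (h : x ∈ uIcc a b) : |x - a| ≤ |b - a| := by
  have := abs_sub_left_of_mem_uIcc h
  exact this

end Pool.Agent.Helper383.WaveReg
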