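import Mathlib
import Pool.Agent.Helper383.WaveReg

set_option autoImplicit false

open Set Filter Topology MeasureTheory Metric

namespace Pool.Agent.Helper383.WaveReg2

open scoped NNReal
open Pool.Agent.Helper383.WaveODE Pool.Agent.Helper383.WaveCirc Pool.Agent.Helper383.WaveReg

variable {l : ℝ} [hfl : Fact (0 < l)]

/-- shift on the circle. -/
noncomputable def sh (l h : ℝ) : C(AddCircle l, AddCircle l) where
  toFun s := s + (h : AddCircle l)
  continuous_toFun := by fun_prop

/-- difference quotient. -/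
noncomputable def dq (h : ℝ) (f : C(AddCircle l, ℝ)) : C(AddCircle l, ℝ) :=
  h⁻¹ • (ContinuousMap.compCLM ℝ ℝ (sh l h) f - f)

omit hfl in
theorem dq_apply (h : ℝ) (f : C(AddCircle l, ℝ)) (s : AddCircle l) :
    dq h f s = h⁻¹ * (f (s + (h : AddCircle l)) - f s) := rfl

theorem dq_deriv {F : ℝ → C(AddCircle l, ℝ)} {F' : C(AddCircle l, ℝ)} {t : ℝ} (h : ℝ)
    (hF : HasDerivAt F F' t) : HasDerivAt (fun t => dq h (F t)) (dq h F') t := by
  have h1 := (ContinuousMap.compCLM ℝ ℝ (sh l h) : C(AddCircle l, ℝ) →L[ℝ] C(AddCircle l, ℝ)).hasFDerivAt.comp_hasDerivAt t hF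
  exact (h1.sub hF).const_smul h⁻¹

theorem key {psi psi' : C(ℝ, ℝ)} (hd : ∀ z, HasDerivAt psi (psi' z) z) {K : ℝ≥0}
    (hK : ∀ z, |psi' z| ≤ K) (f D : C(AddCircle l, ℝ)) {t h eps rho : ℝ} (hh : h ≠ 0)
    (hD : ‖D‖ ≤ rho) (s : AddCircle l) (heps0 : 0 ≤ eps)
    (heps : ∀ xi, |xi - (f s - f ((t : AddCircle l) - s))| ≤
      |(f (s + (h : AddCircle l)) - f ((t : AddCircle l) - (s + (h : AddCircle l)))) -
        (f s - f ((t : AddCircle l) - s))| →
      |psi' xi - psi' (f s - f ((t : AddCircle l) - s))| ≤ eps) :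
    |dq h (vf psi t f) s + psi' (f s - f ((t : AddCircle l) - s)) * (D s + D ((t : AddCircle l) - s))| ≤
      2 * K * max ‖dq h f - D‖ ‖dq (-h) f - D‖ + eps * (2 * rho) := by
  set z := f s - f ((t : AddCircle l) - s) with hz
  set z' := f (s + (h : AddCircle l)) - f ((t : AddCircle l) - (s + (h : AddCircle l))) with hz'
  obtain ⟨xi, hxi, hmv⟩ := mvt hd z z'
  have hxi' := heps xi (abs_uIcc hxi)
  have e1 : dq h (vf psi t f) s = - (h⁻¹ * (psi z' - psi z)) := by
    rw [dq_apply]; simp only [vf, ContinuousMap.coe_mk]; ring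
  have e2 : h⁻¹ * (z' - z) = dq h f s + dq (-h) f ((t : AddCircle l) - s) := by
    rw [dq_apply, dq_apply, hz, hz']
    have : (t : AddCircle l) - s + ((-h : ℝ) : AddCircle l) = (t : AddCircle l) - (s + (h : AddCircle l)) := by
      rw [AddCircle.coe_neg]; abel
    rw [this, inv_neg]; ring
  have e3 : dq h (vf psi t f) s + psi' z * (D s + D ((t : AddCircle l) - s)) =
      - (psi' xi * ((dq h f s - D s) + (dq (-h) f ((t : AddCircle l) - s) - D ((t : AddCircle l) - s)))) -
        (psi' xi - psi' z) * (D s + D ((t : AddCircle l) - s)) := by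
    have e4 : h⁻¹ * (psi z' - psi z) = psi' xi * (dq h f s + dq (-h) f ((t : AddCircle l) - s)) := by
      rw [hmv, ← e2]; ring
    rw [e1, e4]; ring
  rw [e3]
  have a1 : |dq h f s - D s| ≤ ‖dq h f - D‖ := by
    have := ContinuousMap.norm_coe_le_norm (dq h f - D) s
    rwa [Real.norm_eq_abs, ContinuousMap.sub_apply] at this
  have a2 : |dq (-h) f ((t : AddCircle l) - s) - D ((t : AddCircle l) - s)| ≤ ‖dq (-h) f - D‖ := by
    have := ContinuousMap.norm_coe_le_norm (dq (-h) f - D) ((t : AddCircle l) - s)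
    rwa [Real.norm_eq_abs, ContinuousMap.sub_apply] at this
  have a3 : |D s + D ((t : AddCircle l) - s)| ≤ 2 * rho := by
    have h1 := ContinuousMap.norm_coe_le_norm D s
    have h2 := ContinuousMap.norm_coe_le_norm D ((t : AddCircle l) - s)
    rw [Real.norm_eq_abs] at h1 h2
    have h3 := abs_add_le (D s) (D ((t : AddCircle l) - s))
    linarith
  have a4 : |(dq h f s - D s) + (dq (-h) f ((t : AddCircle l) - s) - D ((t : AddCircle l) - s))| ≤
      2 * max ‖dq h f - D‖ ‖dq (-h) f - D‖ := by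
    have h1 := abs_add_le (dq h f s - D s) (dq (-h) f ((t : AddCircle l) - s) - D ((t : AddCircle l) - s))
    have h2 := le_max_left ‖dq h f - D‖ ‖dq (-h) f - D‖
    have h3 := le_max_right ‖dq h f - D‖ ‖dq (-h) f - D‖
    linarith
  set A := (dq h f s - D s) + (dq (-h) f ((t : AddCircle l) - s) - D ((t : AddCircle l) - s)) with hA
  set B := D s + D ((t : AddCircle l) - s) with hB
  calc |-(psi' xi * A) - (psi' xi - psi' z) * B| ≤ |-(psi' xi * A)| + |(psi' xi - psi' z) * B| := abs_sub _ _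
    _ = |psi' xi| * |A| + |psi' xi - psi' z| * |B| := by rw [abs_neg, abs_mul, abs_mul]
    _ ≤ K * (2 * max ‖dq h f - D‖ ‖dq (-h) f - D‖) + eps * (2 * rho) := by
        apply add_le_add
        · exact mul_le_mul (hK _) a4 (abs_nonneg _) K.coe_nonneg
        · exact mul_le_mul hxi' a3 (abs_nonneg _) heps0
    _ = _ := by ring

/-- uniform equicontinuity in the label. -/
theorem equi {F : ℝ → C(AddCircle l, ℝ)} (hF : Continuous F) (T : ℝ) {ep : ℝ} (hep : 0 < ep) :
    ∃ de, 0 < de ∧ ∀ h : ℝ, |h| < de → ∀ t, |t| ≤ T → ∀ s : AddCircle l,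
      |F t (s + (h : AddCircle l)) - F t s| ≤ ep := by
  have hc : Continuous (fun q : ℝ × AddCircle l => F q.1 q.2) := by fun_prop
  have hu : UniformContinuousOn (fun q : ℝ × AddCircle l => F q.1 q.2) (Icc (-T) T ×ˢ univ) :=
    (isCompact_Icc.prod isCompact_univ).uniformContinuousOn_of_continuous hc.continuousOn
  rw [Metric.uniformContinuousOn_iff] at hu
  obtain ⟨de, hde, hu⟩ := hu ep hep
  refine ⟨de, hde, fun h hh t ht s => ?_⟩
  have ht' : t ∈ Icc (-T) T := abs_le.mp ht
  have := hu (t, s + (h : AddCircle l)) ⟨ht', mem_univ _⟩ (t, s) ⟨ht', mem_univ _⟩ (by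
    rw [Prod.dist_eq, dist_self, dist_eq_norm, add_sub_cancel_left]
    refine max_lt hde ?_
    exact lt_of_le_of_lt (QuotientAddGroup.norm_mk_le_norm) hh)
  rw [Real.dist_eq] at this
  exact this.le

/-- initial difference quotients. -/
theorem init_dq {p0 p1 : C(AddCircle l, ℝ)} (hp : ∀ s : ℝ, HasDerivAt (fun s : ℝ => p0 (s : AddCircle l)) (p1 s) s)
    {ep : ℝ} (hep : 0 < ep) :
    ∃ de, 0 < de ∧ ∀ h : ℝ, h ≠ 0 → |h| < de → ‖dq h p0 - p1‖ ≤ ep := by
  obtain ⟨de, hde, hu⟩ := equi (F := fun _ : ℝ => p1) continuous_const 0 hep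
  refine ⟨de, hde, fun h h0 hh => ?_⟩
  refine (ContinuousMap.norm_le _ hep.le).mpr fun s => ?_
  rw [Real.norm_eq_abs, ContinuousMap.sub_apply, dq_apply]
  induction s using QuotientAddGroup.induction_on with
  | H s =>
    obtain ⟨xi, hxi, hmv⟩ := mvt (f := fun s : ℝ => p0 (s : AddCircle l)) (f' := fun s => p1 (s : AddCircle l)) hp s (s + h)
    have e1 : p0 ((s : AddCircle l) + (h : AddCircle l)) - p0 (s : AddCircle l) = p1 (xi : AddCircle l) * h := by
      have : (fun s : ℝ => p0 (s : AddCircle l)) (s + h) = p0 ((s : AddCircle l) + (h : AddCircle l)) := by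
        simp only [AddCircle.coe_add]
      rw [← this]
      simp only at hmv ⊢
      rw [hmv]; ring
    have e2 : h⁻¹ * (p1 (xi : AddCircle l) * h) = p1 (xi : AddCircle l) := by field_simp
    have e3 : |xi - s| < de := by
      have := abs_uIcc hxi
      rw [add_sub_cancel_left] at this
      linarith
    have e4 := hu (xi - s) e3 0 (by simp) (s : AddCircle l)
    have e5 : (s : AddCircle l) + ((xi - s : ℝ) : AddCircle l) = (xi : AddCircle l) := by
      rw [← AddCircle.coe_add]; congr 1; ring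
    rw [e5] at e4
    change |h⁻¹ * (p0 ((s : AddCircle l) + (h : AddCircle l)) - p0 (s : AddCircle l)) - p1 (s : AddCircle l)| ≤ ep
    rw [e1, e2]
    exact e4

/-- spatial differentiability of the curve on bounded time intervals. -/
theorem space_deriv {psi psi' : C(ℝ, ℝ)} (hd : ∀ z, HasDerivAt psi (psi' z) z) {K : ℝ≥0}
    (hK : ∀ z, |psi' z| ≤ K) (hK0 : 0 < K) (huc : UniformContinuous psi')
    {F : ℝ → C(AddCircle l, ℝ)} (hF : ∀ t, HasDerivAt F (vf psi t (F t)) t)
    {p1 : C(AddCircle l, ℝ)} (hp : ∀ s : ℝ, HasDerivAt (fun s : ℝ => F 0 (s : AddCircle l)) (p1 s) s)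
    (T : ℝ) :
    ∃ D : ℝ → C(AddCircle l, ℝ), Continuous D ∧ ∀ t, |t| ≤ T → ∀ s : ℝ,
      HasDerivAt (fun s : ℝ => F t (s : AddCircle l)) (D t (s : AddCircle l)) s := by
  have hFc : Continuous F := continuous_iff_continuousAt.mpr fun t => (hF t).continuousAt
  obtain ⟨D, rho, hD0, hrho, hD, hDb⟩ := exists_lin hK hK0 hFc p1 T
  have hDc : Continuous D := continuous_iff_continuousAt.mpr fun t => (hD t).continuousAt
  refine ⟨D, hDc, fun t ht s => ?_⟩
  have hT : 0 ≤ T := (abs_nonneg t).trans ht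
  set CT := Real.exp (2 * K * T) + (2 * rho) / (2 * K) * (Real.exp (2 * K * T) - 1) with hCT
  have hexp1 : 1 ≤ Real.exp (2 * K * T) := Real.one_le_exp (by positivity)
  have hK' : (0:ℝ) < K := by exact_mod_cast hK0
  have hCTp : 0 < CT := by
    have : 0 ≤ (2 * rho) / (2 * K) * (Real.exp (2 * K * T) - 1) :=
      mul_nonneg (by positivity) (by linarith)
    linarith
  -- main estimate
  have main : ∀ ep, 0 < ep → ∃ de, 0 < de ∧ ∀ h : ℝ, h ≠ 0 → |h| < de → ∀ t, |t| ≤ T →
      ‖dq h (F t) - D t‖ ≤ ep * CT := by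
    intro ep hep
    rw [Metric.uniformContinuous_iff] at huc
    obtain ⟨d1, hd1, hu1⟩ := huc ep hep
    obtain ⟨d2, hd2, hu2⟩ := equi hFc T (show 0 < d1 / 4 by positivity)
    obtain ⟨d3, hd3, hu3⟩ := init_dq hp hep
    refine ⟨min d2 d3, lt_min hd2 hd3, fun h h0 hh t ht => ?_⟩
    have hh2 : |h| < d2 := lt_of_lt_of_le hh (min_le_left _ _)
    have hh3 : |h| < d3 := lt_of_lt_of_le hh (min_le_right _ _)
    have hz : ∀ h : ℝ, |h| < d2 → ∀ t, |t| ≤ T → ∀ s : AddCircle l,
        ∀ xi, |xi - (F t s - F t ((t : AddCircle l) - s))| ≤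
      |(F t (s + (h : AddCircle l)) - F t ((t : AddCircle l) - (s + (h : AddCircle l)))) -
        (F t s - F t ((t : AddCircle l) - s))| →
      |psi' xi - psi' (F t s - F t ((t : AddCircle l) - s))| ≤ ep := by
      intro h hh t ht s xi hxi
      have g1 := hu2 h hh t ht s
      have g2 := hu2 (-h) (by rwa [abs_neg]) t ht ((t : AddCircle l) - s)
      have g3 : (t : AddCircle l) - s + ((-h : ℝ) : AddCircle l) = (t : AddCircle l) - (s + (h : AddCircle l)) := by
        rw [AddCircle.coe_neg]; abel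
      rw [g3] at g2
      have g4 : (F t (s + (h : AddCircle l)) - F t ((t : AddCircle l) - (s + (h : AddCircle l)))) -
        (F t s - F t ((t : AddCircle l) - s)) = (F t (s + (h : AddCircle l)) - F t s) -
          (F t ((t : AddCircle l) - (s + (h : AddCircle l))) - F t ((t : AddCircle l) - s)) := by ring
      rw [g4] at hxi
      have g5 := abs_sub (F t (s + (h : AddCircle l)) - F t s)
        (F t ((t : AddCircle l) - (s + (h : AddCircle l))) - F t ((t : AddCircle l) - s))
      have := hu1 (a := xi) (b := F t s - F t ((t : AddCircle l) - s)) (by rw [Real.dist_eq]; linarith)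
      rw [Real.dist_eq] at this
      exact this.le
    have hX : ∀ t, HasDerivAt (fun t => (dq h (F t) - D t, dq (-h) (F t) - D t))
        (dq h (vf psi t (F t)) - wf psi' rho F t (D t), dq (-h) (vf psi t (F t)) - wf psi' rho F t (D t)) t := by
      intro t
      exact ((dq_deriv h (hF t)).sub (hD t)).prodMk ((dq_deriv (-h) (hF t)).sub (hD t))
    have hX0 : ‖(dq h (F 0) - D 0, dq (-h) (F 0) - D 0)‖ ≤ ep := by
      rw [Prod.norm_mk, hD0]
      exact max_le (hu3 h h0 hh3) (hu3 (-h) (neg_ne_zero.mpr h0) (by rwa [abs_neg]))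
    have hcomp : ∀ h : ℝ, h ≠ 0 → |h| < d2 → ∀ t, |t| ≤ T →
        ‖dq h (vf psi t (F t)) - wf psi' rho F t (D t)‖ ≤
          2 * K * max ‖dq h (F t) - D t‖ ‖dq (-h) (F t) - D t‖ + ep * (2 * rho) := by
      intro h h0 hh t ht
      refine (ContinuousMap.norm_le _ (by positivity)).mpr fun s => ?_
      rw [Real.norm_eq_abs, ContinuousMap.sub_apply]
      have k1 := key hd hK (F t) (D t) h0 (hDb t ht) s hep.le (hz h hh t ht s)
      have k2 : (wf psi' rho F t (D t)) s = - (psi' (F t s - F t ((t : AddCircle l) - s)) *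
          (D t s + D t ((t : AddCircle l) - s))) := by
        simp only [wf, ContinuousMap.coe_mk]
        have m1 := ContinuousMap.norm_coe_le_norm (D t) s
        have m2 := ContinuousMap.norm_coe_le_norm (D t) ((t : AddCircle l) - s)
        rw [Real.norm_eq_abs] at m1 m2
        rw [clip_eq (m1.trans (hDb t ht)), clip_eq (m2.trans (hDb t ht))]
      rw [k2, sub_neg_eq_add]
      exact k1
    have hb : ∀ t, |t| ≤ T → ‖(dq h (vf psi t (F t)) - wf psi' rho F t (D t),
        dq (-h) (vf psi t (F t)) - wf psi' rho F t (D t))‖ ≤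
        (2 * K) * ‖(dq h (F t) - D t, dq (-h) (F t) - D t)‖ + ep * (2 * rho) := by
      intro t ht
      rw [Prod.norm_mk, Prod.norm_mk]
      refine max_le (hcomp h h0 hh2 t ht) ?_
      have := hcomp (-h) (neg_ne_zero.mpr h0) (by rwa [abs_neg]) t ht
      rw [neg_neg, max_comm] at this
      exact this
    have hg := gronwall_two hX hX0 hb ht
    rw [gronwallBound_of_K_ne_0 (by positivity)] at hg
    have hn : ‖dq h (F t) - D t‖ ≤ ‖(dq h (F t) - D t, dq (-h) (F t) - D t)‖ := by
      rw [Prod.norm_mk]; exact le_max_left _ _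
    refine hn.trans (hg.trans ?_)
    have hexp : Real.exp (2 * K * |t|) ≤ Real.exp (2 * K * T) := by
      apply Real.exp_le_exp.mpr
      exact mul_le_mul_of_nonneg_left ht (by positivity)
    have e1 : ep * CT = ep * Real.exp (2 * K * T) + ep * (2 * rho) / (2 * K) * (Real.exp (2 * K * T) - 1) := by
      rw [hCT]; ring
    rw [e1]
    apply add_le_add
    · exact mul_le_mul_of_nonneg_left hexp hep.le
    · apply mul_le_mul_of_nonneg_left (by linarith) (by positivity)
  -- conclusion
  rw [hasDerivAt_iff_tendsto_slope_zero, Metric.tendsto_nhdsWithin_nhds]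
  intro e he
  obtain ⟨de, hde, hm⟩ := main (e / (2 * CT)) (by positivity)
  refine ⟨de, hde, fun h h0 hh => ?_⟩
  rw [Real.dist_eq, sub_zero] at hh
  have h1 := hm h h0 hh t ht
  have h2 := ContinuousMap.norm_coe_le_norm (dq h (F t) - D t) (s : AddCircle l)
  rw [Real.norm_eq_abs, ContinuousMap.sub_apply, dq_apply] at h2
  rw [Real.dist_eq, smul_eq_mul, AddCircle.coe_add]
  have h3 : e / (2 * CT) * CT = e / 2 := by field_simp
  rw [h3] at h1
  linarith

end Pool.Agent.Helper383.WaveReg2
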