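import Mathlib

set_option autoImplicit false

open Set Filter Topology

namespace Pool.Agent.Helper383.WavePhi

/-- the power nonlinearity. -/
noncomputable def phi (al z : ℝ) : ℝ := |z| ^ al * z

variable {al : ℝ}

theorem phi_cont (h : 0 < al) : Continuous (phi al) := by
  unfold phi
  exact (continuous_abs.rpow_const (fun x => Or.inr h.le)).mul continuous_id

theorem phi_zero : phi al 0 = 0 := by simp [phi]

theorem phi_neg (z : ℝ) : phi al (-z) = - phi al z := by simp [phi]

theorem phi_nonneg_eq (h : 0 < al) {z : ℝ} (hz : 0 ≤ z) : phi al z = z ^ (al + 1) := by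
  unfold phi
  rw [abs_of_nonneg hz, Real.rpow_add_of_nonneg hz h.le zero_le_one, Real.rpow_one]

theorem abs_phi (h : 0 < al) (z : ℝ) : |phi al z| = |z| ^ (al + 1) := by
  unfold phi
  rw [abs_mul, Real.rpow_add_of_nonneg (abs_nonneg z) h.le zero_le_one, Real.rpow_one,
    abs_of_nonneg (Real.rpow_nonneg (abs_nonneg z) al)]

theorem mul_phi (h : 0 < al) (z : ℝ) : z * phi al z = |z| ^ (al + 2) := by
  unfold phi
  rw [Real.rpow_add_of_nonneg (abs_nonneg z) h.le zero_le_two]
  have : |z| ^ (2:ℝ) = z ^ 2 := by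
    rw [show (2:ℝ) = ((2:ℕ):ℝ) by norm_num, Real.rpow_natCast, sq_abs]
  rw [this]; ring

theorem phi_nonneg (h : 0 < al) {z : ℝ} (hz : 0 ≤ z) : 0 ≤ phi al z := by
  rw [phi_nonneg_eq h hz]; exact Real.rpow_nonneg hz _

theorem phi_mono (h : 0 < al) : Monotone (phi al) := by
  intro x y hxy
  rcases le_total 0 x with hx | hx
  · rw [phi_nonneg_eq h hx, phi_nonneg_eq h (hx.trans hxy)]
    exact Real.rpow_le_rpow hx hxy (by linarith)
  · rcases le_total 0 y with hy | hy
    · have h1 : phi al x ≤ 0 := by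
        have := phi_nonneg h (neg_nonneg.mpr hx)
        rw [phi_neg] at this; linarith
      exact h1.trans (phi_nonneg h hy)
    · have h2 : phi al (-y) ≤ phi al (-x) := by
        rw [phi_nonneg_eq h (neg_nonneg.mpr hx), phi_nonneg_eq h (neg_nonneg.mpr hy)]
        exact Real.rpow_le_rpow (neg_nonneg.mpr hy) (by linarith) (by linarith)
      rw [phi_neg, phi_neg] at h2; linarith

theorem phi_hasDerivAt (h : 0 < al) (z : ℝ) :
    HasDerivAt (phi al) ((al + 1) * |z| ^ al) z := by
  rcases lt_trichotomy z 0 with hz | hz | hz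
  · have h1 : HasDerivAt (fun x : ℝ => - (-x) ^ (al + 1)) ((al + 1) * |z| ^ al) z := by
      have h2 : HasDerivAt (fun x : ℝ => -x) (-1) z := hasDerivAt_neg z
      have h3 := h2.rpow_const (p := al + 1) (Or.inl (by linarith : -z ≠ 0))
      have h4 := h3.neg
      refine h4.congr_deriv ?_
      rw [abs_of_neg hz]
      have : al + 1 - 1 = al := by ring
      rw [this]; ring
    refine h1.congr_of_eventuallyEq ?_
    filter_upwards [Iio_mem_nhds hz] with x hx
    have hx' : x < 0 := hx
    have := phi_neg (al := al) (-x)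
    rw [neg_neg] at this
    rw [this, phi_nonneg_eq h (by linarith : (0:ℝ) ≤ -x)]
  · subst hz
    rw [abs_zero, Real.zero_rpow h.ne', mul_zero]
    rw [hasDerivAt_iff_isLittleO_nhds_zero]
    simp only [zero_add, phi_zero, sub_zero, smul_zero]
    have h1 : (fun x : ℝ => phi al x) = fun x => |x| ^ al * x := rfl
    rw [h1]
    have h2 : Tendsto (fun x : ℝ => |x| ^ al) (𝓝 0) (𝓝 0) := by
      have := (continuous_abs.rpow_const (fun x : ℝ => Or.inr h.le) : Continuous fun x : ℝ => |x| ^ al).tendsto 0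
      simpa [Real.zero_rpow h.ne'] using this
    have h3 : (fun x : ℝ => |x| ^ al * x) =o[𝓝 0] (fun x : ℝ => 1 * x) := by
      apply Asymptotics.IsLittleO.mul_isBigO
      · rw [Asymptotics.isLittleO_one_iff]; exact h2
      · exact Asymptotics.isBigO_refl _ _
    simpa using h3
  · have h1 : HasDerivAt (fun x : ℝ => x ^ (al + 1)) ((al + 1) * |z| ^ al) z := by
      have h3 := (hasDerivAt_id z).rpow_const (p := al + 1) (Or.inl hz.ne')
      refine h3.congr_deriv ?_
      rw [abs_of_pos hz]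
      have : al + 1 - 1 = al := by ring
      rw [this]; simp
    refine h1.congr_of_eventuallyEq ?_
    filter_upwards [Ioi_mem_nhds hz] with x hx
    have hx' : 0 < x := hx
    exact phi_nonneg_eq h hx'.le

theorem abs_rpow_hasDerivAt (h : 0 < al) (z : ℝ) :
    HasDerivAt (fun x : ℝ => |x| ^ (al + 2)) ((al + 2) * phi al z) z := by
  have h1 : (fun x : ℝ => |x| ^ (al + 2)) = fun x => x * phi al x := by
    funext x; rw [mul_phi h]
  rw [h1]
  have h2 := (hasDerivAt_id z).mul (phi_hasDerivAt h z)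
  refine h2.congr_deriv ?_
  simp only [id, phi]; ring

/-- Lipschitz bound on a ball. -/
theorem phi_lip (h : 0 < al) {R x y : ℝ} (hx : |x| ≤ R) (hy : |y| ≤ R) :
    |phi al x - phi al y| ≤ (al + 1) * R ^ al * |x - y| := by
  have hR : 0 ≤ R := (abs_nonneg x).trans hx
  have key : ∀ u ∈ Icc (-R) R, ‖(al + 1) * |u| ^ al‖ ≤ (al + 1) * R ^ al := by
    intro u hu
    have hu' : |u| ≤ R := abs_le.mpr hu
    rw [Real.norm_eq_abs, abs_of_nonneg (by positivity)]
    have := Real.rpow_le_rpow (abs_nonneg u) hu' h.le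
    have h1 : 0 ≤ al + 1 := by linarith
    exact mul_le_mul_of_nonneg_left this h1
  have := Convex.norm_image_sub_le_of_norm_hasDerivWithin_le (f := phi al)
    (f' := fun u => (al + 1) * |u| ^ al) (s := Icc (-R) R) (x := y) (y := x)
    (C := (al + 1) * R ^ al)
    (fun u _ => (phi_hasDerivAt h u).hasDerivWithinAt) key (convex_Icc _ _)
    (abs_le.mp hy) (abs_le.mp hx)
  simpa [Real.norm_eq_abs] using this

/-- convexity (tangent) inequality for `|x|^(al+2)`. -/
theorem pow_tangent (h : 0 < al) (a b : ℝ) :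
    |b| ^ (al + 2) + (al + 2) * phi al b * (a - b) ≤ |a| ^ (al + 2) := by
  rcases lt_trichotomy a b with hab | hab | hab
  · obtain ⟨c, hc, hc'⟩ := exists_hasDerivAt_eq_slope (fun x : ℝ => |x| ^ (al + 2))
      (fun x => (al + 2) * phi al x) hab
      (fun x _ => (abs_rpow_hasDerivAt h x).continuousAt.continuousWithinAt)
      (fun x _ => abs_rpow_hasDerivAt h x)
    have h1 : phi al c ≤ phi al b := phi_mono h hc.2.le
    have h2 : |b| ^ (al + 2) - |a| ^ (al + 2) = (al + 2) * phi al c * (b - a) := by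
      rw [hc']; field_simp [(sub_pos.mpr hab).ne']
    nlinarith [mul_nonneg (mul_nonneg (by linarith : (0:ℝ) ≤ al + 2) (sub_nonneg.mpr h1)) (sub_pos.mpr hab).le]
  · subst hab; simp
  · obtain ⟨c, hc, hc'⟩ := exists_hasDerivAt_eq_slope (fun x : ℝ => |x| ^ (al + 2))
      (fun x => (al + 2) * phi al x) hab
      (fun x _ => (abs_rpow_hasDerivAt h x).continuousAt.continuousWithinAt)
      (fun x _ => abs_rpow_hasDerivAt h x)
    have h1 : phi al b ≤ phi al c := phi_mono h hc.1.le
    have h2 : |a| ^ (al + 2) - |b| ^ (al + 2) = (al + 2) * phi al c * (a - b) := by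
      rw [hc']; field_simp [(sub_pos.mpr hab).ne']
    nlinarith [mul_nonneg (mul_nonneg (by linarith : (0:ℝ) ≤ al + 2) (sub_nonneg.mpr h1)) (sub_pos.mpr hab).le]

/-- second order upper bound on a ball. -/
theorem pow_quad (h : 0 < al) {R a b : ℝ} (ha : |a| ≤ R) (hb : |b| ≤ R) :
    |b| ^ (al + 2) ≤ |a| ^ (al + 2) + (al + 2) * phi al a * (b - a)
      + (al + 2) * ((al + 1) * R ^ al) * (b - a) ^ 2 := by
  have h1 := pow_tangent h a b
  have h2 := phi_lip h hb ha
  have h3 : (phi al b - phi al a) * (b - a) ≤ (al + 1) * R ^ al * (b - a) ^ 2 := by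
    calc (phi al b - phi al a) * (b - a) ≤ |(phi al b - phi al a) * (b - a)| := le_abs_self _
      _ = |phi al b - phi al a| * |b - a| := abs_mul _ _
      _ ≤ ((al + 1) * R ^ al * |b - a|) * |b - a| := mul_le_mul_of_nonneg_right h2 (abs_nonneg _)
      _ = (al + 1) * R ^ al * (b - a) ^ 2 := by rw [mul_assoc, abs_mul_abs_self]; ring
  have h4 : (al + 2) * ((phi al b - phi al a) * (b - a)) ≤ (al + 2) * ((al + 1) * R ^ al * (b - a) ^ 2) :=
    mul_le_mul_of_nonneg_left h3 (by linarith)
  nlinarith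

/-- pointwise inequality used for the decay of the sup norm. -/
theorem phi_sub_ge (h : 0 < al) {x y : ℝ} (hx : 0 ≤ x) (hy : 0 ≤ y) :
    (x / 2) ^ (al + 1) - 2 * y ^ (al + 1) ≤ phi al (x - y) := by
  have hy1 : 0 ≤ y ^ (al + 1) := Real.rpow_nonneg hy _
  rcases le_total y (x / 2) with hc | hc
  · have h1 : phi al (x / 2) ≤ phi al (x - y) := phi_mono h (by linarith)
    rw [phi_nonneg_eq h (by linarith : (0:ℝ) ≤ x / 2)] at h1
    linarith
  · have h1 : phi al (-y) ≤ phi al (x - y) := phi_mono h (by linarith)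
    rw [phi_neg, phi_nonneg_eq h hy] at h1
    have h2 : (x / 2) ^ (al + 1) ≤ y ^ (al + 1) :=
      Real.rpow_le_rpow (by linarith) hc (by linarith)
    linarith

/-- tangent inequality for `x^(al+1)`. -/
theorem rpow_tangent (h : 0 < al) {x m : ℝ} (hx : 0 ≤ x) (hm : 0 < m) :
    m ^ (al + 1) + (al + 1) * m ^ al * (x - m) ≤ x ^ (al + 1) := by
  have hs : -1 ≤ x / m - 1 := by
    have : 0 ≤ x / m := div_nonneg hx hm.le
    linarith
  have h1 := one_add_mul_self_le_rpow_one_add hs (p := al + 1) (by linarith)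
  have h2 : (1 + (x / m - 1)) = x / m := by ring
  rw [h2, Real.div_rpow hx hm.le] at h1
  have hmp : 0 < m ^ (al + 1) := Real.rpow_pos_of_pos hm _
  have h3 := mul_le_mul_of_nonneg_right h1 hmp.le
  rw [div_mul_cancel₀ _ hmp.ne'] at h3
  have h4 : m ^ (al + 1) = m ^ al * m := by
    rw [Real.rpow_add hm, Real.rpow_one]
  have h5 : (1 + (al + 1) * (x / m - 1)) * m ^ (al + 1)
      = m ^ (al + 1) + (al + 1) * m ^ al * (x - m) := by
    rw [h4]; field_simp
  linarith

end Pool.Agent.Helper383.WavePhi
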