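import Mathlib
import Pool.Agent.Helper383.WavePhi

set_option autoImplicit false

open Set Filter Topology MeasureTheory intervalIntegral

namespace Pool.Agent.Helper383.WaveFlow

open Pool.Agent.Helper383.WavePhi

/-- the circle flow attached to a nonlinearity `be` (labels `s` modulo `l`, label `s` meets label
`t - s` at time `t`). -/
structure Flow (be : ℝ → ℝ) (l : ℝ) (P : ℝ → ℝ → ℝ) : Prop where
  cont : Continuous (fun q : ℝ × ℝ => P q.1 q.2)
  per : ∀ t s, P t (s + l) = P t s
  ode : ∀ t, 0 < t → ∀ s, HasDerivAt (fun t => P t s) (- be (P t s - P t (t - s))) t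

/-- continuity, oddness and sign of the nonlinearity. -/
structure Nice (be : ℝ → ℝ) : Prop where
  cont : Continuous be
  odd : ∀ z, be (-z) = - be z
  sgn : ∀ z, 0 ≤ z → 0 ≤ be z

variable {be : ℝ → ℝ} {l : ℝ} {P : ℝ → ℝ → ℝ}

theorem swap_cont {F : ℝ → ℝ → ℝ} (hF : Continuous (fun q : ℝ × ℝ => F q.1 q.2)) (a b c d : ℝ) :
    ∫ x in a..b, ∫ y in c..d, F x y = ∫ y in c..d, ∫ x in a..b, F x y := by
  apply intervalIntegral_intervalIntegral_swap
  have : ContinuousOn (Function.uncurry F) (uIcc a b ×ˢ uIcc c d) := by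
    apply Continuous.continuousOn; exact hF
  exact (this.integrableOn_compact (isCompact_uIcc.prod isCompact_uIcc)).mono_set
    (Set.prod_mono uIoc_subset_uIcc uIoc_subset_uIcc)

theorem cont_param {F : ℝ → ℝ → ℝ} (hF : Continuous (fun q : ℝ × ℝ => F q.1 q.2)) (c d : ℝ) :
    Continuous (fun x => ∫ y in c..d, F x y) :=
  intervalIntegral.continuous_parametric_intervalIntegral_of_continuous'
    (f := F) (by exact hF) c d

theorem int_reflect {f : ℝ → ℝ} (hf : ∀ s, f (s + l) = f s) (t : ℝ) :
    ∫ s in (0:ℝ)..l, f (t - s) = ∫ s in (0:ℝ)..l, f s := by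
  rw [intervalIntegral.integral_comp_sub_left (fun x => f x) t]
  have hp : Function.Periodic f l := hf
  have := hp.intervalIntegral_add_eq (t - l) 0
  rw [sub_add_cancel, zero_add] at this
  rw [sub_zero]; exact this

theorem int_shift {f : ℝ → ℝ} (hf : ∀ s, f (s + l) = f s) (a : ℝ) :
    ∫ s in a..(a + l), f s = ∫ s in (0:ℝ)..l, f s := by
  have hp : Function.Periodic f l := hf
  have := hp.intervalIntegral_add_eq a 0
  rw [zero_add] at this
  exact this

/-- symmetrisation. -/
theorem symm_int (hb : Nice be) {f h : ℝ → ℝ} (hf : Continuous f) (hh : Continuous h)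
    (hper : ∀ s, f (s + l) = f s) (t : ℝ) :
    ∫ s in (0:ℝ)..l, h (f s) * be (f s - f (t - s)) =
      (1 / 2) * ∫ s in (0:ℝ)..l, (h (f s) - h (f (t - s))) * be (f s - f (t - s)) := by
  have hc := hb.cont
  have h1 : ∫ s in (0:ℝ)..l, h (f (t - s)) * be (f (t - s) - f s) =
      ∫ s in (0:ℝ)..l, h (f s) * be (f s - f (t - s)) := by
    have := int_reflect (l := l) (f := fun s => h (f s) * be (f s - f (t - s))) (by
      intro s
      have e1 : f (t - (s + l)) = f (t - s) := by
        have := hper (t - (s + l)); rw [show t - (s + l) + l = t - s by ring] at this; exact this.symm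
      simp only [hper, e1]) t
    simp only [sub_sub_cancel] at this
    exact this
  have h2 : ∫ s in (0:ℝ)..l, (h (f s) - h (f (t - s))) * be (f s - f (t - s)) =
      (∫ s in (0:ℝ)..l, h (f s) * be (f s - f (t - s))) +
      ∫ s in (0:ℝ)..l, h (f (t - s)) * be (f (t - s) - f s) := by
    rw [← intervalIntegral.integral_add]
    · apply intervalIntegral.integral_congr
      intro s _
      have : be (f (t - s) - f s) = - be (f s - f (t - s)) := by
        rw [← hb.odd]; congr 1; ring
      simp only [this]; ring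
    · apply Continuous.intervalIntegrable; fun_prop
    · apply Continuous.intervalIntegrable; fun_prop
  rw [h2, h1]; ring

theorem Flow.cont_s (hP : Flow be l P) (t : ℝ) : Continuous (P t) :=
  hP.cont.comp (Continuous.prodMk continuous_const continuous_id)

theorem Flow.cont_t (hP : Flow be l P) (s : ℝ) : Continuous (fun t => P t s) :=
  hP.cont.comp (Continuous.prodMk continuous_id continuous_const)

theorem Flow.cont_z (hP : Flow be l P) : Continuous (fun q : ℝ × ℝ => P q.1 q.2 - P q.1 (q.1 - q.2)) :=
  hP.cont.sub (hP.cont.comp (Continuous.prodMk continuous_fst (continuous_fst.sub continuous_snd)))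

/-- integral identity for `j(P)`. -/
theorem Flow.int_identity (hb : Nice be) (hP : Flow be l P) {j j' : ℝ → ℝ}
    (hj : ∀ x, HasDerivAt j (j' x) x) (hj' : Continuous j') {a b : ℝ} (ha : 0 ≤ a) (hab : a ≤ b) :
    (∫ s in (0:ℝ)..l, j (P b s)) - (∫ s in (0:ℝ)..l, j (P a s)) =
      ∫ t in a..b, ∫ s in (0:ℝ)..l, j' (P t s) * (- be (P t s - P t (t - s))) := by
  have hjc : Continuous j := continuous_iff_continuousAt.mpr fun x => (hj x).continuousAt
  have hc := hb.cont
  have hz := hP.cont_z
  have hPc := hP.cont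
  have hF : Continuous (fun q : ℝ × ℝ => j' (P q.1 q.2) * (- be (P q.1 q.2 - P q.1 (q.1 - q.2)))) := by
    exact (hj'.comp hPc).mul (hc.comp hz).neg
  rw [swap_cont hF, ← intervalIntegral.integral_sub]
  · apply intervalIntegral.integral_congr
    intro s _
    have hcs : Continuous (fun t => j' (P t s) * (- be (P t s - P t (t - s)))) :=
      hF.comp (Continuous.prodMk continuous_id continuous_const)
    have := intervalIntegral.integral_eq_sub_of_hasDerivAt_of_le (a := a) (b := b) hab
      (f := fun t => j (P t s)) (f' := fun t => j' (P t s) * (- be (P t s - P t (t - s))))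
      ((hjc.comp (hP.cont_t s)).continuousOn)
      (fun t ht => (hj (P t s)).comp t (hP.ode t (lt_of_le_of_lt ha ht.1) s))
      (hcs.intervalIntegrable _ _)
    exact this.symm
  · exact ((hjc.comp (hP.cont_s b))).intervalIntegrable _ _
  · exact ((hjc.comp (hP.cont_s a))).intervalIntegrable _ _

theorem per_sub {f : ℝ → ℝ} (hper : ∀ s, f (s + l) = f s) (t s : ℝ) : f (t - (s + l)) = f (t - s) := by
  have := hper (t - (s + l)); rw [show t - (s + l) + l = t - s by ring] at this; exact this.symm

/-- convex functionals decrease. -/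
theorem Flow.convex_anti (hl : 0 < l) (hb : Nice be) (hP : Flow be l P) {j j' : ℝ → ℝ}
    (hj : ∀ x, HasDerivAt j (j' x) x) (hj' : Continuous j') (hmono : Monotone j')
    {a b : ℝ} (ha : 0 ≤ a) (hab : a ≤ b) :
    (∫ s in (0:ℝ)..l, j (P b s)) ≤ (∫ s in (0:ℝ)..l, j (P a s)) := by
  have h := hP.int_identity hb hj hj' ha hab
  have h2 : ∫ t in a..b, ∫ s in (0:ℝ)..l, j' (P t s) * (- be (P t s - P t (t - s))) ≤ 0 := by
    have : ∀ t ∈ Icc a b, ∫ s in (0:ℝ)..l, j' (P t s) * (- be (P t s - P t (t - s))) ≤ 0 := by
      intro t _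
      have e1 : ∫ s in (0:ℝ)..l, j' (P t s) * (- be (P t s - P t (t - s))) =
          - ∫ s in (0:ℝ)..l, j' (P t s) * be (P t s - P t (t - s)) := by
        rw [← intervalIntegral.integral_neg]; apply intervalIntegral.integral_congr; intro s _; simp
      rw [e1, symm_int hb (hP.cont_s t) hj' (hP.per t) t]
      have : 0 ≤ ∫ s in (0:ℝ)..l, (j' (P t s) - j' (P t (t - s))) * be (P t s - P t (t - s)) := by
        apply intervalIntegral.integral_nonneg hl.le
        intro s _
        rcases le_total (P t s) (P t (t - s)) with hc | hc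
        · have h3 := hmono hc
          have h4 := hb.sgn _ (sub_nonneg.mpr hc)
          have h5 := hb.odd (P t (t - s) - P t s)
          rw [neg_sub] at h5
          rw [h5]
          exact mul_nonneg_of_nonpos_of_nonpos (sub_nonpos.mpr h3) (by linarith)
        · have h3 := hmono hc
          exact mul_nonneg (sub_nonneg.mpr h3) (hb.sgn _ (sub_nonneg.mpr hc))
      linarith
    have hz := hP.cont_z
    have hF : Continuous (fun q : ℝ × ℝ => j' (P q.1 q.2) * (- be (P q.1 q.2 - P q.1 (q.1 - q.2)))) :=
      (hj'.comp hP.cont).mul (hb.cont.comp hz).neg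
    calc ∫ t in a..b, ∫ s in (0:ℝ)..l, j' (P t s) * (- be (P t s - P t (t - s)))
        ≤ ∫ t in a..b, (0:ℝ) :=
          intervalIntegral.integral_mono_on hab
            ((cont_param (F := fun t s => j' (P t s) * (- be (P t s - P t (t - s)))) hF 0 l).intervalIntegrable _ _)
            (continuous_const.intervalIntegrable _ _) this
      _ = 0 := by simp
  linarith

theorem hasDerivAt_max_sq (x : ℝ) : HasDerivAt (fun y : ℝ => (max y 0) ^ 2) (2 * max x 0) x := by
  rcases lt_trichotomy x 0 with hx | hx | hx
  · rw [max_eq_right hx.le, mul_zero]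
    refine (hasDerivAt_const x (0:ℝ)).congr_of_eventuallyEq ?_
    filter_upwards [Iio_mem_nhds hx] with y hy
    have : y < 0 := hy
    simp [max_eq_right this.le]
  · subst hx
    rw [max_self, mul_zero, hasDerivAt_iff_isLittleO_nhds_zero]
    simp only [zero_add, max_self, smul_zero, sub_zero]
    have h1 : (fun y : ℝ => max y 0 ^ 2 - 0 ^ 2) =O[𝓝 0] fun y => y ^ 2 := by
      apply Asymptotics.isBigO_of_le
      intro y
      simp only [Real.norm_eq_abs]
      rw [show max y 0 ^ 2 - (0:ℝ) ^ 2 = max y 0 ^ 2 by ring, abs_of_nonneg (sq_nonneg _), abs_of_nonneg (sq_nonneg _)]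
      rcases le_total y 0 with h | h
      · rw [max_eq_right h]; nlinarith [sq_nonneg y]
      · rw [max_eq_left h]
    have h2 : (fun y : ℝ => y ^ 2) =o[𝓝 0] fun y : ℝ => y := by
      have := Asymptotics.isLittleO_pow_id (𝕜 := ℝ) (n := 2) one_lt_two
      simpa using this
    exact h1.trans_isLittleO h2
  · rw [max_eq_left hx.le]
    have h := hasDerivAt_pow 2 x
    have h' : HasDerivAt (fun y : ℝ => y ^ 2) (2 * x) x := by simpa using h
    refine h'.congr_of_eventuallyEq ?_
    filter_upwards [Ioi_mem_nhds hx] with y hy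
    have : 0 < y := hy
    simp [max_eq_left this.le]

/-- upper bounds propagate. -/
theorem Flow.le_of_le (hl : 0 < l) (hb : Nice be) (hP : Flow be l P) {a c : ℝ} (ha : 0 ≤ a)
    (h : ∀ s, P a s ≤ c) {b : ℝ} (hab : a ≤ b) (s : ℝ) : P b s ≤ c := by
  have hj : ∀ x, HasDerivAt (fun x : ℝ => (max (x - c) 0) ^ 2) (2 * max (x - c) 0) x := by
    intro x
    have := (hasDerivAt_max_sq (x - c)).comp x ((hasDerivAt_id x).sub_const c)
    simpa [Function.comp_def] using this
  have h1 := hP.convex_anti hl hb hj (by fun_prop)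
    (fun x y hxy => by
      have : max (x - c) 0 ≤ max (y - c) 0 := max_le_max (by linarith) le_rfl
      linarith) ha hab
  have h2 : ∫ s in (0:ℝ)..l, (max (P a s - c) 0) ^ 2 = 0 := by
    have : ∀ s, (max (P a s - c) 0) ^ 2 = (0:ℝ) := by
      intro s; rw [max_eq_right (by linarith [h s])]; norm_num
    simp [this]
  rw [h2] at h1
  have hall : ∀ s ∈ Icc (0:ℝ) l, P b s ≤ c := by
    intro s hs
    by_contra hcon
    push Not at hcon
    have hcb := hP.cont_s b
    have : 0 < ∫ s in (0:ℝ)..l, (max (P b s - c) 0) ^ 2 := by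
      apply intervalIntegral.integral_pos hl
      · apply Continuous.continuousOn; fun_prop
      · intro x _; positivity
      · refine ⟨s, hs, ?_⟩
        have : 0 < max (P b s - c) 0 := lt_max_of_lt_left (by linarith)
        positivity
    linarith
  have hp : Function.Periodic (P b) l := hP.per b
  obtain ⟨y, hy, hy'⟩ := hp.exists_mem_Ico₀ hl s
  rw [hy']
  exact hall y ⟨hy.1, hy.2.le⟩

theorem Flow.neg (hb : Nice be) (hP : Flow be l P) : Flow be l (fun t s => - P t s) where
  cont := hP.cont.neg
  per := fun t s => by simp [hP.per t s]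
  ode := fun t ht s => by
    have := (hP.ode t ht s).neg
    refine this.congr_deriv ?_
    rw [← hb.odd]; congr 2; ring

theorem Flow.abs_le (hl : 0 < l) (hb : Nice be) (hP : Flow be l P) {a c : ℝ} (ha : 0 ≤ a)
    (h : ∀ s, |P a s| ≤ c) {b : ℝ} (hab : a ≤ b) (s : ℝ) : |P b s| ≤ c := by
  rw [_root_.abs_le]
  constructor
  · have := (hP.neg hb).le_of_le hl hb (a := a) (c := c) ha (fun s => by
      have := (_root_.abs_le.mp (h s)).1; linarith) hab s
    linarith
  · exact hP.le_of_le hl hb ha (fun s => (_root_.abs_le.mp (h s)).2) hab s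

theorem Flow.mean_eq (hb : Nice be) (hP : Flow be l P) {a b : ℝ} (ha : 0 ≤ a) (hab : a ≤ b) :
    ∫ s in (0:ℝ)..l, P b s = ∫ s in (0:ℝ)..l, P a s := by
  have h := hP.int_identity hb (j := fun x => x) (j' := fun _ => 1) (fun x => hasDerivAt_id x)
    continuous_const ha hab
  have h2 : ∀ t, ∫ s in (0:ℝ)..l, (1:ℝ) * (- be (P t s - P t (t - s))) = 0 := by
    intro t
    have e1 : ∫ s in (0:ℝ)..l, (1:ℝ) * (- be (P t s - P t (t - s))) =
        - ∫ s in (0:ℝ)..l, (fun _ => (1:ℝ)) (P t s) * be (P t s - P t (t - s)) := by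
      rw [← intervalIntegral.integral_neg]; apply intervalIntegral.integral_congr; intro s _; simp
    rw [e1, symm_int hb (hP.cont_s t) continuous_const (hP.per t) t]
    simp
  simp only [h2, intervalIntegral.integral_zero] at h
  linarith

/-- time shift by a multiple of the period. -/
theorem Flow.shift (hl : 0 ≤ l) (hP : Flow be l P) (n : ℕ) : Flow be l (fun t s => P (t + n * l) s) where
  cont := hP.cont.comp (Continuous.prodMk (continuous_fst.add continuous_const) continuous_snd)
  per := fun t s => hP.per _ s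
  ode := fun t ht s => by
    · have h0 : 0 < t + n * l := by positivity
      have h1 := hP.ode (t + n * l) h0 s
      have h2 : HasDerivAt (fun t : ℝ => t + n * l) 1 t := by
        simpa using (hasDerivAt_id t).add_const ((n:ℝ) * l)
      have h3 := h1.comp t h2
      have hp : Function.Periodic (P (t + n * l)) l := hP.per _
      have h4 : P (t + n * l) (t + n * l - s) = P (t + n * l) (t - s) := by
        have := hp.nat_mul n (t - s)
        rw [← this]; congr 1; ring
      rw [h4] at h3
      simpa [Function.comp_def] using h3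

end Pool.Agent.Helper383.WaveFlow
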