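import Mathlib
import Pool.Agent.Helper383.WaveFlow

set_option autoImplicit false

open Set Filter Topology MeasureTheory intervalIntegral

namespace Pool.Agent.Helper383.WaveSup

open Pool.Agent.Helper383.WavePhi Pool.Agent.Helper383.WaveFlow

variable {al k l : ℝ} {P : ℝ → ℝ → ℝ}

theorem nice_kphi (hal : 0 < al) (hk : 0 < k) : Nice (fun z => k * phi al z) where
  cont := continuous_const.mul (phi_cont hal)
  odd := fun z => by simp only [phi_neg]; ring
  sgn := fun _ hz => mul_nonneg hk.le (phi_nonneg hal hz)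

/-- the decay constant of one period. -/
noncomputable def rho (al k l M0 : ℝ) : ℝ := Real.exp (-(k * (2 * M0) ^ al * l))

noncomputable def cdec (al k l M0 : ℝ) : ℝ :=
  k * l * (rho al k l M0 / 2) ^ (al + 1) /
    (1 + 2 * k * l * ((2 * M0) ^ al / (rho al k l M0) ^ (al + 1)))

theorem rho_pos (al k l M0 : ℝ) : 0 < rho al k l M0 := Real.exp_pos _

theorem cdec_pos (hk : 0 < k) (hl : 0 < l) {M0 : ℝ} (hM0 : 0 < M0) : 0 < cdec al k l M0 := by
  unfold cdec
  have := rho_pos al k l M0
  positivity

theorem sup_step (hal : 0 < al) (hk : 0 < k) (hl : 0 < l)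
    (hP : Flow (fun z => k * phi al z) l P) {M M0 : ℝ} (hM : 0 < M) (hMM : M ≤ M0)
    (h0 : ∀ s, |P 0 s| ≤ M) (hmean : ∫ s in (0:ℝ)..l, P 0 s = 0) (s : ℝ) :
    P l s ≤ M - cdec al k l M0 * M ^ (al + 1) := by
  have hb := nice_kphi hal hk
  have hM0 : 0 < M0 := lt_of_lt_of_le hM hMM
  set r := rho al k l M0 with hr
  have hrp : 0 < r := rho_pos al k l M0
  have hbd : ∀ t, 0 ≤ t → ∀ s, |P t s| ≤ M := fun t ht s => hP.abs_le hl hb le_rfl h0 ht s
  have hy0 : ∀ t, 0 ≤ t → ∀ s, 0 ≤ M - P t s := fun t ht s => by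
    have := (abs_le.mp (hbd t ht s)).2; linarith
  have hy1 : ∀ t, 0 ≤ t → ∀ s, M - P t s ≤ 2 * M := fun t ht s => by
    have := (abs_le.mp (hbd t ht s)).1; linarith
  -- (1) linear lower bound
  have h1 : ∀ s t1 t2, 0 ≤ t1 → t1 ≤ t2 → t2 ≤ l → r * (M - P t1 s) ≤ M - P t2 s := by
    intro s t1 t2 ht1 ht12 ht2
    set K := k * (2 * M0) ^ al with hK
    have hKp : 0 < K := by positivity
    have hmono : MonotoneOn (fun t => Real.exp (K * t) * (M - P t s)) (Icc 0 l) := by
      have hder : ∀ t ∈ Ioo 0 l, HasDerivAt (fun t => Real.exp (K * t) * (M - P t s))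
          ((Real.exp (K * t) * (K * 1)) * (M - P t s) +
            Real.exp (K * t) * (k * phi al (P t s - P t (t - s)))) t := by
        intro t ht
        have e1 : HasDerivAt (fun t : ℝ => Real.exp (K * t)) (Real.exp (K * t) * (K * 1)) t :=
          ((hasDerivAt_id t).const_mul K).exp
        have e2 : HasDerivAt (fun t => M - P t s) (k * phi al (P t s - P t (t - s))) t := by
          have := (hP.ode t ht.1 s).const_sub M
          simpa using this
        exact e1.mul e2
      apply monotoneOn_of_deriv_nonneg (convex_Icc 0 l)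
      · have := hP.cont_t s
        fun_prop
      · intro t ht
        rw [interior_Icc] at ht
        exact (hder t ht).differentiableAt.differentiableWithinAt
      · intro t ht
        rw [interior_Icc] at ht
        rw [(hder t ht).deriv]
        have e3 : phi al (-(M - P t s)) ≤ phi al (P t s - P t (t - s)) := by
          apply phi_mono hal
          have := hy0 t ht.1.le (t - s)
          linarith
        rw [phi_neg] at e3
        have e4 : phi al (M - P t s) ≤ (2 * M0) ^ al * (M - P t s) := by
          unfold phi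
          apply mul_le_mul_of_nonneg_right _ (hy0 t ht.1.le s)
          rw [abs_of_nonneg (hy0 t ht.1.le s)]
          apply Real.rpow_le_rpow (hy0 t ht.1.le s) _ hal.le
          have := hy1 t ht.1.le s
          linarith
        have e5 : 0 < Real.exp (K * t) := Real.exp_pos _
        have e6 : 0 ≤ K * (M - P t s) + k * phi al (P t s - P t (t - s)) := by
          have := mul_le_mul_of_nonneg_left e4 hk.le
          have := mul_le_mul_of_nonneg_left e3 hk.le
          rw [hK]; nlinarith
        nlinarith [mul_nonneg e5.le e6]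
    have h2 := hmono ⟨ht1, ht12.trans ht2⟩ ⟨ht1.trans ht12, ht2⟩ ht12
    simp only at h2
    have e7 : r ≤ Real.exp (K * t1) / Real.exp (K * t2) := by
      rw [← Real.exp_sub, hr]
      unfold rho
      apply Real.exp_le_exp.mpr
      have : K * (t2 - t1) ≤ K * l := by
        apply mul_le_mul_of_nonneg_left _ hKp.le; linarith
      rw [← hK]; linarith
    have e8 : 0 < Real.exp (K * t2) := Real.exp_pos _
    calc r * (M - P t1 s) ≤ (Real.exp (K * t1) / Real.exp (K * t2)) * (M - P t1 s) :=
          mul_le_mul_of_nonneg_right e7 (hy0 t1 ht1 s)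
      _ = (Real.exp (K * t1) * (M - P t1 s)) / Real.exp (K * t2) := by ring
      _ ≤ (Real.exp (K * t2) * (M - P t2 s)) / Real.exp (K * t2) :=
          div_le_div_of_nonneg_right h2 e8.le
      _ = M - P t2 s := by field_simp
  set Y := M - P l s with hY
  have hYn : 0 ≤ Y := hy0 l hl.le s
  have hY2 : Y ≤ 2 * M := hy1 l hl.le s
  -- (2) lower bound of the derivative
  have h2 : ∀ t ∈ Icc (0:ℝ) l, k * ((r / 2) ^ (al + 1) * (M - P 0 (t - s)) ^ (al + 1)
      - 2 * (Y / r) ^ (al + 1)) ≤ k * phi al (P t s - P t (t - s)) := by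
    intro t ht
    apply mul_le_mul_of_nonneg_left _ hk.le
    have e1 := phi_sub_ge hal (hy0 t ht.1 (t - s)) (hy0 t ht.1 s)
    have e2 : M - P t (t - s) - (M - P t s) = P t s - P t (t - s) := by ring
    rw [e2] at e1
    have e3 : (M - P t s) ^ (al + 1) ≤ (Y / r) ^ (al + 1) := by
      apply Real.rpow_le_rpow (hy0 t ht.1 s) _ (by linarith)
      rw [le_div_iff₀ hrp, mul_comm]
      exact h1 s t l ht.1 ht.2 le_rfl
    have e4 : (r / 2) ^ (al + 1) * (M - P 0 (t - s)) ^ (al + 1) ≤ ((M - P t (t - s)) / 2) ^ (al + 1) := by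
      rw [← Real.mul_rpow (by positivity) (hy0 0 le_rfl _)]
      apply Real.rpow_le_rpow (mul_nonneg (by positivity) (hy0 0 le_rfl _)) _ (by linarith)
      have := h1 (t - s) 0 t le_rfl ht.1 ht.2
      linarith
    linarith
  -- (3) integrate
  have h3 : ∫ t in (0:ℝ)..l, k * phi al (P t s - P t (t - s)) = Y - (M - P 0 s) := by
    have hc : Continuous (fun t => k * phi al (P t s - P t (t - s))) := by
      have := hP.cont_z.comp (Continuous.prodMk continuous_id (continuous_const : Continuous fun _ : ℝ => s))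
      exact continuous_const.mul ((phi_cont hal).comp this)
    have := intervalIntegral.integral_eq_sub_of_hasDerivAt_of_le (a := 0) (b := l) hl.le
      (f := fun t => M - P t s) (f' := fun t => k * phi al (P t s - P t (t - s)))
      ((continuous_const.sub (hP.cont_t s)).continuousOn)
      (fun t ht => by
        have := (hP.ode t ht.1 s).const_sub M
        simpa using this) (hc.intervalIntegrable _ _)
    rw [this]
  have hcP : Continuous (P 0) := hP.cont_s 0
  have hcr : Continuous (fun x : ℝ => (M - P 0 x) ^ (al + 1)) :=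
    (continuous_const.sub hcP).rpow_const (fun x => Or.inr (by linarith))
  have h4 : ∫ t in (0:ℝ)..l, k * ((r / 2) ^ (al + 1) * (M - P 0 (t - s)) ^ (al + 1)
      - 2 * (Y / r) ^ (al + 1)) ≤ ∫ t in (0:ℝ)..l, k * phi al (P t s - P t (t - s)) := by
    apply intervalIntegral.integral_mono_on hl.le
    · apply Continuous.intervalIntegrable
      have : Continuous (fun t : ℝ => (M - P 0 (t - s)) ^ (al + 1)) :=
        hcr.comp (continuous_id.sub continuous_const)
      fun_prop
    · apply Continuous.intervalIntegrable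
      have := hP.cont_z.comp (Continuous.prodMk continuous_id (continuous_const : Continuous fun _ : ℝ => s))
      exact continuous_const.mul ((phi_cont hal).comp this)
    · exact h2
  have h5 : ∫ t in (0:ℝ)..l, (M - P 0 (t - s)) ^ (al + 1) = ∫ x in (0:ℝ)..l, (M - P 0 x) ^ (al + 1) := by
    rw [intervalIntegral.integral_comp_sub_right (fun x => (M - P 0 x) ^ (al + 1)) s]
    have := int_shift (l := l) (f := fun x => (M - P 0 x) ^ (al + 1)) (fun x => by simp only [hP.per 0 x]) (0 - s)
    rw [show 0 - s + l = l - s by ring] at this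
    exact this
  have h6 : l * M ^ (al + 1) ≤ ∫ x in (0:ℝ)..l, (M - P 0 x) ^ (al + 1) := by
    have e1 : ∫ x in (0:ℝ)..l, (M ^ (al + 1) + (al + 1) * M ^ al * ((M - P 0 x) - M)) = l * M ^ (al + 1) := by
      have : ∀ x, (M ^ (al + 1) + (al + 1) * M ^ al * ((M - P 0 x) - M)) =
          M ^ (al + 1) - ((al + 1) * M ^ al) * P 0 x := by intro x; ring
      simp only [this]
      have hi : IntervalIntegrable (fun x => ((al + 1) * M ^ al) * P 0 x) volume 0 l :=
        (continuous_const.mul hcP).intervalIntegrable _ _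
      rw [intervalIntegral.integral_sub (continuous_const.intervalIntegrable _ _) hi,
        intervalIntegral.integral_const_mul, hmean]
      simp
    rw [← e1]
    apply intervalIntegral.integral_mono_on hl.le
    · apply Continuous.intervalIntegrable; fun_prop
    · exact hcr.intervalIntegrable _ _
    · intro x _
      exact rpow_tangent hal (hy0 0 le_rfl x) hM
  have h7 : ∫ t in (0:ℝ)..l, k * ((r / 2) ^ (al + 1) * (M - P 0 (t - s)) ^ (al + 1)
      - 2 * (Y / r) ^ (al + 1)) = k * ((r / 2) ^ (al + 1) * (∫ x in (0:ℝ)..l, (M - P 0 x) ^ (al + 1))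
      - l * (2 * (Y / r) ^ (al + 1))) := by
    rw [← h5, intervalIntegral.integral_const_mul, intervalIntegral.integral_sub,
      intervalIntegral.integral_const_mul, intervalIntegral.integral_const]
    · simp
    · apply Continuous.intervalIntegrable
      exact continuous_const.mul (hcr.comp (continuous_id.sub continuous_const))
    · simp
  rw [h7, h3] at h4
  have h8 : (Y / r) ^ (al + 1) ≤ Y * ((2 * M0) ^ al / r ^ (al + 1)) := by
    rw [Real.div_rpow hYn hrp.le, Real.rpow_add_of_nonneg hYn hal.le zero_le_one, Real.rpow_one]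
    have : Y ^ al ≤ (2 * M0) ^ al := Real.rpow_le_rpow hYn (by linarith) hal.le
    have h9 : 0 < r ^ (al + 1) := Real.rpow_pos_of_pos hrp _
    rw [div_le_iff₀ h9]
    calc Y ^ al * Y ≤ (2 * M0) ^ al * Y := mul_le_mul_of_nonneg_right this hYn
      _ = Y * ((2 * M0) ^ al / r ^ (al + 1)) * r ^ (al + 1) := by field_simp
  have h10 : k * l * (r / 2) ^ (al + 1) * M ^ (al + 1) ≤
      Y * (1 + 2 * k * l * ((2 * M0) ^ al / r ^ (al + 1))) := by
    have e1 : 0 ≤ M - P 0 s := hy0 0 le_rfl s
    have e2 : (r / 2) ^ (al + 1) * (l * M ^ (al + 1)) ≤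
        (r / 2) ^ (al + 1) * (∫ x in (0:ℝ)..l, (M - P 0 x) ^ (al + 1)) :=
      mul_le_mul_of_nonneg_left h6 (by positivity)
    have e3 := mul_le_mul_of_nonneg_left e2 hk.le
    have e4 := mul_le_mul_of_nonneg_left h8 (by positivity : 0 ≤ 2 * k * l)
    nlinarith
  have h11 : 0 < 1 + 2 * k * l * ((2 * M0) ^ al / r ^ (al + 1)) := by positivity
  have h12 : cdec al k l M0 * M ^ (al + 1) ≤ Y := by
    unfold cdec
    rw [← hr, div_mul_eq_mul_div, div_le_iff₀ h11]
    exact h10
  linarith

theorem sup_step_abs (hal : 0 < al) (hk : 0 < k) (hl : 0 < l)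
    (hP : Flow (fun z => k * phi al z) l P) {M M0 : ℝ} (hM : 0 < M) (hMM : M ≤ M0)
    (h0 : ∀ s, |P 0 s| ≤ M) (hmean : ∫ s in (0:ℝ)..l, P 0 s = 0) (s : ℝ) :
    |P l s| ≤ M - cdec al k l M0 * M ^ (al + 1) := by
  rw [abs_le]
  constructor
  · have := sup_step hal hk hl (hP.neg (nice_kphi hal hk)) hM hMM (fun s => by simpa using h0 s)
      (by rw [intervalIntegral.integral_neg, hmean, neg_zero]) s
    linarith
  · exact sup_step hal hk hl hP hM hMM h0 hmean s

end Pool.Agent.Helper383.WaveSup
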