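import Mathlib
import Pool.Agent.Helper383.WaveSup
import Pool.Agent.Helper383.WaveReg2

set_option autoImplicit false

open Set Filter Topology MeasureTheory Metric

namespace Pool.Agent.Helper383.WaveExist

open scoped NNReal
open Pool.Agent.Helper383.WavePhi Pool.Agent.Helper383.WaveFlow Pool.Agent.Helper383.WaveSup
open Pool.Agent.Helper383.WaveODE Pool.Agent.Helper383.WaveCirc Pool.Agent.Helper383.WaveReg
open Pool.Agent.Helper383.WaveReg2

variable {al k l : ℝ}

/-- smooth bounded truncation of the damping. -/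
theorem exists_psi (hal : 0 < al) (hk : 0 < k) {R : ℝ} (hR : 0 < R) :
    ∃ (psi psi' : C(ℝ, ℝ)) (K B : ℝ≥0), 0 < K ∧ (∀ z, HasDerivAt psi (psi' z) z) ∧
      (∀ z, |psi' z| ≤ K) ∧ LipschitzWith K psi ∧ (∀ z, |psi z| ≤ B) ∧ UniformContinuous psi' ∧
      Nice psi ∧ ∀ z, |z| ≤ R → psi z = k * phi al z := by
  let b : ContDiffBump (0:ℝ) := ⟨R, R + 1, hR, by linarith⟩
  have hbc : Continuous b := b.continuous
  have hbd : ∀ z, HasDerivAt b (deriv b z) z := fun z =>
    ((b.contDiff (n := 1)).differentiable (by norm_num) z).hasDerivAt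
  have hbc' : Continuous (deriv b) := (b.contDiff (n := 1)).continuous_deriv (by norm_num)
  have hbs : HasCompactSupport b := b.hasCompactSupport
  have hbs' : HasCompactSupport (deriv b) := hbs.deriv
  have hphic := phi_cont hal
  have habc : Continuous (fun z : ℝ => |z| ^ al) := continuous_abs.rpow_const (fun _ => Or.inr hal.le)
  let f : ℝ → ℝ := fun z => (k * phi al z) * b z
  let f' : ℝ → ℝ := fun z => (k * ((al + 1) * |z| ^ al)) * b z + (k * phi al z) * deriv b z
  have hfc : Continuous f := by fun_prop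
  have hfc' : Continuous f' := by fun_prop
  have hfs : HasCompactSupport f := hbs.mul_left
  have hfs' : HasCompactSupport f' := by
    apply HasCompactSupport.add
    · exact hbs.mul_left
    · exact hbs'.mul_left
  have hfd : ∀ z, HasDerivAt f (f' z) z := fun z =>
    ((phi_hasDerivAt hal z).const_mul k).mul (hbd z)
  obtain ⟨K0, hK0⟩ := hfs'.exists_bound_of_continuous hfc'
  obtain ⟨B0, hB0⟩ := hfs.exists_bound_of_continuous hfc
  set K : ℝ≥0 := ⟨max K0 1, by positivity⟩ with hK
  have hKK : ∀ z, |f' z| ≤ K := fun z => (hK0 z).trans (le_max_left _ _)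
  refine ⟨⟨f, hfc⟩, ⟨f', hfc'⟩, K, ⟨max B0 0, by positivity⟩, ?_, hfd, hKK, ?_,
    fun z => (hB0 z).trans (le_max_left _ _), ?_, ⟨hfc, ?_, ?_⟩, ?_⟩
  · rw [← NNReal.coe_pos]
    exact lt_of_lt_of_le one_pos (le_max_right _ _)
  · apply lipschitzWith_of_nnnorm_deriv_le (fun z => (hfd z).differentiableAt)
    intro z
    rw [← NNReal.coe_le_coe, coe_nnnorm, Real.norm_eq_abs]
    change |deriv f z| ≤ K
    rw [(hfd z).deriv]
    exact hKK z
  · exact hfs'.uniformContinuous_of_continuous hfc'
  · intro z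
    change k * phi al (-z) * b (-z) = -(k * phi al z * b z)
    rw [phi_neg, b.neg]; ring
  · intro z hz
    exact mul_nonneg (mul_nonneg hk.le (phi_nonneg hal hz)) b.nonneg
  · intro z hz
    change k * phi al z * b z = k * phi al z
    rw [b.one_of_mem_closedBall (by simpa [Real.norm_eq_abs] using hz), mul_one]

/-- existence of continuously differentiable flows. -/
theorem exists_flow (hal : 0 < al) (hk : 0 < k) [hfl : Fact (0 < l)] (p0 p1 : C(AddCircle l, ℝ))
    (hp : ∀ s : ℝ, HasDerivAt (fun s : ℝ => p0 (s : AddCircle l)) (p1 s) s) :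
    ∃ P Pt Ps : ℝ → ℝ → ℝ, Flow (fun z => k * phi al z) l P ∧ (∀ s : ℝ, P 0 s = p0 (s : AddCircle l)) ∧
      Continuous (fun q : ℝ × ℝ => Pt q.1 q.2) ∧ Continuous (fun q : ℝ × ℝ => Ps q.1 q.2) ∧
      (∀ t s, HasDerivAt (fun t => P t s) (Pt t s) t) ∧ (∀ t s, HasDerivAt (P t) (Ps t s) s) ∧
      (∀ t s, Pt t (t - s) = - Pt t s) ∧
      (∀ t, 0 ≤ t → ∀ s, Pt t s = - (k * phi al (P t s - P t (t - s)))) := by
  have hl : 0 < l := hfl.out
  obtain ⟨psi, psi', K, B, hK0, hd, hK, hlip, hB, huc, hnice, heq⟩ :=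
    exists_psi hal hk (R := 2 * (‖p0‖ + 1)) (by positivity)
  obtain ⟨F, hF0, hF⟩ := exists_curve hlip hB p0
  have hFc : Continuous F := continuous_iff_continuousAt.mpr fun t => (hF t).continuousAt
  set P : ℝ → ℝ → ℝ := fun t s => F t (s : AddCircle l) with hPd
  have hpt : ∀ t s : ℝ, P t (t - s) = F t ((t : AddCircle l) - (s : AddCircle l)) := by
    intro t s; simp only [hPd, AddCircle.coe_sub]
  have hPc : Continuous (fun q : ℝ × ℝ => P q.1 q.2) := curve_cont hFc
  have hPder : ∀ t s, HasDerivAt (fun t => P t s) (- psi (P t s - P t (t - s))) t := by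
    intro t s
    rw [hpt]
    exact hasDerivAt_eval (hF t) (s : AddCircle l)
  have hflow : Flow psi l P := ⟨hPc, fun t s => by simp only [hPd, AddCircle.coe_add_period], fun t _ s => hPder t s⟩
  have hP0 : ∀ s, |P 0 s| ≤ ‖p0‖ := by
    intro s
    have := ContinuousMap.norm_coe_le_norm p0 (s : AddCircle l)
    rw [Real.norm_eq_abs] at this
    simpa only [hPd, hF0] using this
  have hPb : ∀ t, 0 ≤ t → ∀ s, |P t s| ≤ ‖p0‖ := fun t ht s =>
    hflow.abs_le hl hnice le_rfl hP0 ht s
  have hpsi : ∀ t, 0 ≤ t → ∀ s, psi (P t s - P t (t - s)) = k * phi al (P t s - P t (t - s)) := by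
    intro t ht s
    apply heq
    have h1 := abs_sub (P t s) (P t (t - s))
    have h2 := hPb t ht s
    have h3 := hPb t ht (t - s)
    linarith
  have hp' : ∀ s : ℝ, HasDerivAt (fun s : ℝ => F 0 (s : AddCircle l)) (p1 s) s := by
    rw [hF0]; exact hp
  have hreg := space_deriv hd hK hK0 huc hF hp'
  choose D hDc hD using hreg
  refine ⟨P, fun t s => - psi (P t s - P t (t - s)), fun t s => deriv (P t) s,
    ⟨hPc, hflow.per, fun t ht s => ?_⟩, fun s => by simp only [hPd, hF0], ?_, ?_, hPder, ?_, ?_, ?_⟩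
  · have := hPder t s
    rwa [hpsi t ht.le s] at this
  · have h1 : Continuous (fun q : ℝ × ℝ => P q.1 (q.1 - q.2)) :=
      hPc.comp (Continuous.prodMk continuous_fst (continuous_fst.sub continuous_snd))
    exact (psi.continuous.comp (hPc.sub h1)).neg
  · rw [continuous_iff_continuousAt]
    rintro ⟨t0, s0⟩
    have h1 : ∀ t, |t| ≤ |t0| + 1 → ∀ s, deriv (P t) s = D (|t0| + 1) t (s : AddCircle l) :=
      fun t ht s => (hD (|t0| + 1) t ht s).deriv
    have h2 : Continuous (fun q : ℝ × ℝ => D (|t0| + 1) q.1 (q.2 : AddCircle l)) := curve_cont (hDc _)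
    refine h2.continuousAt.congr ?_
    have h3 : ∀ᶠ q : ℝ × ℝ in 𝓝 (t0, s0), |q.1| < |t0| + 1 := by
      have : Continuous (fun q : ℝ × ℝ => |q.1|) := continuous_fst.abs
      exact this.continuousAt.eventually_lt continuousAt_const (by simp)
    filter_upwards [h3] with q hq
    exact (h1 q.1 hq.le q.2).symm
  · intro t s
    have := hD |t| t le_rfl s
    have h4 : HasDerivAt (P t) (D |t| t (s : AddCircle l)) s := this
    rw [← h4.deriv] at h4
    exact h4
  · intro t s
    simp only [sub_sub_cancel]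
    have h1 := hnice.odd (P t s - P t (t - s))
    rw [neg_sub] at h1
    rw [h1]
  · intro t ht s
    have := hpsi t ht s
    simp only [this]

end Pool.Agent.Helper383.WaveExist
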