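import Mathlib
import Pool.Agent.Helper383.WaveSup

set_option autoImplicit false

open Set Filter Topology MeasureTheory intervalIntegral

namespace Pool.Agent.Helper383.WaveRay

open Pool.Agent.Helper383.WavePhi Pool.Agent.Helper383.WaveFlow Pool.Agent.Helper383.WaveSup

variable {al k l : ℝ} {P : ℝ → ℝ → ℝ}

/-! ### integral tools -/

theorem ci {f : ℝ → ℝ} (hf : Continuous f) (a b : ℝ) : IntervalIntegrable f volume a b :=
  hf.intervalIntegrable a b

theorem cs_l (hl : 0 < l) {f : ℝ → ℝ} (hf : Continuous f) :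
    (∫ s in (0:ℝ)..l, f s) ^ 2 ≤ l * ∫ s in (0:ℝ)..l, (f s) ^ 2 := by
  set m := (∫ s in (0:ℝ)..l, f s) with hm
  have h1 : 0 ≤ ∫ s in (0:ℝ)..l, (f s - m / l) ^ 2 :=
    intervalIntegral.integral_nonneg hl.le (fun s _ => sq_nonneg _)
  have h2 : ∫ s in (0:ℝ)..l, (f s - m / l) ^ 2 =
      (∫ s in (0:ℝ)..l, (f s) ^ 2) - (2 * (m / l)) * m + (m / l) ^ 2 * l := by
    have : ∀ s, (f s - m / l) ^ 2 = (f s) ^ 2 - (2 * (m / l)) * f s + (m / l) ^ 2 := by
      intro s; ring
    simp only [this]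
    rw [intervalIntegral.integral_add (ci (by fun_prop) _ _) (ci (by fun_prop) _ _),
      intervalIntegral.integral_sub (ci (by fun_prop) _ _) (ci (by fun_prop) _ _),
      intervalIntegral.integral_const_mul, intervalIntegral.integral_const]
    simp [hm]; ring
  rw [h2] at h1
  have h3 : (2 * (m / l)) * m - (m / l) ^ 2 * l = m ^ 2 / l := by field_simp; ring
  have h4 : m ^ 2 / l ≤ ∫ s in (0:ℝ)..l, (f s) ^ 2 := by linarith
  rw [div_le_iff₀ hl] at h4
  linarith

theorem cs_gen (hl : 0 < l) {f g : ℝ → ℝ} (hf : Continuous f) (hg : Continuous g) :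
    (∫ s in (0:ℝ)..l, f s * g s) ^ 2 ≤ (∫ s in (0:ℝ)..l, (f s) ^ 2) * ∫ s in (0:ℝ)..l, (g s) ^ 2 := by
  set a := (∫ s in (0:ℝ)..l, (f s) ^ 2) with ha
  set b := (∫ s in (0:ℝ)..l, f s * g s) with hb
  set c := (∫ s in (0:ℝ)..l, (g s) ^ 2) with hc
  have h1 : ∀ x : ℝ, 0 ≤ a * (x * x) + (2 * b) * x + c := by
    intro x
    have h2 : ∫ s in (0:ℝ)..l, (x * f s + g s) ^ 2 = a * (x * x) + (2 * b) * x + c := by
      have : ∀ s, (x * f s + g s) ^ 2 = (x * x) * (f s) ^ 2 + (2 * x) * (f s * g s) + (g s) ^ 2 := by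
        intro s; ring
      simp only [this]
      rw [intervalIntegral.integral_add (ci (by fun_prop) _ _) (ci (by fun_prop) _ _),
        intervalIntegral.integral_add (ci (by fun_prop) _ _) (ci (by fun_prop) _ _),
        intervalIntegral.integral_const_mul, intervalIntegral.integral_const_mul]
      rw [← ha, ← hb, ← hc]; ring
    rw [← h2]
    exact intervalIntegral.integral_nonneg hl.le (fun s _ => sq_nonneg _)
  have h3 := discrim_le_zero h1
  unfold discrim at h3
  nlinarith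

theorem dbl_mono (hl : 0 ≤ l) {F G : ℝ → ℝ → ℝ} (hF : Continuous (fun q : ℝ × ℝ => F q.1 q.2))
    (hG : Continuous (fun q : ℝ × ℝ => G q.1 q.2))
    (h : ∀ t ∈ Icc (0:ℝ) l, ∀ s ∈ Icc (0:ℝ) l, F t s ≤ G t s) :
    ∫ t in (0:ℝ)..l, ∫ s in (0:ℝ)..l, F t s ≤ ∫ t in (0:ℝ)..l, ∫ s in (0:ℝ)..l, G t s := by
  apply intervalIntegral.integral_mono_on hl
  · exact ci (cont_param hF 0 l) _ _
  · exact ci (cont_param hG 0 l) _ _
  · intro t ht
    apply intervalIntegral.integral_mono_on hl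
    · exact ci (hF.comp (Continuous.prodMk continuous_const continuous_id)) _ _
    · exact ci (hG.comp (Continuous.prodMk continuous_const continuous_id)) _ _
    · intro s hs; exact h t ht s hs

theorem dbl_add {F G : ℝ → ℝ → ℝ} (hF : Continuous (fun q : ℝ × ℝ => F q.1 q.2))
    (hG : Continuous (fun q : ℝ × ℝ => G q.1 q.2)) :
    ∫ t in (0:ℝ)..l, ∫ s in (0:ℝ)..l, (F t s + G t s) =
      (∫ t in (0:ℝ)..l, ∫ s in (0:ℝ)..l, F t s) + ∫ t in (0:ℝ)..l, ∫ s in (0:ℝ)..l, G t s := by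
  rw [← intervalIntegral.integral_add (ci (cont_param hF 0 l) _ _) (ci (cont_param hG 0 l) _ _)]
  apply intervalIntegral.integral_congr
  intro t _
  exact intervalIntegral.integral_add
    (ci (hF.comp (Continuous.prodMk continuous_const continuous_id)) _ _)
    (ci (hG.comp (Continuous.prodMk continuous_const continuous_id)) _ _)

theorem dbl_const_mul (c : ℝ) (F : ℝ → ℝ → ℝ) :
    ∫ t in (0:ℝ)..l, ∫ s in (0:ℝ)..l, c * F t s =
      c * ∫ t in (0:ℝ)..l, ∫ s in (0:ℝ)..l, F t s := by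
  simp only [intervalIntegral.integral_const_mul]

/-! ### definitions -/

noncomputable def W (al l : ℝ) (f : ℝ → ℝ) : ℝ :=
  ∫ s in (0:ℝ)..l, ∫ r in (0:ℝ)..l, |f s - f r| ^ (al + 2)

noncomputable def V (al l : ℝ) (f : ℝ → ℝ) (s : ℝ) : ℝ := ∫ r in (0:ℝ)..l, phi al (f s - f r)

noncomputable def en (l : ℝ) (f : ℝ → ℝ) : ℝ := ∫ s in (0:ℝ)..l, (f s) ^ 2

noncomputable def nu (al l : ℝ) (f : ℝ → ℝ) (s : ℝ) : ℝ :=
  ∫ r in (0:ℝ)..l, |f s - f r| ^ (al + 1)

noncomputable def zz (P : ℝ → ℝ → ℝ) (t s : ℝ) : ℝ := P t s - P t (t - s)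

noncomputable def Dd (al l : ℝ) (P : ℝ → ℝ → ℝ) : ℝ :=
  ∫ t in (0:ℝ)..l, ∫ s in (0:ℝ)..l, |zz P t s| ^ (al + 2)

noncomputable def zeta (al l : ℝ) (P : ℝ → ℝ → ℝ) (s : ℝ) : ℝ :=
  ∫ t in (0:ℝ)..l, |zz P t s| ^ (al + 1)

theorem rpow_abs_cont {q : ℝ} (hq : 0 < q) {X : Type*} [TopologicalSpace X] {f : X → ℝ}
    (hf : Continuous f) : Continuous (fun x => |f x| ^ q) :=
  hf.abs.rpow_const (fun _ => Or.inr hq.le)

/-! ### facts for a fixed function -/

section fixed
variable {f : ℝ → ℝ}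

theorem sub_cont (hf : Continuous f) : Continuous (fun q : ℝ × ℝ => f q.1 - f q.2) := by fun_prop

theorem W_nonneg (hl : 0 ≤ l) : 0 ≤ W al l f :=
  intervalIntegral.integral_nonneg hl (fun s _ =>
    intervalIntegral.integral_nonneg hl (fun r _ => Real.rpow_nonneg (abs_nonneg _) _))

theorem V_cont (hal : 0 < al) (hf : Continuous f) : Continuous (V al l f) :=
  cont_param (F := fun s r => phi al (f s - f r)) ((phi_cont hal).comp (sub_cont hf)) 0 l

theorem nu_cont (hal : 0 < al) (hf : Continuous f) : Continuous (nu al l f) :=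
  cont_param (F := fun s r => |f s - f r| ^ (al + 1)) (rpow_abs_cont (by linarith) (sub_cont hf)) 0 l

theorem abs_V_le (hal : 0 < al) (hl : 0 ≤ l) (hf : Continuous f) (s : ℝ) :
    |V al l f s| ≤ nu al l f s := by
  unfold V nu
  have h1 := intervalIntegral.norm_integral_le_integral_norm (f := fun r => phi al (f s - f r))
    (μ := volume) hl
  simp only [Real.norm_eq_abs, abs_phi hal] at h1
  exact h1

/-- `∫ f V = W / 2`. -/
theorem int_f_V (hal : 0 < al) (hf : Continuous f) :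
    ∫ s in (0:ℝ)..l, f s * V al l f s = W al l f / 2 := by
  have hc := phi_cont hal
  have h1 : ∫ s in (0:ℝ)..l, f s * V al l f s =
      ∫ s in (0:ℝ)..l, ∫ r in (0:ℝ)..l, f s * phi al (f s - f r) := by
    apply intervalIntegral.integral_congr; intro s _
    simp only [V, intervalIntegral.integral_const_mul]
  have hF : Continuous (fun q : ℝ × ℝ => f q.1 * phi al (f q.1 - f q.2)) := by fun_prop
  have hG : Continuous (fun q : ℝ × ℝ => f q.2 * phi al (f q.2 - f q.1)) := by fun_prop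
  have h2 : ∫ s in (0:ℝ)..l, ∫ r in (0:ℝ)..l, f s * phi al (f s - f r) =
      ∫ s in (0:ℝ)..l, ∫ r in (0:ℝ)..l, f r * phi al (f r - f s) := by
    rw [swap_cont (F := fun s r => f s * phi al (f s - f r)) hF]
  have h3 : W al l f = (∫ s in (0:ℝ)..l, ∫ r in (0:ℝ)..l, f s * phi al (f s - f r)) +
      ∫ s in (0:ℝ)..l, ∫ r in (0:ℝ)..l, f r * phi al (f r - f s) := by
    rw [← dbl_add (F := fun s r => f s * phi al (f s - f r))
      (G := fun s r => f r * phi al (f r - f s)) hF hG]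
    unfold W
    apply intervalIntegral.integral_congr; intro s _
    apply intervalIntegral.integral_congr; intro r _
    simp only
    rw [← mul_phi hal, show f r - f s = -(f s - f r) by ring, phi_neg]; ring
  rw [h1]; linarith

/-- for any continuous `d`, `∫∫ phi (f s - f r) (d s - d r) = 2 ∫ V d`. -/
theorem int_phi_diff (hal : 0 < al) (hf : Continuous f) {d : ℝ → ℝ} (hd : Continuous d) :
    ∫ s in (0:ℝ)..l, ∫ r in (0:ℝ)..l, phi al (f s - f r) * (d s - d r) =
      2 * ∫ s in (0:ℝ)..l, V al l f s * d s := by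
  have hc := phi_cont hal
  have h1 : ∫ s in (0:ℝ)..l, V al l f s * d s =
      ∫ s in (0:ℝ)..l, ∫ r in (0:ℝ)..l, phi al (f s - f r) * d s := by
    apply intervalIntegral.integral_congr; intro s _
    simp only [V, intervalIntegral.integral_mul_const]
  have hF : Continuous (fun q : ℝ × ℝ => phi al (f q.1 - f q.2) * d q.1) := by fun_prop
  have hG : Continuous (fun q : ℝ × ℝ => phi al (f q.2 - f q.1) * d q.2) := by fun_prop
  have h2 : ∫ s in (0:ℝ)..l, ∫ r in (0:ℝ)..l, phi al (f s - f r) * d s =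
      ∫ s in (0:ℝ)..l, ∫ r in (0:ℝ)..l, phi al (f r - f s) * d r := by
    rw [swap_cont (F := fun s r => phi al (f s - f r) * d s) hF]
  have h3 : ∫ s in (0:ℝ)..l, ∫ r in (0:ℝ)..l, phi al (f s - f r) * (d s - d r) =
      (∫ s in (0:ℝ)..l, ∫ r in (0:ℝ)..l, phi al (f s - f r) * d s) +
      ∫ s in (0:ℝ)..l, ∫ r in (0:ℝ)..l, phi al (f r - f s) * d r := by
    rw [← dbl_add (F := fun s r => phi al (f s - f r) * d s)
      (G := fun s r => phi al (f r - f s) * d r) hF hG]
    apply intervalIntegral.integral_congr; intro s _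
    apply intervalIntegral.integral_congr; intro r _
    simp only
    rw [show f r - f s = -(f s - f r) by ring, phi_neg]; ring
  rw [h1]; linarith

/-- `∫ nu^2 ≤ l R W`. -/
theorem int_nu_sq (hal : 0 < al) (hl : 0 < l) (hf : Continuous f) {M : ℝ} (hM : ∀ s, |f s| ≤ M) :
    ∫ s in (0:ℝ)..l, (nu al l f s) ^ 2 ≤ l * ((2 * M) ^ al * W al l f) := by
  have hq1 : (0:ℝ) < al + 1 := by linarith
  have hq2 : (0:ℝ) < al + 2 := by linarith
  have h1 : ∀ s, (nu al l f s) ^ 2 ≤ l * ((2 * M) ^ al * ∫ r in (0:ℝ)..l, |f s - f r| ^ (al + 2)) := by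
    intro s
    have hc1 : Continuous (fun r => |f s - f r| ^ (al + 1)) := rpow_abs_cont hq1 (by fun_prop)
    have hc2 : Continuous (fun r => |f s - f r| ^ (al + 2)) := rpow_abs_cont hq2 (by fun_prop)
    refine (cs_l hl hc1).trans ?_
    apply mul_le_mul_of_nonneg_left _ hl.le
    rw [← intervalIntegral.integral_const_mul]
    apply intervalIntegral.integral_mono_on hl.le (ci (by fun_prop) _ _) (ci (by fun_prop) _ _)
    intro r _
    have hb : |f s - f r| ≤ 2 * M := by
      have := abs_sub (f s) (f r); have := hM s; have := hM r; linarith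
    have h2 : (|f s - f r| ^ (al + 1)) ^ 2 = |f s - f r| ^ al * |f s - f r| ^ (al + 2) := by
      rw [← Real.rpow_natCast, ← Real.rpow_mul (abs_nonneg _),
        ← Real.rpow_add_of_nonneg (abs_nonneg _) hal.le hq2.le]
      congr 1; push_cast; ring
    rw [h2]
    exact mul_le_mul_of_nonneg_right (Real.rpow_le_rpow (abs_nonneg _) hb hal.le)
      (Real.rpow_nonneg (abs_nonneg _) _)
  have hcn := nu_cont (l := l) hal hf
  have hcW : Continuous (fun s => ∫ r in (0:ℝ)..l, |f s - f r| ^ (al + 2)) :=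
    cont_param (F := fun s r => |f s - f r| ^ (al + 2)) (rpow_abs_cont hq2 (sub_cont hf)) 0 l
  calc ∫ s in (0:ℝ)..l, (nu al l f s) ^ 2
      ≤ ∫ s in (0:ℝ)..l, l * ((2 * M) ^ al * ∫ r in (0:ℝ)..l, |f s - f r| ^ (al + 2)) :=
        intervalIntegral.integral_mono_on hl.le (ci (by fun_prop) _ _) (ci (by fun_prop) _ _)
          (fun s _ => h1 s)
    _ = l * ((2 * M) ^ al * W al l f) := by
        rw [intervalIntegral.integral_const_mul, intervalIntegral.integral_const_mul]; rfl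

theorem W_le_en (hal : 0 < al) (hl : 0 < l) (hf : Continuous f) {M : ℝ} (hM : ∀ s, |f s| ≤ M) :
    W al l f ≤ (2 * M) ^ al * (4 * l * en l f) := by
  have hq2 : (0:ℝ) < al + 2 := by linarith
  have h1 : W al l f ≤ ∫ s in (0:ℝ)..l, ∫ r in (0:ℝ)..l, ((2 * M) ^ al * (2 * (f s) ^ 2) +
      (2 * M) ^ al * (2 * (f r) ^ 2)) := by
    apply dbl_mono hl.le (rpow_abs_cont hq2 (sub_cont hf)) (by fun_prop)
    intro s _ r _
    have hb : |f s - f r| ≤ 2 * M := by
      have := abs_sub (f s) (f r); have := hM s; have := hM r; linarith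
    have h2 : |f s - f r| ^ (al + 2) = |f s - f r| ^ al * (f s - f r) ^ 2 := by
      rw [Real.rpow_add_of_nonneg (abs_nonneg _) hal.le zero_le_two]
      congr 1
      rw [show (2:ℝ) = ((2:ℕ):ℝ) by norm_num, Real.rpow_natCast, sq_abs]
    rw [h2]
    have h3 := mul_le_mul_of_nonneg_right (Real.rpow_le_rpow (abs_nonneg _) hb hal.le)
      (sq_nonneg (f s - f r))
    have h4 : (f s - f r) ^ 2 ≤ 2 * (f s) ^ 2 + 2 * (f r) ^ 2 := by nlinarith [sq_nonneg (f s + f r)]
    have hM0 : 0 ≤ M := (abs_nonneg _).trans (hM 0)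
    have h5 := mul_le_mul_of_nonneg_left h4 (Real.rpow_nonneg (by linarith : 0 ≤ 2 * M) al)
    linarith
  refine h1.trans (le_of_eq ?_)
  have h6 : ∀ s, ∫ r in (0:ℝ)..l, ((2 * M) ^ al * (2 * (f s) ^ 2) + (2 * M) ^ al * (2 * (f r) ^ 2)) =
      l * ((2 * M) ^ al * (2 * (f s) ^ 2)) + (2 * M) ^ al * (2 * en l f) := by
    intro s
    rw [intervalIntegral.integral_add (ci (by fun_prop) _ _) (ci (by fun_prop) _ _),
      intervalIntegral.integral_const, intervalIntegral.integral_const_mul,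
      intervalIntegral.integral_const_mul]
    simp [en]
  simp only [h6]
  rw [intervalIntegral.integral_add (ci (by fun_prop) _ _) (ci (by fun_prop) _ _),
    intervalIntegral.integral_const_mul, intervalIntegral.integral_const_mul,
    intervalIntegral.integral_const_mul, intervalIntegral.integral_const]
  simp only [en, smul_eq_mul, sub_zero]; ring

end fixed

end Pool.Agent.Helper383.WaveRay
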