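import Mathlib
import Pool.Agent.Helper383.WaveRay

set_option autoImplicit false

open Set Filter Topology MeasureTheory intervalIntegral

namespace Pool.Agent.Helper383.WaveRay

open Pool.Agent.Helper383.WavePhi Pool.Agent.Helper383.WaveFlow Pool.Agent.Helper383.WaveSup

variable {al k l : ℝ} {P : ℝ → ℝ → ℝ}

/-- for fixed `s`, integrate over times or over partners. -/
theorem int_partner (G : ℝ → ℝ) {f : ℝ → ℝ} (hper : ∀ s, f (s + l) = f s) (s : ℝ) :
    ∫ t in (0:ℝ)..l, G (f (t - s)) = ∫ r in (0:ℝ)..l, G (f r) := by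
  rw [intervalIntegral.integral_comp_sub_right (fun x => G (f x)) s]
  have := int_shift (l := l) (f := fun x => G (f x)) (fun x => by simp only [hper x]) (0 - s)
  rw [show 0 - s + l = l - s by ring] at this
  exact this

theorem zz_cont (hP : Flow (fun z => k * phi al z) l P) :
    Continuous (fun q : ℝ × ℝ => zz P q.1 q.2) := hP.cont_z

theorem zz_cont_t (hP : Flow (fun z => k * phi al z) l P) (s : ℝ) :
    Continuous (fun t => zz P t s) :=
  (zz_cont hP).comp (Continuous.prodMk continuous_id continuous_const)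

theorem zz_cont_s (hP : Flow (fun z => k * phi al z) l P) (t : ℝ) :
    Continuous (fun s => zz P t s) :=
  (zz_cont hP).comp (Continuous.prodMk continuous_const continuous_id)

theorem zz_refl (P : ℝ → ℝ → ℝ) (t s : ℝ) : zz P t (t - s) = - zz P t s := by
  unfold zz; rw [sub_sub_cancel]; ring

theorem zz_per (hP : Flow (fun z => k * phi al z) l P) (t s : ℝ) : zz P t (s + l) = zz P t s := by
  unfold zz; rw [hP.per, per_sub (hP.per t)]

theorem zeta_cont (hal : 0 < al) (hP : Flow (fun z => k * phi al z) l P) :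
    Continuous (zeta al l P) := by
  have h : Continuous (fun q : ℝ × ℝ => |zz P q.2 q.1| ^ (al + 1)) :=
    rpow_abs_cont (by linarith) ((zz_cont hP).comp continuous_swap)
  exact cont_param (F := fun s t => |zz P t s| ^ (al + 1)) h 0 l

theorem zeta_nonneg (hl : 0 ≤ l) (s : ℝ) : 0 ≤ zeta al l P s :=
  intervalIntegral.integral_nonneg hl (fun _ _ => Real.rpow_nonneg (abs_nonneg _) _)

theorem zeta_per (hP : Flow (fun z => k * phi al z) l P) (s : ℝ) :
    zeta al l P (s + l) = zeta al l P s := by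
  unfold zeta; simp only [zz_per hP]

/-- pointwise distance to the initial value. -/
theorem dist_init (hal : 0 < al) (hk : 0 < k) (hl : 0 < l) (hP : Flow (fun z => k * phi al z) l P)
    {t : ℝ} (ht : t ∈ Icc (0:ℝ) l) (s : ℝ) : |P 0 s - P t s| ≤ k * zeta al l P s := by
  have hcz := zz_cont_t hP s
  have hc := phi_cont hal
  have h1 : ∫ τ in (0:ℝ)..t, -(k * phi al (zz P τ s)) = P t s - P 0 s :=
    intervalIntegral.integral_eq_sub_of_hasDerivAt_of_le ht.1 ((hP.cont_t s).continuousOn)
      (fun τ hτ => hP.ode τ hτ.1 s) (ci (by fun_prop) _ _)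
  have h2 : |P 0 s - P t s| = |∫ τ in (0:ℝ)..t, -(k * phi al (zz P τ s))| := by
    rw [h1, abs_sub_comm]
  rw [h2]
  have h3 := intervalIntegral.norm_integral_le_integral_norm
    (f := fun τ => -(k * phi al (zz P τ s))) (μ := volume) ht.1
  simp only [Real.norm_eq_abs, abs_neg, abs_mul, abs_phi hal, abs_of_pos hk] at h3
  refine h3.trans ?_
  rw [intervalIntegral.integral_const_mul]
  apply mul_le_mul_of_nonneg_left _ hk.le
  unfold zeta
  have hcr : Continuous (fun τ => |zz P τ s| ^ (al + 1)) := rpow_abs_cont (by linarith) hcz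
  exact intervalIntegral.integral_mono_interval (μ := volume) le_rfl ht.1 ht.2
    (Filter.Eventually.of_forall fun τ => Real.rpow_nonneg (abs_nonneg _) _) (ci hcr _ _)

/-- the total change over one period. -/
theorem total_change (hal : 0 < al) (hl : 0 < l) (hP : Flow (fun z => k * phi al z) l P)
    (s : ℝ) : P 0 s - P l s = k * ∫ t in (0:ℝ)..l, phi al (zz P t s) := by
  have hcz := zz_cont_t hP s
  have hc := phi_cont hal
  have h1 : ∫ τ in (0:ℝ)..l, -(k * phi al (zz P τ s)) = P l s - P 0 s :=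
    intervalIntegral.integral_eq_sub_of_hasDerivAt_of_le hl.le ((hP.cont_t s).continuousOn)
      (fun τ hτ => hP.ode τ hτ.1 s) (ci (by fun_prop) _ _)
  rw [intervalIntegral.integral_neg, intervalIntegral.integral_const_mul] at h1
  linarith

/-- energy identity over one period. -/
theorem energy_id (hal : 0 < al) (hk : 0 < k) (hP : Flow (fun z => k * phi al z) l P)
    {a b : ℝ} (ha : 0 ≤ a) (hab : a ≤ b) :
    en l (P a) - en l (P b) = k * ∫ t in a..b, ∫ s in (0:ℝ)..l, |zz P t s| ^ (al + 2) := by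
  have hb := nice_kphi (al := al) (k := k) hal hk
  have h := hP.int_identity hb (j := fun x => x ^ 2) (j' := fun x => 2 * x)
    (fun x => by simpa using hasDerivAt_pow 2 x) (by fun_prop) ha hab
  have h2 : ∀ t, ∫ s in (0:ℝ)..l, (2 * P t s) * (-(k * phi al (P t s - P t (t - s)))) =
      - (k * ∫ s in (0:ℝ)..l, |zz P t s| ^ (al + 2)) := by
    intro t
    have e1 : ∫ s in (0:ℝ)..l, (2 * P t s) * (-(k * phi al (P t s - P t (t - s)))) =
        - ∫ s in (0:ℝ)..l, (fun x => 2 * x) (P t s) * (fun z => k * phi al z) (P t s - P t (t - s)) := by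
      rw [← intervalIntegral.integral_neg]; apply intervalIntegral.integral_congr; intro s _; simp
    rw [e1, symm_int hb (hP.cont_s t) (by fun_prop) (hP.per t) t, ← intervalIntegral.integral_const_mul,
      ← intervalIntegral.integral_const_mul]
    congr 1
    apply intervalIntegral.integral_congr; intro s _
    simp only [zz]
    rw [← mul_phi hal]; ring
  simp only [h2] at h
  rw [intervalIntegral.integral_neg, intervalIntegral.integral_const_mul] at h
  unfold en
  linarith

/-- `∫ zeta^2 ≤ l R D`. -/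
theorem int_zeta_sq (hal : 0 < al) (hl : 0 < l) (hP : Flow (fun z => k * phi al z) l P)
    {M : ℝ} (hM : ∀ t, 0 ≤ t → ∀ s, |P t s| ≤ M) :
    ∫ s in (0:ℝ)..l, (zeta al l P s) ^ 2 ≤ l * ((2 * M) ^ al * Dd al l P) := by
  have hq1 : (0:ℝ) < al + 1 := by linarith
  have hq2 : (0:ℝ) < al + 2 := by linarith
  have h1 : ∀ s, (zeta al l P s) ^ 2 ≤ l * ((2 * M) ^ al * ∫ t in (0:ℝ)..l, |zz P t s| ^ (al + 2)) := by
    intro s
    have hcz := zz_cont_t hP s
    have hc1 : Continuous (fun r => |zz P r s| ^ (al + 1)) := rpow_abs_cont hq1 hcz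
    have hc2 : Continuous (fun r => |zz P r s| ^ (al + 2)) := rpow_abs_cont hq2 hcz
    refine (cs_l hl hc1).trans ?_
    apply mul_le_mul_of_nonneg_left _ hl.le
    rw [← intervalIntegral.integral_const_mul]
    apply intervalIntegral.integral_mono_on hl.le (ci (by fun_prop) _ _) (ci (by fun_prop) _ _)
    intro r hr
    have hb : |zz P r s| ≤ 2 * M := by
      unfold zz
      have := abs_sub (P r s) (P r (r - s)); have := hM r hr.1 s; have := hM r hr.1 (r - s); linarith
    have h2 : (|zz P r s| ^ (al + 1)) ^ 2 = |zz P r s| ^ al * |zz P r s| ^ (al + 2) := by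
      rw [← Real.rpow_natCast, ← Real.rpow_mul (abs_nonneg _),
        ← Real.rpow_add_of_nonneg (abs_nonneg _) hal.le hq2.le]
      congr 1; push_cast; ring
    rw [h2]
    exact mul_le_mul_of_nonneg_right (Real.rpow_le_rpow (abs_nonneg _) hb hal.le)
      (Real.rpow_nonneg (abs_nonneg _) _)
  have hcn := zeta_cont hal hP
  have hF : Continuous (fun q : ℝ × ℝ => |zz P q.2 q.1| ^ (al + 2)) :=
    rpow_abs_cont hq2 ((zz_cont hP).comp continuous_swap)
  have hcW : Continuous (fun s => ∫ t in (0:ℝ)..l, |zz P t s| ^ (al + 2)) :=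
    cont_param (F := fun s t => |zz P t s| ^ (al + 2)) hF 0 l
  calc ∫ s in (0:ℝ)..l, (zeta al l P s) ^ 2
      ≤ ∫ s in (0:ℝ)..l, l * ((2 * M) ^ al * ∫ t in (0:ℝ)..l, |zz P t s| ^ (al + 2)) :=
        intervalIntegral.integral_mono_on hl.le (ci (by fun_prop) _ _) (ci (by fun_prop) _ _)
          (fun s _ => h1 s)
    _ = l * ((2 * M) ^ al * Dd al l P) := by
        rw [intervalIntegral.integral_const_mul, intervalIntegral.integral_const_mul]
        rw [swap_cont (F := fun s t => |zz P t s| ^ (al + 2)) hF]; rfl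

theorem Dd_nonneg (hl : 0 ≤ l) : 0 ≤ Dd al l P :=
  intervalIntegral.integral_nonneg hl (fun s _ =>
    intervalIntegral.integral_nonneg hl (fun r _ => Real.rpow_nonneg (abs_nonneg _) _))

/-- comparison of the true dissipation with the frozen one. -/
theorem D_le_W (hal : 0 < al) (hk : 0 < k) (hl : 0 < l) (hP : Flow (fun z => k * phi al z) l P)
    {M : ℝ} (hM : ∀ t, 0 ≤ t → ∀ s, |P t s| ≤ M) :
    Dd al l P ≤ W al l (P 0) + 2 * (al + 2) * k * (l * ((2 * M) ^ al * Dd al l P)) := by
  have hq1 : (0:ℝ) < al + 1 := by linarith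
  have hq2 : (0:ℝ) < al + 2 := by linarith
  have hcP := hP.cont_s 0
  have hcz := zz_cont hP
  have hze := zeta_cont hal hP
  have hzz1 : Continuous (fun q : ℝ × ℝ => |zz P q.1 q.2| ^ (al + 1)) := rpow_abs_cont hq1 hcz
  have hA : Continuous (fun q : ℝ × ℝ => |P 0 q.2 - P 0 (q.1 - q.2)| ^ (al + 2)) :=
    rpow_abs_cont hq2 (by fun_prop)
  have hB : Continuous (fun q : ℝ × ℝ => (al + 2) * k * (|zz P q.1 q.2| ^ (al + 1) * zeta al l P q.2)) := by
    fun_prop
  have hC : Continuous (fun q : ℝ × ℝ => (al + 2) * k * (|zz P q.1 q.2| ^ (al + 1) * zeta al l P (q.1 - q.2))) := by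
    fun_prop
  have h1 : Dd al l P ≤ ∫ t in (0:ℝ)..l, ∫ s in (0:ℝ)..l,
      ((|P 0 s - P 0 (t - s)| ^ (al + 2) + (al + 2) * k * (|zz P t s| ^ (al + 1) * zeta al l P s)) +
        (al + 2) * k * (|zz P t s| ^ (al + 1) * zeta al l P (t - s))) := by
    apply dbl_mono hl.le (rpow_abs_cont hq2 hcz) ((hA.add hB).add hC)
    intro t ht s _
    have e1 := pow_tangent hal (P 0 s - P 0 (t - s)) (zz P t s)
    have e2 : -(phi al (zz P t s) * (P 0 s - P 0 (t - s) - zz P t s)) ≤
        |zz P t s| ^ (al + 1) * (k * zeta al l P s + k * zeta al l P (t - s)) := by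
      calc -(phi al (zz P t s) * (P 0 s - P 0 (t - s) - zz P t s))
          ≤ |phi al (zz P t s) * (P 0 s - P 0 (t - s) - zz P t s)| := neg_le_abs _
        _ = |zz P t s| ^ (al + 1) * |P 0 s - P 0 (t - s) - zz P t s| := by rw [abs_mul, abs_phi hal]
        _ ≤ |zz P t s| ^ (al + 1) * (k * zeta al l P s + k * zeta al l P (t - s)) := by
            apply mul_le_mul_of_nonneg_left _ (Real.rpow_nonneg (abs_nonneg _) _)
            have e3 := dist_init hal hk hl hP ht s
            have e4 := dist_init hal hk hl hP ht (t - s)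
            have e5 : P 0 s - P 0 (t - s) - zz P t s = (P 0 s - P t s) - (P 0 (t - s) - P t (t - s)) := by
              unfold zz; ring
            rw [e5]
            have := abs_sub (P 0 s - P t s) (P 0 (t - s) - P t (t - s))
            linarith
    have e6 := mul_le_mul_of_nonneg_left e2 hq2.le
    nlinarith
  rw [dbl_add (F := fun t s => |P 0 s - P 0 (t - s)| ^ (al + 2) + (al + 2) * k * (|zz P t s| ^ (al + 1) * zeta al l P s))
    (G := fun t s => (al + 2) * k * (|zz P t s| ^ (al + 1) * zeta al l P (t - s))) (hA.add hB) hC,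
    dbl_add (F := fun t s => |P 0 s - P 0 (t - s)| ^ (al + 2))
    (G := fun t s => (al + 2) * k * (|zz P t s| ^ (al + 1) * zeta al l P s)) hA hB,
    dbl_const_mul, dbl_const_mul] at h1
  have h2 : ∫ t in (0:ℝ)..l, ∫ s in (0:ℝ)..l, |P 0 s - P 0 (t - s)| ^ (al + 2) = W al l (P 0) := by
    rw [swap_cont (F := fun t s => |P 0 s - P 0 (t - s)| ^ (al + 2)) hA]
    unfold W
    apply intervalIntegral.integral_congr; intro s _
    exact int_partner (fun y => |P 0 s - y| ^ (al + 2)) (hP.per 0) s
  have h3 : ∫ t in (0:ℝ)..l, ∫ s in (0:ℝ)..l, |zz P t s| ^ (al + 1) * zeta al l P s =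
      ∫ s in (0:ℝ)..l, (zeta al l P s) ^ 2 := by
    rw [swap_cont (F := fun t s => |zz P t s| ^ (al + 1) * zeta al l P s) (by fun_prop)]
    apply intervalIntegral.integral_congr; intro s _
    simp only [intervalIntegral.integral_mul_const]
    rw [sq]; rfl
  have h4 : ∫ t in (0:ℝ)..l, ∫ s in (0:ℝ)..l, |zz P t s| ^ (al + 1) * zeta al l P (t - s) =
      ∫ s in (0:ℝ)..l, (zeta al l P s) ^ 2 := by
    rw [← h3]
    apply intervalIntegral.integral_congr; intro t _
    have := int_reflect (l := l) (f := fun s => |zz P t s| ^ (al + 1) * zeta al l P s) (fun s => by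
      simp only [zz_per hP, zeta_per hP]) t
    simp only [zz_refl, abs_neg] at this
    exact this
  rw [h2, h3, h4] at h1
  have h5 := int_zeta_sq hal hl hP hM
  have h6 := mul_le_mul_of_nonneg_left h5 (by positivity : 0 ≤ 2 * (al + 2) * k)
  linarith

end Pool.Agent.Helper383.WaveRay
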