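import Mathlib
import Pool.Agent.Helper383.WaveRay2

set_option autoImplicit false

open Set Filter Topology MeasureTheory intervalIntegral

namespace Pool.Agent.Helper383.WaveRay

open Pool.Agent.Helper383.WavePhi Pool.Agent.Helper383.WaveFlow Pool.Agent.Helper383.WaveSup

variable {al k l : ℝ} {P : ℝ → ℝ → ℝ}

theorem prod_half (hl : 0 < l) {f g : ℝ → ℝ} (hf : Continuous f) (hg : Continuous g) :
    (∫ s in (0:ℝ)..l, f s) * (∫ s in (0:ℝ)..l, g s) ≤
      (l / 2) * ((∫ s in (0:ℝ)..l, (f s) ^ 2) + ∫ s in (0:ℝ)..l, (g s) ^ 2) := by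
  have h1 := cs_l hl hf
  have h2 := cs_l hl hg
  nlinarith [sq_nonneg ((∫ s in (0:ℝ)..l, f s) - (∫ s in (0:ℝ)..l, g s))]

theorem int_prod_half (hl : 0 < l) {f g : ℝ → ℝ} (hf : Continuous f) (hg : Continuous g) :
    ∫ s in (0:ℝ)..l, f s * g s ≤
      (1 / 2) * ((∫ s in (0:ℝ)..l, (f s) ^ 2) + ∫ s in (0:ℝ)..l, (g s) ^ 2) := by
  rw [← intervalIntegral.integral_add (ci (by fun_prop) _ _) (ci (by fun_prop) _ _),
    ← intervalIntegral.integral_const_mul]
  apply intervalIntegral.integral_mono_on hl.le (ci (by fun_prop) _ _) (ci (by fun_prop) _ _)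
  intro s _
  nlinarith [sq_nonneg (f s - g s)]

/-- the error between the true change and the frozen one. -/
theorem err_le (hal : 0 < al) (hk : 0 < k) (hl : 0 < l) (hP : Flow (fun z => k * phi al z) l P)
    {M : ℝ} (hM : ∀ t, 0 ≤ t → ∀ s, |P t s| ≤ M) (s : ℝ) :
    |k * V al l (P 0) s - (P 0 s - P l s)| ≤
      k ^ 2 * ((al + 1) * (2 * M) ^ al) * (l * zeta al l P s + ∫ r in (0:ℝ)..l, zeta al l P r) := by
  have hc := phi_cont hal
  have hcP := hP.cont_s 0
  have hcz := zz_cont_t hP s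
  have hze := zeta_cont hal hP
  have h1 : V al l (P 0) s = ∫ t in (0:ℝ)..l, phi al (P 0 s - P 0 (t - s)) :=
    (int_partner (fun y => phi al (P 0 s - y)) (hP.per 0) s).symm
  rw [total_change hal hl hP s, h1, ← mul_sub,
    ← intervalIntegral.integral_sub (ci (by fun_prop) _ _) (ci (by fun_prop) _ _), abs_mul, abs_of_pos hk]
  have h2 : ∀ t ∈ Icc (0:ℝ) l, |phi al (P 0 s - P 0 (t - s)) - phi al (zz P t s)| ≤
      (al + 1) * (2 * M) ^ al * (k * zeta al l P s + k * zeta al l P (t - s)) := by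
    intro t ht
    have hb1 : |P 0 s - P 0 (t - s)| ≤ 2 * M := by
      have := abs_sub (P 0 s) (P 0 (t - s)); have := hM 0 le_rfl s; have := hM 0 le_rfl (t - s); linarith
    have hb2 : |zz P t s| ≤ 2 * M := by
      unfold zz
      have := abs_sub (P t s) (P t (t - s)); have := hM t ht.1 s; have := hM t ht.1 (t - s); linarith
    refine (phi_lip hal hb1 hb2).trans ?_
    have hM0 : 0 ≤ M := (abs_nonneg _).trans (hM 0 le_rfl 0)
    apply mul_le_mul_of_nonneg_left _ (by positivity)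
    have e3 := dist_init hal hk hl hP ht s
    have e4 := dist_init hal hk hl hP ht (t - s)
    have e5 : P 0 s - P 0 (t - s) - zz P t s = (P 0 s - P t s) - (P 0 (t - s) - P t (t - s)) := by
      unfold zz; ring
    rw [e5]
    have := abs_sub (P 0 s - P t s) (P 0 (t - s) - P t (t - s))
    linarith
  have h3 : |∫ t in (0:ℝ)..l, (phi al (P 0 s - P 0 (t - s)) - phi al (zz P t s))| ≤
      ∫ t in (0:ℝ)..l, (al + 1) * (2 * M) ^ al * (k * zeta al l P s + k * zeta al l P (t - s)) := by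
    have e1 := intervalIntegral.norm_integral_le_integral_norm
      (f := fun t => phi al (P 0 s - P 0 (t - s)) - phi al (zz P t s)) (μ := volume) hl.le
    simp only [Real.norm_eq_abs] at e1
    refine e1.trans ?_
    apply intervalIntegral.integral_mono_on hl.le
    · apply ci; fun_prop
    · apply ci; fun_prop
    · exact h2
  have h4 : ∫ t in (0:ℝ)..l, (al + 1) * (2 * M) ^ al * (k * zeta al l P s + k * zeta al l P (t - s)) =
      (al + 1) * (2 * M) ^ al * (k * (l * zeta al l P s + ∫ r in (0:ℝ)..l, zeta al l P r)) := by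
    rw [intervalIntegral.integral_const_mul, intervalIntegral.integral_add (ci (by fun_prop) _ _)
      (ci (by fun_prop) _ _), intervalIntegral.integral_const, intervalIntegral.integral_const_mul,
      int_partner (fun y => y) (f := zeta al l P) (zeta_per hP) s]
    simp only [smul_eq_mul, sub_zero]; ring
  rw [h4] at h3
  have h5 := mul_le_mul_of_nonneg_left h3 hk.le
  calc k * |∫ t in (0:ℝ)..l, (phi al (P 0 s - P 0 (t - s)) - phi al (zz P t s))|
      ≤ k * ((al + 1) * (2 * M) ^ al * (k * (l * zeta al l P s + ∫ r in (0:ℝ)..l, zeta al l P r))) := h5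
    _ = _ := by ring

theorem int_V_err (hal : 0 < al) (hk : 0 < k) (hl : 0 < l) (hP : Flow (fun z => k * phi al z) l P)
    {M : ℝ} (hM : ∀ t, 0 ≤ t → ∀ s, |P t s| ≤ M) :
    k * (∫ s in (0:ℝ)..l, (V al l (P 0) s) ^ 2) -
      k ^ 2 * ((al + 1) * (2 * M) ^ al) * (l * ((∫ s in (0:ℝ)..l, (nu al l (P 0) s) ^ 2) +
        ∫ s in (0:ℝ)..l, (zeta al l P s) ^ 2)) ≤
      ∫ s in (0:ℝ)..l, V al l (P 0) s * (P 0 s - P l s) := by
  have hcA := hP.cont_s 0
  have hcB := hP.cont_s l
  have hV := V_cont (l := l) hal hcA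
  have hn := nu_cont (l := l) hal hcA
  have hze := zeta_cont hal hP
  have hM0 : 0 ≤ M := (abs_nonneg _).trans (hM 0 le_rfl 0)
  set C := k ^ 2 * ((al + 1) * (2 * M) ^ al) with hC
  have hCn : 0 ≤ C := by positivity
  set Z := ∫ r in (0:ℝ)..l, zeta al l P r with hZ
  have h1 : ∀ s, k * (V al l (P 0) s) ^ 2 - C * (l * (nu al l (P 0) s * zeta al l P s) + nu al l (P 0) s * Z) ≤
      V al l (P 0) s * (P 0 s - P l s) := by
    intro s
    have e1 := err_le hal hk hl hP hM s
    have e2 := abs_V_le hal hl.le hcA s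
    have e3 : V al l (P 0) s * (k * V al l (P 0) s - (P 0 s - P l s)) ≤
        nu al l (P 0) s * (C * (l * zeta al l P s + Z)) := by
      calc V al l (P 0) s * (k * V al l (P 0) s - (P 0 s - P l s))
          ≤ |V al l (P 0) s * (k * V al l (P 0) s - (P 0 s - P l s))| := le_abs_self _
        _ = |V al l (P 0) s| * |k * V al l (P 0) s - (P 0 s - P l s)| := abs_mul _ _
        _ ≤ nu al l (P 0) s * (C * (l * zeta al l P s + Z)) :=
            mul_le_mul e2 e1 (abs_nonneg _) ((abs_nonneg _).trans e2)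
    nlinarith
  have h2 : ∫ s in (0:ℝ)..l, (k * (V al l (P 0) s) ^ 2 - C * (l * (nu al l (P 0) s * zeta al l P s) + nu al l (P 0) s * Z)) ≤
      ∫ s in (0:ℝ)..l, V al l (P 0) s * (P 0 s - P l s) :=
    intervalIntegral.integral_mono_on hl.le (ci (by fun_prop) _ _) (ci (by fun_prop) _ _) (fun s _ => h1 s)
  rw [intervalIntegral.integral_sub (ci (by fun_prop) _ _) (ci (by fun_prop) _ _),
    intervalIntegral.integral_const_mul, intervalIntegral.integral_const_mul,
    intervalIntegral.integral_add (ci (by fun_prop) _ _) (ci (by fun_prop) _ _),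
    intervalIntegral.integral_const_mul, intervalIntegral.integral_mul_const] at h2
  have h3 := prod_half hl hn hze
  have h4 := int_prod_half hl hn hze
  have h5 : l * (∫ s in (0:ℝ)..l, nu al l (P 0) s * zeta al l P s) + (∫ s in (0:ℝ)..l, nu al l (P 0) s) * Z ≤
      l * ((∫ s in (0:ℝ)..l, (nu al l (P 0) s) ^ 2) + ∫ s in (0:ℝ)..l, (zeta al l P s) ^ 2) := by
    have := mul_le_mul_of_nonneg_left h4 hl.le
    linarith
  have h6 := mul_le_mul_of_nonneg_left h5 hCn
  linarith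

theorem W_quad (hal : 0 < al) (hk : 0 < k) (hl : 0 < l) (hP : Flow (fun z => k * phi al z) l P)
    {M : ℝ} (hM : ∀ t, 0 ≤ t → ∀ s, |P t s| ≤ M) :
    W al l (P l) ≤ W al l (P 0) - 2 * (al + 2) * (∫ s in (0:ℝ)..l, V al l (P 0) s * (P 0 s - P l s)) +
      4 * l * ((al + 2) * ((al + 1) * (2 * M) ^ al)) * (k ^ 2 * ∫ s in (0:ℝ)..l, (zeta al l P s) ^ 2) := by
  have hc := phi_cont hal
  have hq2 : (0:ℝ) < al + 2 := by linarith
  have hcA := hP.cont_s 0
  have hcB := hP.cont_s l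
  have hze := zeta_cont hal hP
  have hM0 : 0 ≤ M := (abs_nonneg _).trans (hM 0 le_rfl 0)
  set R := (2 * M) ^ al with hR
  have hRn : 0 ≤ R := by positivity
  have c1 : Continuous (fun q : ℝ × ℝ => |P l q.1 - P l q.2| ^ (al + 2)) := rpow_abs_cont hq2 (sub_cont hcB)
  have c2 : Continuous (fun q : ℝ × ℝ => |P 0 q.1 - P 0 q.2| ^ (al + 2)) := rpow_abs_cont hq2 (sub_cont hcA)
  have c3 : Continuous (fun q : ℝ × ℝ => (-(al + 2)) * (phi al (P 0 q.1 - P 0 q.2) *
      ((P 0 q.1 - P l q.1) - (P 0 q.2 - P l q.2)))) := by fun_prop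
  have c4 : Continuous (fun q : ℝ × ℝ => ((al + 2) * ((al + 1) * R)) * (2 * (k ^ 2 * (zeta al l P q.1) ^ 2) +
      2 * (k ^ 2 * (zeta al l P q.2) ^ 2))) := by fun_prop
  have h1 : W al l (P l) ≤ ∫ s in (0:ℝ)..l, ∫ r in (0:ℝ)..l,
      ((|P 0 s - P 0 r| ^ (al + 2) + (-(al + 2)) * (phi al (P 0 s - P 0 r) *
      ((P 0 s - P l s) - (P 0 r - P l r)))) + ((al + 2) * ((al + 1) * R)) * (2 * (k ^ 2 * (zeta al l P s) ^ 2) +
      2 * (k ^ 2 * (zeta al l P r) ^ 2))) := by
    apply dbl_mono hl.le c1 ((c2.add c3).add c4)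
    intro s _ r _
    have hb1 : |P 0 s - P 0 r| ≤ 2 * M := by
      have := abs_sub (P 0 s) (P 0 r); have := hM 0 le_rfl s; have := hM 0 le_rfl r; linarith
    have hb2 : |P l s - P l r| ≤ 2 * M := by
      have := abs_sub (P l s) (P l r); have := hM l hl.le s; have := hM l hl.le r; linarith
    have e1 := pow_quad hal hb1 hb2
    have e2 : (P l s - P l r - (P 0 s - P 0 r)) ^ 2 ≤ 2 * (k ^ 2 * (zeta al l P s) ^ 2) +
        2 * (k ^ 2 * (zeta al l P r) ^ 2) := by
      have f1 := dist_init hal hk hl hP (right_mem_Icc.mpr hl.le) s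
      have f2 := dist_init hal hk hl hP (right_mem_Icc.mpr hl.le) r
      have g1 : (P 0 s - P l s) ^ 2 ≤ k ^ 2 * (zeta al l P s) ^ 2 := by
        rw [← mul_pow, ← sq_abs]; exact pow_le_pow_left₀ (abs_nonneg _) f1 2
      have g2 : (P 0 r - P l r) ^ 2 ≤ k ^ 2 * (zeta al l P r) ^ 2 := by
        rw [← mul_pow, ← sq_abs]; exact pow_le_pow_left₀ (abs_nonneg _) f2 2
      nlinarith [sq_nonneg ((P 0 s - P l s) + (P 0 r - P l r))]
    have e3 := mul_le_mul_of_nonneg_left e2 (by positivity : 0 ≤ (al + 2) * ((al + 1) * R))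
    have e4 : P l s - P l r - (P 0 s - P 0 r) = -((P 0 s - P l s) - (P 0 r - P l r)) := by ring
    have e5 : (al + 2) * phi al (P 0 s - P 0 r) * (P l s - P l r - (P 0 s - P 0 r)) =
        (-(al + 2)) * (phi al (P 0 s - P 0 r) * ((P 0 s - P l s) - (P 0 r - P l r))) := by
      rw [e4]; ring
    linarith
  rw [dbl_add (F := fun s r => |P 0 s - P 0 r| ^ (al + 2) + (-(al + 2)) * (phi al (P 0 s - P 0 r) *
      ((P 0 s - P l s) - (P 0 r - P l r))))
      (G := fun s r => ((al + 2) * ((al + 1) * R)) * (2 * (k ^ 2 * (zeta al l P s) ^ 2) +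
      2 * (k ^ 2 * (zeta al l P r) ^ 2))) (c2.add c3) c4,
    dbl_add (F := fun s r => |P 0 s - P 0 r| ^ (al + 2))
      (G := fun s r => (-(al + 2)) * (phi al (P 0 s - P 0 r) *
      ((P 0 s - P l s) - (P 0 r - P l r)))) c2 c3, dbl_const_mul, dbl_const_mul,
    int_phi_diff hal hcA (d := fun s => P 0 s - P l s) (hcA.sub hcB)] at h1
  have h2 : ∫ s in (0:ℝ)..l, ∫ r in (0:ℝ)..l, (2 * (k ^ 2 * (zeta al l P s) ^ 2) +
      2 * (k ^ 2 * (zeta al l P r) ^ 2)) = 4 * l * (k ^ 2 * ∫ s in (0:ℝ)..l, (zeta al l P s) ^ 2) := by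
    have : ∀ s, ∫ r in (0:ℝ)..l, (2 * (k ^ 2 * (zeta al l P s) ^ 2) + 2 * (k ^ 2 * (zeta al l P r) ^ 2)) =
        l * (2 * (k ^ 2 * (zeta al l P s) ^ 2)) + 2 * (k ^ 2 * ∫ s in (0:ℝ)..l, (zeta al l P s) ^ 2) := by
      intro s
      rw [intervalIntegral.integral_add (ci (by fun_prop) _ _) (ci (by fun_prop) _ _),
        intervalIntegral.integral_const, intervalIntegral.integral_const_mul, intervalIntegral.integral_const_mul]
      simp
    simp only [this]
    rw [intervalIntegral.integral_add (ci (by fun_prop) _ _) (ci (by fun_prop) _ _),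
      intervalIntegral.integral_const, intervalIntegral.integral_const_mul, intervalIntegral.integral_const_mul,
      intervalIntegral.integral_const_mul]
    simp only [smul_eq_mul, sub_zero]; ring
  rw [h2] at h1
  unfold W at h1 ⊢
  linarith

/-- the main one-period estimate. -/
theorem W_step (hal : 0 < al) (hk : 0 < k) (hl : 0 < l) (hP : Flow (fun z => k * phi al z) l P)
    {M : ℝ} (hM : ∀ t, 0 ≤ t → ∀ s, |P t s| ≤ M)
    (hD : Dd al l P ≤ 2 * W al l (P 0)) :
    W al l (P l) ≤ W al l (P 0) - 2 * (al + 2) * (k * (∫ s in (0:ℝ)..l, (V al l (P 0) s) ^ 2)) +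
      14 * ((al + 2) * (al + 1)) * (k ^ 2 * l ^ 2) * ((2 * M) ^ al) ^ 2 * W al l (P 0) := by
  have h1 := W_quad hal hk hl hP hM
  have h2 := int_V_err hal hk hl hP hM
  have h3 := int_nu_sq hal hl (hP.cont_s 0) (fun s => hM 0 le_rfl s)
  have h4 := int_zeta_sq hal hl hP hM
  have hM0 : 0 ≤ M := (abs_nonneg _).trans (hM 0 le_rfl 0)
  set R := (2 * M) ^ al with hR
  have hRn : 0 ≤ R := by positivity
  set w := W al l (P 0) with hw
  have hwn : 0 ≤ w := W_nonneg hl.le
  set v2 := ∫ s in (0:ℝ)..l, (V al l (P 0) s) ^ 2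
  set vd := ∫ s in (0:ℝ)..l, V al l (P 0) s * (P 0 s - P l s)
  set n2 := ∫ s in (0:ℝ)..l, (nu al l (P 0) s) ^ 2
  set z2 := ∫ s in (0:ℝ)..l, (zeta al l P s) ^ 2
  have h5 : z2 ≤ 2 * (l * (R * w)) := by
    have : l * (R * Dd al l P) ≤ l * (R * (2 * w)) := by
      apply mul_le_mul_of_nonneg_left _ hl.le
      exact mul_le_mul_of_nonneg_left hD hRn
    linarith
  have h6 : k ^ 2 * ((al + 1) * R) * (l * (n2 + z2)) ≤ k ^ 2 * ((al + 1) * R) * (l * (3 * (l * (R * w)))) := by
    apply mul_le_mul_of_nonneg_left _ (by positivity)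
    apply mul_le_mul_of_nonneg_left _ hl.le
    linarith
  have h7 : 4 * l * ((al + 2) * ((al + 1) * R)) * (k ^ 2 * z2) ≤
      4 * l * ((al + 2) * ((al + 1) * R)) * (k ^ 2 * (2 * (l * (R * w)))) := by
    apply mul_le_mul_of_nonneg_left _ (by positivity)
    apply mul_le_mul_of_nonneg_left h5 (by positivity)
  have h8 : 2 * (al + 2) * (k * v2 - k ^ 2 * ((al + 1) * R) * (l * (3 * (l * (R * w))))) ≤ 2 * (al + 2) * vd := by
    apply mul_le_mul_of_nonneg_left _ (by positivity)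
    linarith
  nlinarith

end Pool.Agent.Helper383.WaveRay
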