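import Mathlib
import Pool.Agent.Helper383.WaveRay3

set_option autoImplicit false

open Set Filter Topology MeasureTheory intervalIntegral

namespace Pool.Agent.Helper383.WaveSeq

open Pool.Agent.Helper383.WavePhi Pool.Agent.Helper383.WaveFlow Pool.Agent.Helper383.WaveSup
open Pool.Agent.Helper383.WaveRay

variable {al k l : ℝ} {P : ℝ → ℝ → ℝ}

theorem num_a {al u x : ℝ} (hal : 0 < al) (hun : 0 ≤ u) (hx4 : x ≤ 4 * u)
    (hpu : (al + 2) * u ≤ 1 / 8) :
    (1 + al / 2) * (x + 16 * (al + 2) * u ^ 2) ≤ 1 / 2 := by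
  have hpun : 0 ≤ (al + 2) * u := by positivity
  have e1 : (1 + al / 2) * (x + 16 * (al + 2) * u ^ 2) ≤
      (1 + al / 2) * (4 * u + 16 * (al + 2) * u ^ 2) := by
    apply mul_le_mul_of_nonneg_left _ (by positivity); linarith
  have e2 : (1 + al / 2) * (4 * u + 16 * (al + 2) * u ^ 2) =
      2 * ((al + 2) * u) + 8 * ((al + 2) * u) ^ 2 := by ring
  rw [e2] at e1
  have e3 : ((al + 2) * u) ^ 2 ≤ (1 / 8) * ((al + 2) * u) := by
    rw [sq]; exact mul_le_mul_of_nonneg_right hpu hpun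
  linarith

theorem num_b {al k u x eA wA D : ℝ} (hal : 0 < al) (hk : 0 < k) (hun : 0 ≤ u)
    (heA : 0 < eA) (hx : k * wA = x * eA) (hx4 : x ≤ 4 * u) (h4 : D ≤ 2 * wA)
    (h5 : k * D ≤ k * wA + 2 * (al + 2) * u * (k * D)) :
    k * D ≤ eA * (x + 16 * (al + 2) * u ^ 2) := by
  have e2 : k * D ≤ 2 * (k * wA) := by
    have := mul_le_mul_of_nonneg_left h4 hk.le
    linarith
  have e3 : 2 * (al + 2) * u * (k * D) ≤ 2 * (al + 2) * u * (2 * (k * wA)) :=
    mul_le_mul_of_nonneg_left e2 (by positivity)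
  have e5 : 2 * (al + 2) * u * (2 * (x * eA)) ≤ 2 * (al + 2) * u * (2 * (4 * u * eA)) := by
    apply mul_le_mul_of_nonneg_left _ (by positivity)
    apply mul_le_mul_of_nonneg_left _ (by norm_num)
    exact mul_le_mul_of_nonneg_right hx4 heA.le
  rw [hx] at h5 e3
  have e6 : eA * (x + 16 * (al + 2) * u ^ 2) = x * eA + 2 * (al + 2) * u * (2 * (4 * u * eA)) := by
    ring
  rw [e6]; linarith

theorem num_c {al k u x eA wA wB v2 : ℝ} (hal : 0 < al) (hk : 0 < k)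
    (heA : 0 < eA) (hx : k * wA = x * eA)
    (h1 : wB ≤ wA - 2 * (al + 2) * (k * v2) + 14 * ((al + 2) * (al + 1)) * u ^ 2 * wA)
    (h2 : (wA / 2) ^ 2 ≤ eA * v2) :
    wB ≤ wA * (1 - (1 + al / 2) * x + 14 * ((al + 2) * (al + 1)) * u ^ 2) := by
  have f2 : x * wA ≤ 4 * (k * v2) := by
    have f0 : x * wA = k * wA ^ 2 / eA := by
      rw [eq_div_iff heA.ne']
      have : x * wA * eA = (x * eA) * wA := by ring
      rw [this, ← hx]; ring
    rw [f0, div_le_iff₀ heA]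
    have := mul_le_mul_of_nonneg_left h2 hk.le
    have e1 : k * (wA / 2) ^ 2 = (k * wA ^ 2) / 4 := by ring
    have e2 : 4 * (k * v2) * eA = 4 * (k * (eA * v2)) := by ring
    rw [e2]; rw [e1] at this
    linarith
  have f3 : (1 + al / 2) * (x * wA) ≤ (1 + al / 2) * (4 * (k * v2)) :=
    mul_le_mul_of_nonneg_left f2 (by positivity)
  have e7 : wA * (1 - (1 + al / 2) * x + 14 * ((al + 2) * (al + 1)) * u ^ 2) =
      wA - (1 + al / 2) * (x * wA) + 14 * ((al + 2) * (al + 1)) * u ^ 2 * wA := by ring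
  have e8 : (1 + al / 2) * (4 * (k * v2)) = 2 * (al + 2) * (k * v2) := by ring
  rw [e7]; linarith

/-- purely numerical form of the Rayleigh quotient step. -/
theorem ratio_num (hal : 0 < al) (hk : 0 < k) (hl : 0 < l) {eA eB wA wB v2 D R : ℝ}
    (hR : 0 ≤ R) (hs : (al + 2) * (k * l * R) ≤ 1 / 8)
    (heA : 0 < eA) (hwA : 0 ≤ wA)
    (h1 : wB ≤ wA - 2 * (al + 2) * (k * v2) + 14 * ((al + 2) * (al + 1)) * (k ^ 2 * l ^ 2) * R ^ 2 * wA)
    (h2 : (wA / 2) ^ 2 ≤ eA * v2) (h3 : eA - eB = k * D) (h4 : D ≤ 2 * wA)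
    (h5 : D ≤ wA + 2 * (al + 2) * k * (l * (R * D))) (h6 : wA ≤ R * (4 * l * eA)) :
    eA / 2 ≤ eB ∧
    wB * eA ^ (1 + al / 2) ≤ wA * eB ^ (1 + al / 2) *
      (1 + 2 * ((1 + al / 2) * (16 * (al + 2)) + 14 * ((al + 2) * (al + 1))) * (k ^ 2 * l ^ 2) * R ^ 2) := by
  obtain ⟨x, hx⟩ : ∃ x, x = k * wA / eA := ⟨_, rfl⟩
  obtain ⟨u, hu⟩ : ∃ u, u = k * l * R := ⟨_, rfl⟩
  have hxn : 0 ≤ x := by rw [hx]; positivity
  have hun : 0 ≤ u := by rw [hu]; positivity
  have hxe : k * wA = x * eA := by rw [hx]; field_simp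
  have hx4 : x ≤ 4 * u := by
    rw [hx, hu, div_le_iff₀ heA]
    have := mul_le_mul_of_nonneg_left h6 hk.le
    linarith
  have hpu : (al + 2) * u ≤ 1 / 8 := by rw [hu]; exact hs
  have h15 : (k ^ 2 * l ^ 2) * R ^ 2 = u ^ 2 := by rw [hu]; ring
  have h5' : k * D ≤ k * wA + 2 * (al + 2) * u * (k * D) := by
    have h := mul_le_mul_of_nonneg_left h5 hk.le
    have e1 : k * (wA + 2 * (al + 2) * k * (l * (R * D))) =
        k * wA + 2 * (al + 2) * u * (k * D) := by rw [hu]; ring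
    rw [e1] at h; exact h
  have h7 := num_b hal hk hun heA hxe hx4 h4 h5'
  have hy2 := num_a hal hun hx4 hpu
  have h1' : wB ≤ wA - 2 * (al + 2) * (k * v2) + 14 * ((al + 2) * (al + 1)) * u ^ 2 * wA := by
    have e3 : 14 * ((al + 2) * (al + 1)) * (k ^ 2 * l ^ 2) * R ^ 2 * wA =
        14 * ((al + 2) * (al + 1)) * u ^ 2 * wA := by rw [← h15]; ring
    rw [e3] at h1; exact h1
  have h12 := num_c hal hk heA hxe h1' h2
  obtain ⟨q, hq⟩ : ∃ q, q = x + 16 * (al + 2) * u ^ 2 := ⟨_, rfl⟩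
  rw [← hq] at h7 hy2
  have hqn : 0 ≤ q := by rw [hq]; positivity
  obtain ⟨y, hy⟩ : ∃ y, y = (1 + al / 2) * q := ⟨_, rfl⟩
  rw [← hy] at hy2
  have hyn : 0 ≤ y := by rw [hy]; positivity
  have hxy : q ≤ y := by
    have : 0 ≤ (al / 2) * q := by positivity
    rw [hy]; linarith
  have h8 : eA * (1 - q) ≤ eB := by
    have : eA * (1 - q) = eA - eA * q := by ring
    rw [this]; linarith
  have h9 : eA / 2 ≤ eB := by
    have : eA * (1 / 2) ≤ eA * (1 - q) := mul_le_mul_of_nonneg_left (by linarith) heA.le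
    linarith
  refine ⟨h9, ?_⟩
  have heB : 0 < eB := by linarith
  have hs1 : -1 ≤ -q := by linarith
  have h10 := one_add_mul_self_le_rpow_one_add hs1 (p := 1 + al / 2) (by linarith)
  have h11 : 1 - y ≤ (eB / eA) ^ (1 + al / 2) := by
    have e1 : 1 + -q ≤ eB / eA := by
      rw [le_div_iff₀ heA]; linarith
    have e2 := Real.rpow_le_rpow (by linarith) e1 (by linarith : 0 ≤ 1 + al / 2)
    have e3 : 1 + (1 + al / 2) * -q = 1 - y := by rw [hy]; ring
    linarith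
  rw [Real.div_rpow heB.le heA.le] at h11
  have hA : 0 < eA ^ (1 + al / 2) := Real.rpow_pos_of_pos heA _
  rw [le_div_iff₀ hA] at h11
  obtain ⟨c3, hc3⟩ : ∃ c3, c3 = (1 + al / 2) * (16 * (al + 2)) + 14 * ((al + 2) * (al + 1)) := ⟨_, rfl⟩
  have hC3n : 0 ≤ c3 := by rw [hc3]; positivity
  have h13 : 1 - (1 + al / 2) * x + 14 * ((al + 2) * (al + 1)) * u ^ 2 = 1 - y + c3 * u ^ 2 := by
    rw [hy, hq, hc3]; ring
  rw [h13] at h12
  have h14 : 1 - y + c3 * u ^ 2 ≤ (1 - y) * (1 + 2 * c3 * u ^ 2) := by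
    have h0 : 0 ≤ 2 * (c3 * u ^ 2) := by positivity
    have h00 : (1 / 2) * (2 * (c3 * u ^ 2)) ≤ (1 - y) * (2 * (c3 * u ^ 2)) :=
      mul_le_mul_of_nonneg_right (by linarith) h0
    have e1 : (1 - y) * (1 + 2 * c3 * u ^ 2) = (1 - y) + (1 - y) * (2 * (c3 * u ^ 2)) := by ring
    rw [e1]; linarith
  have h16 : 1 + 2 * c3 * (k ^ 2 * l ^ 2) * R ^ 2 = 1 + 2 * c3 * u ^ 2 := by rw [← h15]; ring
  rw [← hc3, h16]
  calc wB * eA ^ (1 + al / 2) ≤ (wA * (1 - y + c3 * u ^ 2)) * eA ^ (1 + al / 2) :=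
        mul_le_mul_of_nonneg_right h12 hA.le
    _ ≤ (wA * ((1 - y) * (1 + 2 * c3 * u ^ 2))) * eA ^ (1 + al / 2) := by
        apply mul_le_mul_of_nonneg_right _ hA.le
        exact mul_le_mul_of_nonneg_left h14 hwA
    _ = wA * (1 + 2 * c3 * u ^ 2) * ((1 - y) * eA ^ (1 + al / 2)) := by ring
    _ ≤ wA * (1 + 2 * c3 * u ^ 2) * eB ^ (1 + al / 2) := by
        apply mul_le_mul_of_nonneg_left h11 (by positivity)
    _ = _ := by ring

/-- the constant in the Rayleigh step. -/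
noncomputable def C3 (al k l : ℝ) : ℝ :=
  2 * ((1 + al / 2) * (16 * (al + 2)) + 14 * ((al + 2) * (al + 1))) * (k ^ 2 * l ^ 2)

theorem C3_nonneg (hal : 0 < al) : 0 ≤ C3 al k l := by unfold C3; positivity

theorem ratio_step (hal : 0 < al) (hk : 0 < k) (hl : 0 < l) (hP : Flow (fun z => k * phi al z) l P)
    {M : ℝ} (hM : ∀ s, |P 0 s| ≤ M) (hs : (al + 2) * (k * l * (2 * M) ^ al) ≤ 1 / 8)
    (he : 0 < en l (P 0)) :
    en l (P 0) / 2 ≤ en l (P l) ∧
    en l (P 0) - en l (P l) ≤ 2 * k * W al l (P 0) ∧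
    W al l (P l) * (en l (P 0)) ^ (1 + al / 2) ≤ W al l (P 0) * (en l (P l)) ^ (1 + al / 2) *
      (1 + C3 al k l * ((2 * M) ^ al) ^ 2) := by
  have hb := nice_kphi (al := al) (k := k) hal hk
  have hM' : ∀ t, 0 ≤ t → ∀ s, |P t s| ≤ M := fun t ht s => hP.abs_le hl hb le_rfl hM ht s
  have hM0 : 0 ≤ M := (abs_nonneg _).trans (hM 0)
  set R := (2 * M) ^ al with hR
  have hRn : 0 ≤ R := by positivity
  have hw := W_nonneg (al := al) (f := P 0) hl.le
  have hDn := Dd_nonneg (al := al) (P := P) hl.le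
  have h5 := D_le_W hal hk hl hP hM'
  have h4 : Dd al l P ≤ 2 * W al l (P 0) := by
    have : 2 * (al + 2) * k * (l * (R * Dd al l P)) = 2 * ((al + 2) * (k * l * R)) * Dd al l P := by ring
    rw [this] at h5
    nlinarith
  have h1 := W_step hal hk hl hP hM' h4
  have h3 := energy_id hal hk hP (a := 0) (b := l) le_rfl hl.le
  have h6 := W_le_en hal hl (hP.cont_s 0) hM
  have h2 : (W al l (P 0) / 2) ^ 2 ≤ en l (P 0) * ∫ s in (0:ℝ)..l, (V al l (P 0) s) ^ 2 := by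
    rw [← int_f_V hal (hP.cont_s 0)]
    exact cs_gen hl (hP.cont_s 0) (V_cont hal (hP.cont_s 0))
  obtain ⟨a1, a2⟩ := ratio_num hal hk hl hRn hs he hw h1 h2 h3 h4 h5 h6
  refine ⟨a1, ?_, ?_⟩
  · have h3' : en l (P 0) - en l (P l) = k * Dd al l P := h3
    rw [h3']; nlinarith
  · have : (1 + C3 al k l * R ^ 2) = (1 + 2 * ((1 + al / 2) * (16 * (al + 2)) + 14 * ((al + 2) * (al + 1))) * (k ^ 2 * l ^ 2) * R ^ 2) := by
      unfold C3; ring
    rw [this]; exact a2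

/-! ### the sup norm sequence -/

theorem mu_step (hal : 0 < al) {m c : ℝ} (hm : 0 < m) (hc : 0 ≤ c) :
    m - c * m ^ (al + 1) ≤ (m ^ (-al) + al * c) ^ (-1 / al) := by
  set x := c * m ^ al with hx
  have hxn : 0 ≤ x := by positivity
  have h1 : m - c * m ^ (al + 1) = m * (1 - x) := by
    rw [Real.rpow_add hm, Real.rpow_one, hx]; ring
  have h2 : m ^ (-al) + al * c = m ^ (-al) * (1 + al * x) := by
    rw [hx, Real.rpow_neg hm.le]
    have : m ^ al ≠ 0 := (Real.rpow_pos_of_pos hm _).ne'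
    field_simp
  have h3 : (m ^ (-al)) ^ (-1 / al) = m := by
    rw [← Real.rpow_mul hm.le]
    have : -al * (-1 / al) = 1 := by field_simp
    rw [this, Real.rpow_one]
  have hy : 0 < 1 + al * x := by positivity
  rw [h1, h2, Real.mul_rpow (by positivity) hy.le, h3]
  apply mul_le_mul_of_nonneg_left _ hm.le
  rw [Real.rpow_def_of_pos hy]
  have h4 : Real.log (1 + al * x) ≤ al * x := by
    have := Real.log_le_sub_one_of_pos hy; linarith
  have h5 : -x ≤ Real.log (1 + al * x) * (-1 / al) := by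
    have : Real.log (1 + al * x) * (-1 / al) = -(Real.log (1 + al * x) / al) := by ring
    rw [this, neg_le_neg_iff, div_le_iff₀ hal]; linarith
  calc 1 - x ≤ Real.exp (-x) := by have := Real.add_one_le_exp (-x); linarith
    _ ≤ _ := Real.exp_le_exp.mpr h5

/-- closed form of the sup bound. -/
noncomputable def mu (al A B : ℝ) (n : ℕ) : ℝ := (A + B * n) ^ (-1 / al)

theorem mu_pos {A B : ℝ} (hA : 0 < A) (hB : 0 < B) (n : ℕ) : 0 < mu al A B n := by
  unfold mu; positivity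

theorem mu_rpow_neg (hal : 0 < al) {A B : ℝ} (hA : 0 < A) (hB : 0 < B) (n : ℕ) :
    (mu al A B n) ^ (-al) = A + B * n := by
  unfold mu
  have h : 0 ≤ A + B * n := by positivity
  rw [← Real.rpow_mul h]
  have : -1 / al * -al = 1 := by field_simp
  rw [this, Real.rpow_one]

theorem mu_rpow (hal : 0 < al) {A B : ℝ} (hA : 0 < A) (hB : 0 < B) (n : ℕ) :
    (2 * mu al A B n) ^ al = 2 ^ al / (A + B * n) := by
  rw [Real.mul_rpow (by norm_num) (mu_pos hA hB n).le]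
  have h1 := mu_rpow_neg hal hA hB n
  rw [Real.rpow_neg (mu_pos hA hB n).le] at h1
  have h2 : (mu al A B n) ^ al = (A + B * n)⁻¹ := by rw [← h1, inv_inv]
  rw [h2]; rfl

theorem mu_anti (hal : 0 < al) {A B : ℝ} (hA : 0 < A) (hB : 0 < B) (n : ℕ) :
    mu al A B n ≤ A ^ (-1 / al) := by
  unfold mu
  apply Real.rpow_le_rpow_of_nonpos hA
  · have : 0 ≤ B * n := by positivity
    linarith
  · apply div_nonpos_of_nonpos_of_nonneg (by norm_num) hal.le

theorem sup_seq (hal : 0 < al) (hk : 0 < k) (hl : 0 < l) (hP : Flow (fun z => k * phi al z) l P)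
    {M0 : ℝ} (hM0 : 0 < M0) (h0 : ∀ s, |P 0 s| ≤ M0) (hmean : ∫ s in (0:ℝ)..l, P 0 s = 0) (n : ℕ) :
    ∀ s, |P (n * l) s| ≤ mu al (M0 ^ (-al)) (al * cdec al k l M0) n := by
  have hc := cdec_pos (al := al) hk hl hM0
  have hA : 0 < M0 ^ (-al) := Real.rpow_pos_of_pos hM0 _
  have hB : 0 < al * cdec al k l M0 := mul_pos hal hc
  have hMA : (M0 ^ (-al)) ^ (-1 / al) = M0 := by
    rw [← Real.rpow_mul hM0.le]
    have : -al * (-1 / al) = 1 := by field_simp
    rw [this, Real.rpow_one]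
  induction n with
  | zero =>
    intro s
    have := h0 s
    simp only [mu, Nat.cast_zero, zero_mul, mul_zero, add_zero, hMA]
    exact this
  | succ n ih =>
    intro s
    have hb := nice_kphi (al := al) (k := k) hal hk
    have hQ := hP.shift hl.le n
    have hm : ∫ s in (0:ℝ)..l, P (0 + n * l) s = 0 := by
      rw [zero_add, hP.mean_eq hb le_rfl (by positivity : (0:ℝ) ≤ n * l), hmean]
    have h1 := sup_step_abs hal hk hl hQ (mu_pos hA hB n) ((mu_anti hal hA hB n).trans_eq hMA)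
      (fun s => by simpa using ih s) hm s
    have h2 := mu_step hal (mu_pos (al := al) hA hB n) hc.le
    rw [mu_rpow_neg hal hA hB n] at h2
    have e1 : ((n + 1 : ℕ) : ℝ) * l = l + n * l := by push_cast; ring
    rw [e1]
    refine h1.trans (h2.trans (le_of_eq ?_))
    unfold mu
    congr 1
    push_cast; ring

end Pool.Agent.Helper383.WaveSeq
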