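import Mathlib
import Pool.Agent.Helper383.WaveSeq

set_option autoImplicit false

open Set Filter Topology MeasureTheory intervalIntegral

namespace Pool.Agent.Helper383.WaveSeq2

open Pool.Agent.Helper383.WavePhi Pool.Agent.Helper383.WaveFlow Pool.Agent.Helper383.WaveSup
open Pool.Agent.Helper383.WaveRay Pool.Agent.Helper383.WaveSeq

variable {al k l : ℝ} {P : ℝ → ℝ → ℝ}

/-- one numerical step for the lower bound. -/
theorem low_step (hal : 0 < al) {K e e' : ℝ} (hK : 0 ≤ K) (he : 0 < e) (h1 : e / 2 ≤ e')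
    (h2 : e - e' ≤ K * e ^ (1 + al / 2)) :
    e' ^ (-(al / 2)) ≤ e ^ (-(al / 2)) + K * (al * Real.exp (al / 2) + 2 * 2 ^ (al / 2)) := by
  have he' : 0 < e' := by linarith
  have hp : 0 < al / 2 := by positivity
  set f := e ^ (-(al / 2)) with hf
  have hfp : 0 < f := Real.rpow_pos_of_pos he _
  set y := K * e ^ (al / 2) with hy
  have hyn : 0 ≤ y := by positivity
  have hyf : y * f = K := by
    rw [hy, hf, Real.rpow_neg he.le]
    have : e ^ (al / 2) ≠ 0 := (Real.rpow_pos_of_pos he _).ne'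
    field_simp
  have h3 : e * (1 - y) ≤ e' := by
    have : K * e ^ (1 + al / 2) = e * y := by
      rw [Real.rpow_add he, Real.rpow_one, hy]; ring
    rw [this] at h2; linarith
  rcases le_total y (1 / 2) with hc | hc
  · have h4 : 0 < 1 - y := by linarith
    have h5 : e' ^ (-(al / 2)) ≤ (e * (1 - y)) ^ (-(al / 2)) :=
      Real.rpow_le_rpow_of_nonpos (by positivity) h3 (by linarith)
    rw [Real.mul_rpow he.le h4.le] at h5
    have h6 : (1 - y) ^ (-(al / 2)) ≤ 1 + al * y * Real.exp (al / 2) := by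
      rw [Real.rpow_def_of_pos h4]
      have h7 : -(2 * y) ≤ Real.log (1 - y) := by
        have h8 := Real.one_sub_inv_le_log_of_pos h4
        have h9 : (1 - y)⁻¹ ≤ 1 + 2 * y := by
          rw [inv_le_iff_one_le_mul₀ h4]; nlinarith
        linarith
      have h10 : Real.log (1 - y) * (-(al / 2)) ≤ al * y := by
        have := mul_le_mul_of_nonneg_right h7 hp.le
        linarith
      have h11 : Real.exp (Real.log (1 - y) * (-(al / 2))) ≤ Real.exp (al * y) := Real.exp_le_exp.mpr h10
      have h12 : Real.exp (al * y) ≤ 1 + al * y * Real.exp (al * y) := by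
        have h13 := Real.add_one_le_exp (-(al * y))
        have h14 : (-(al * y) + 1) * Real.exp (al * y) ≤ Real.exp (-(al * y)) * Real.exp (al * y) :=
          mul_le_mul_of_nonneg_right h13 (Real.exp_pos _).le
        rw [← Real.exp_add, neg_add_cancel, Real.exp_zero] at h14
        linarith
      have h15 : Real.exp (al * y) ≤ Real.exp (al / 2) := by
        apply Real.exp_le_exp.mpr; nlinarith
      have h16 : al * y * Real.exp (al * y) ≤ al * y * Real.exp (al / 2) :=
        mul_le_mul_of_nonneg_left h15 (by positivity)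
      linarith
    have h17 : f * (1 - y) ^ (-(al / 2)) ≤ f * (1 + al * y * Real.exp (al / 2)) :=
      mul_le_mul_of_nonneg_left h6 hfp.le
    have h18 : f * (1 + al * y * Real.exp (al / 2)) = f + K * (al * Real.exp (al / 2)) := by
      rw [← hyf]; ring
    have h19 : 0 ≤ K * (2 * 2 ^ (al / 2)) := by positivity
    rw [h18] at h17
    linarith
  · have h5 : e' ^ (-(al / 2)) ≤ (e / 2) ^ (-(al / 2)) :=
      Real.rpow_le_rpow_of_nonpos (by positivity) h1 (by linarith)
    have h6 : (e / 2) ^ (-(al / 2)) = f * 2 ^ (al / 2) := by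
      rw [Real.div_rpow he.le (by norm_num), Real.rpow_neg (by norm_num : (0:ℝ) ≤ 2), div_inv_eq_mul]
    have h7 : f ≤ 2 * K := by
      have : (1 / 2) * f ≤ y * f := mul_le_mul_of_nonneg_right hc hfp.le
      rw [hyf] at this; linarith
    have h8 : f * 2 ^ (al / 2) ≤ 2 * K * 2 ^ (al / 2) :=
      mul_le_mul_of_nonneg_right h7 (by positivity)
    have h19 : 0 ≤ K * (al * Real.exp (al / 2)) := by positivity
    rw [h6] at h5
    linarith

/-- the constant in the numerical lower bound. -/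
noncomputable def lowC (al K : ℝ) : ℝ := K * (al * Real.exp (al / 2) + 2 * 2 ^ (al / 2))

/-- numerical lower bound. -/
theorem low_seq (hal : 0 < al) {K : ℝ} (hK : 0 ≤ K) {e : ℕ → ℝ} (he : 0 < e 0)
    (h1 : ∀ n, e n / 2 ≤ e (n + 1))
    (h2 : ∀ n, e n - e (n + 1) ≤ K * (e n) ^ (1 + al / 2)) :
    0 ≤ lowC al K ∧ ∀ n : ℕ, ((e 0) ^ (-(al / 2)) + lowC al K * n) ^ (-2 / al) ≤ e n := by
  have hpos : ∀ n, 0 < e n := by
    intro n
    induction n with
    | zero => exact he
    | succ n ih => have := h1 n; linarith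
  have hCn : 0 ≤ lowC al K := by unfold lowC; positivity
  refine ⟨hCn, ?_⟩
  set C := lowC al K with hC
  have h3 : ∀ n : ℕ, (e n) ^ (-(al / 2)) ≤ (e 0) ^ (-(al / 2)) + C * n := by
    intro n
    induction n with
    | zero => simp
    | succ n ih =>
      have := low_step hal hK (hpos n) (h1 n) (h2 n)
      have e1 : K * (al * Real.exp (al / 2) + 2 * 2 ^ (al / 2)) = C := rfl
      rw [e1] at this
      push_cast
      linarith
  intro n
  have h4 : 0 < (e n) ^ (-(al / 2)) := Real.rpow_pos_of_pos (hpos n) _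
  have h5 := Real.rpow_le_rpow_of_nonpos h4 (h3 n)
    (div_nonpos_of_nonpos_of_nonneg (by norm_num) hal.le : -2 / al ≤ 0)
  rw [← Real.rpow_mul (hpos n).le] at h5
  have h6 : -(al / 2) * (-2 / al) = 1 := by field_simp
  rw [h6, Real.rpow_one] at h5
  exact h5

theorem q_step {A B c : ℝ} (hA : 0 < A) (hB : 0 < B) (hc : 0 ≤ c) (n : ℕ) :
    1 + c / (A + B * n) ^ 2 ≤
      Real.exp ((c * (A + B) / (A * B)) * (1 / (A + B * n) - 1 / (A + B * (n + 1 : ℕ)))) := by
  have h0 : 0 ≤ B * n := by positivity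
  have h1 : 0 < A + B * n := by positivity
  have h2 : 0 < A + B * (n + 1 : ℕ) := by positivity
  have h3 : c / (A + B * n) ^ 2 ≤ (c * (A + B) / (A * B)) * (1 / (A + B * n) - 1 / (A + B * (n + 1 : ℕ))) := by
    have e1 : (c * (A + B) / (A * B)) * (1 / (A + B * n) - 1 / (A + B * (n + 1 : ℕ))) =
        c * (A + B) / (A * (A + B * n) * (A + B * (n + 1 : ℕ))) := by
      push_cast
      push_cast at h2
      field_simp
      ring
    rw [e1, div_le_div_iff₀ (by positivity) (by positivity)]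
    have e2 : c * (A * (A + B * n) * (A + B * (n + 1 : ℕ))) =
        (c * (A + B * n)) * (A * (A + B * (n + 1 : ℕ))) := by ring
    have e3 : c * (A + B) * (A + B * n) ^ 2 = (c * (A + B * n)) * ((A + B) * (A + B * n)) := by ring
    rw [e2, e3]
    apply mul_le_mul_of_nonneg_left _ (by positivity)
    push_cast
    nlinarith
  have h4 := Real.add_one_le_exp ((c * (A + B) / (A * B)) * (1 / (A + B * n) - 1 / (A + B * (n + 1 : ℕ))))
  linarith

/-- uniform constant for the ratio. -/
noncomputable def unifG (al k l M0 ep : ℝ) : ℝ :=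
  Real.exp ((C3 al k l * (2 ^ al) ^ 2) * (M0 ^ (-al) + al * cdec al k l M0) /
    (M0 ^ (-al) * (al * cdec al k l M0)) * (1 / M0 ^ (-al))) *
    ((2 * M0) ^ al * (4 * l) * ep ^ (-(al / 2)))

/-- lower bound in the small regime, at multiples of the period. -/
theorem small_lower_unif (hal : 0 < al) (hk : 0 < k) (hl : 0 < l)
    (hP : Flow (fun z => k * phi al z) l P)
    {M0 ep : ℝ} (hM0 : 0 < M0) (hep : 0 < ep) (h0 : ∀ s, |P 0 s| ≤ M0)
    (hmean : ∫ s in (0:ℝ)..l, P 0 s = 0)
    (hs : (al + 2) * (k * l * (2 * M0) ^ al) ≤ 1 / 8) (hep' : ep ≤ en l (P 0)) :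
    0 ≤ lowC al (2 * k * unifG al k l M0 ep) ∧ ∀ n : ℕ,
      (ep ^ (-(al / 2)) + lowC al (2 * k * unifG al k l M0 ep) * n) ^ (-2 / al) ≤ en l (P (n * l)) := by
  have he : 0 < en l (P 0) := hep.trans_le hep'
  have hc := cdec_pos (al := al) hk hl hM0
  have hGu : unifG al k l M0 ep = Real.exp ((C3 al k l * (2 ^ al) ^ 2) * (M0 ^ (-al) + al * cdec al k l M0) /
    (M0 ^ (-al) * (al * cdec al k l M0)) * (1 / M0 ^ (-al))) *
    ((2 * M0) ^ al * (4 * l) * ep ^ (-(al / 2))) := rfl
  set A := M0 ^ (-al) with hAd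
  set B := al * cdec al k l M0 with hBd
  have hA : 0 < A := Real.rpow_pos_of_pos hM0 _
  have hB : 0 < B := mul_pos hal hc
  have hMA : A ^ (-1 / al) = M0 := by
    rw [hAd, ← Real.rpow_mul hM0.le]
    have : -al * (-1 / al) = 1 := by field_simp
    rw [this, Real.rpow_one]
  have hsup := sup_seq hal hk hl hP hM0 h0 hmean
  -- the shifted flow
  have hQ : ∀ n : ℕ, Flow (fun z => k * phi al z) l (fun t s => P (t + n * l) s) := hP.shift hl.le
  have hQ0 : ∀ n : ℕ, (fun s => P (0 + n * l) s) = P (n * l) := by intro n; funext s; simp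
  have hQ1 : ∀ n : ℕ, (fun s => P (l + n * l) s) = P ((n + 1 : ℕ) * l) := by
    intro n; funext s; push_cast; congr 1; ring
  have hmusmall : ∀ n : ℕ, (al + 2) * (k * l * (2 * mu al A B n) ^ al) ≤ 1 / 8 := by
    intro n
    refine le_trans ?_ hs
    have h1 : (2 * mu al A B n) ^ al ≤ (2 * M0) ^ al := by
      apply Real.rpow_le_rpow (by have := mu_pos (al := al) hA hB n; positivity) _ hal.le
      have := mu_anti hal hA hB n
      rw [hMA] at this; linarith
    apply mul_le_mul_of_nonneg_left _ (by positivity)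
    exact mul_le_mul_of_nonneg_left h1 (by positivity)
  have hstep : ∀ n : ℕ, 0 < en l (P (n * l)) →
      en l (P (n * l)) / 2 ≤ en l (P ((n + 1 : ℕ) * l)) ∧
      en l (P (n * l)) - en l (P ((n + 1 : ℕ) * l)) ≤ 2 * k * W al l (P (n * l)) ∧
      W al l (P ((n + 1 : ℕ) * l)) * (en l (P (n * l))) ^ (1 + al / 2) ≤
        W al l (P (n * l)) * (en l (P ((n + 1 : ℕ) * l))) ^ (1 + al / 2) *
          (1 + C3 al k l * ((2 * mu al A B n) ^ al) ^ 2) := by
    intro n hn
    have := ratio_step hal hk hl (hQ n) (M := mu al A B n) (fun s => by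
      have := hsup n s
      simpa using this) (hmusmall n) (by rw [hQ0]; exact hn)
    rw [hQ0, hQ1] at this
    exact this
  have hpos : ∀ n : ℕ, 0 < en l (P (n * l)) := by
    intro n
    induction n with
    | zero => simpa using he
    | succ n ih => have := (hstep n ih).1; linarith
  -- boundedness of the ratio
  set c := C3 al k l * (2 ^ al) ^ 2 with hcd
  have hcn : 0 ≤ c := mul_nonneg (C3_nonneg hal) (by positivity)
  set kap := c * (A + B) / (A * B) with hkap
  have hkn : 0 ≤ kap := by positivity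
  have hW0 : 0 ≤ W al l (P 0) := W_nonneg hl.le
  set G := Real.exp (kap * (1 / A)) * (W al l (P 0) / (en l (P 0)) ^ (1 + al / 2)) with hG
  have hGn : 0 ≤ G := by positivity
  have hclaim : ∀ n : ℕ, W al l (P (n * l)) ≤
      G * Real.exp (-(kap * (1 / (A + B * n)))) * (en l (P (n * l))) ^ (1 + al / 2) := by
    intro n
    induction n with
    | zero =>
      simp only [Nat.cast_zero, zero_mul, mul_zero, add_zero]
      rw [hG]
      have h1 : 0 < en l (P 0) ^ (1 + al / 2) := Real.rpow_pos_of_pos he _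
      have h2 : Real.exp (kap * (1 / A)) * (W al l (P 0) / en l (P 0) ^ (1 + al / 2)) *
          Real.exp (-(kap * (1 / A))) * en l (P 0) ^ (1 + al / 2) =
          (Real.exp (kap * (1 / A)) * Real.exp (-(kap * (1 / A)))) *
            (W al l (P 0) / en l (P 0) ^ (1 + al / 2) * en l (P 0) ^ (1 + al / 2)) := by ring
      rw [h2, ← Real.exp_add, add_neg_cancel, Real.exp_zero, one_mul, div_mul_cancel₀ _ h1.ne']
    | succ n ih =>
      obtain ⟨_, _, h3⟩ := hstep n (hpos n)
      have hEn : 0 < en l (P (n * l)) ^ (1 + al / 2) := Real.rpow_pos_of_pos (hpos n) _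
      have hEn1 : 0 < en l (P ((n + 1 : ℕ) * l)) ^ (1 + al / 2) := Real.rpow_pos_of_pos (hpos (n + 1)) _
      have h4 : 1 + C3 al k l * ((2 * mu al A B n) ^ al) ^ 2 = 1 + c / (A + B * n) ^ 2 := by
        rw [mu_rpow hal hA hB n, hcd, div_pow, mul_div_assoc]
      rw [h4] at h3
      have h5 := q_step hA hB hcn n
      rw [← hkap] at h5
      have h6 : W al l (P (n * l)) * (en l (P ((n + 1 : ℕ) * l))) ^ (1 + al / 2) *
          (1 + c / (A + B * n) ^ 2) ≤
          (G * Real.exp (-(kap * (1 / (A + B * n)))) * (en l (P (n * l))) ^ (1 + al / 2)) *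
          (en l (P ((n + 1 : ℕ) * l))) ^ (1 + al / 2) *
          Real.exp (kap * (1 / (A + B * n) - 1 / (A + B * (n + 1 : ℕ)))) := by
        apply mul_le_mul _ h5 (by positivity) (by positivity)
        exact mul_le_mul_of_nonneg_right ih hEn1.le
      have h7 : (G * Real.exp (-(kap * (1 / (A + B * n)))) * (en l (P (n * l))) ^ (1 + al / 2)) *
          (en l (P ((n + 1 : ℕ) * l))) ^ (1 + al / 2) *
          Real.exp (kap * (1 / (A + B * n) - 1 / (A + B * (n + 1 : ℕ)))) =
          (G * (Real.exp (-(kap * (1 / (A + B * n)))) *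
            Real.exp (kap * (1 / (A + B * n) - 1 / (A + B * (n + 1 : ℕ))))) *
            (en l (P ((n + 1 : ℕ) * l))) ^ (1 + al / 2)) * (en l (P (n * l))) ^ (1 + al / 2) := by
        ring
      rw [h7, ← Real.exp_add] at h6
      have h8 : -(kap * (1 / (A + B * n))) + kap * (1 / (A + B * n) - 1 / (A + B * (n + 1 : ℕ))) =
          -(kap * (1 / (A + B * (n + 1 : ℕ)))) := by ring
      rw [h8] at h6
      exact le_of_mul_le_mul_right (h3.trans h6) hEn
  have hclaim2 : ∀ n : ℕ, W al l (P (n * l)) ≤ G * (en l (P (n * l))) ^ (1 + al / 2) := by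
    intro n
    refine (hclaim n).trans ?_
    apply mul_le_mul_of_nonneg_right _ (Real.rpow_pos_of_pos (hpos n) _).le
    have : Real.exp (-(kap * (1 / (A + B * n)))) ≤ 1 := by
      rw [Real.exp_le_one_iff]
      have : 0 ≤ kap * (1 / (A + B * n)) := by positivity
      linarith
    calc G * Real.exp (-(kap * (1 / (A + B * n)))) ≤ G * 1 := mul_le_mul_of_nonneg_left this hGn
      _ = G := mul_one _
  -- uniform bound for G
  set Gu := unifG al k l M0 ep with hGud
  have hGle : G ≤ Gu := by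
    rw [hG, hGu]
    apply mul_le_mul_of_nonneg_left _ (Real.exp_pos _).le
    rw [div_le_iff₀ (Real.rpow_pos_of_pos he _)]
    have g1 := W_le_en (al := al) hal hl (hP.cont_s 0) h0
    have g2 : en l (P 0) ≤ ep ^ (-(al / 2)) * en l (P 0) ^ (1 + al / 2) := by
      rw [Real.rpow_add he, Real.rpow_one]
      have g3 : (en l (P 0)) ^ (-(al / 2)) ≤ ep ^ (-(al / 2)) :=
        Real.rpow_le_rpow_of_nonpos hep hep' (by linarith)
      have g4 : (en l (P 0)) ^ (-(al / 2)) * (en l (P 0)) ^ (al / 2) = 1 := by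
        rw [← Real.rpow_add he]; simp
      have g5 : 0 < (en l (P 0)) ^ (al / 2) := Real.rpow_pos_of_pos he _
      have g6 : 1 ≤ ep ^ (-(al / 2)) * (en l (P 0)) ^ (al / 2) := by
        rw [← g4]; exact mul_le_mul_of_nonneg_right g3 g5.le
      calc en l (P 0) = en l (P 0) * 1 := (mul_one _).symm
        _ ≤ en l (P 0) * (ep ^ (-(al / 2)) * (en l (P 0)) ^ (al / 2)) :=
          mul_le_mul_of_nonneg_left g6 he.le
        _ = _ := by ring
    calc W al l (P 0) ≤ (2 * M0) ^ al * (4 * l * en l (P 0)) := g1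
      _ = ((2 * M0) ^ al * (4 * l)) * en l (P 0) := by ring
      _ ≤ ((2 * M0) ^ al * (4 * l)) * (ep ^ (-(al / 2)) * en l (P 0) ^ (1 + al / 2)) :=
        mul_le_mul_of_nonneg_left g2 (by positivity)
      _ = _ := by ring
  have hGun : 0 ≤ Gu := hGn.trans hGle
  obtain ⟨hC0, hC⟩ := low_seq hal (K := 2 * k * Gu) (by positivity)
    (e := fun n : ℕ => en l (P (n * l))) (by simpa using he) (fun n => (hstep n (hpos n)).1)
    (fun n => by
      refine (hstep n (hpos n)).2.1.trans ?_
      have h1 := mul_le_mul_of_nonneg_left (hclaim2 n) (by positivity : 0 ≤ 2 * k)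
      have h2 : G * en l (P (n * l)) ^ (1 + al / 2) ≤ Gu * en l (P (n * l)) ^ (1 + al / 2) :=
        mul_le_mul_of_nonneg_right hGle (Real.rpow_pos_of_pos (hpos n) _).le
      have h3 := mul_le_mul_of_nonneg_left h2 (by positivity : 0 ≤ 2 * k)
      linarith)
  refine ⟨hC0, fun n => ?_⟩
  have h1 := hC n
  simp only [Nat.cast_zero, zero_mul] at h1
  refine le_trans ?_ h1
  have h2 : (en l (P 0)) ^ (-(al / 2)) ≤ ep ^ (-(al / 2)) :=
    Real.rpow_le_rpow_of_nonpos hep hep' (by linarith)
  have h3 : 0 < (en l (P 0)) ^ (-(al / 2)) := Real.rpow_pos_of_pos he _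
  exact Real.rpow_le_rpow_of_nonpos (by positivity) (by linarith)
    (div_nonpos_of_nonpos_of_nonneg (by norm_num) hal.le)

theorem small_lower (hal : 0 < al) (hk : 0 < k) (hl : 0 < l) (hP : Flow (fun z => k * phi al z) l P)
    {M0 : ℝ} (hM0 : 0 < M0) (h0 : ∀ s, |P 0 s| ≤ M0) (hmean : ∫ s in (0:ℝ)..l, P 0 s = 0)
    (hs : (al + 2) * (k * l * (2 * M0) ^ al) ≤ 1 / 8) (he : 0 < en l (P 0)) :
    ∃ C, 0 ≤ C ∧ ∀ n : ℕ, ((en l (P 0)) ^ (-(al / 2)) + C * n) ^ (-2 / al) ≤ en l (P (n * l)) := by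
  obtain ⟨h1, h2⟩ := small_lower_unif hal hk hl hP hM0 he h0 hmean hs le_rfl
  exact ⟨_, h1, h2⟩

/-! ### positivity and monotonicity of the energy -/

theorem en_anti (hal : 0 < al) (hk : 0 < k) (hl : 0 < l) (hP : Flow (fun z => k * phi al z) l P)
    {a b : ℝ} (ha : 0 ≤ a) (hab : a ≤ b) : en l (P b) ≤ en l (P a) := by
  have h := energy_id hal hk hP ha hab
  have : 0 ≤ k * ∫ t in a..b, ∫ s in (0:ℝ)..l, |zz P t s| ^ (al + 2) := by
    apply mul_nonneg hk.le
    apply intervalIntegral.integral_nonneg hab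
    intro t _
    exact intervalIntegral.integral_nonneg hl.le (fun s _ => Real.rpow_nonneg (abs_nonneg _) _)
  linarith

theorem en_half (hal : 0 < al) (hk : 0 < k) (hl : 0 < l) (hP : Flow (fun z => k * phi al z) l P)
    {M : ℝ} (hM : ∀ t, 0 ≤ t → ∀ s, |P t s| ≤ M)
    {a b : ℝ} (ha : 0 ≤ a) (hab : a ≤ b) (hs : 4 * k * (2 * M) ^ al * (b - a) ≤ 1 / 2) :
    en l (P a) / 2 ≤ en l (P b) := by
  have h := energy_id hal hk hP ha hab
  have hM0 : 0 ≤ M := (abs_nonneg _).trans (hM 0 le_rfl 0)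
  have hq2 : (0:ℝ) < al + 2 := by linarith
  have h1 : ∀ t ∈ Icc a b, ∫ s in (0:ℝ)..l, |zz P t s| ^ (al + 2) ≤ 4 * (2 * M) ^ al * en l (P a) := by
    intro t ht
    have ht0 : 0 ≤ t := ha.trans ht.1
    have hzc := zz_cont_s hP t
    have hPc := hP.cont_s t
    have h2 : ∫ s in (0:ℝ)..l, |zz P t s| ^ (al + 2) ≤
        ∫ s in (0:ℝ)..l, (2 * M) ^ al * (2 * (P t s) ^ 2 + 2 * (P t (t - s)) ^ 2) := by
      apply intervalIntegral.integral_mono_on hl.le
        ((rpow_abs_cont hq2 hzc).intervalIntegrable _ _)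
        (Continuous.intervalIntegrable (by fun_prop) _ _)
      intro s _
      have hb : |zz P t s| ≤ 2 * M := by
        unfold zz
        have := abs_sub (P t s) (P t (t - s)); have := hM t ht0 s; have := hM t ht0 (t - s); linarith
      have h3 : |zz P t s| ^ (al + 2) = |zz P t s| ^ al * (zz P t s) ^ 2 := by
        rw [Real.rpow_add_of_nonneg (abs_nonneg _) hal.le zero_le_two]
        congr 1
        rw [show (2:ℝ) = ((2:ℕ):ℝ) by norm_num, Real.rpow_natCast, sq_abs]
      rw [h3]
      have h4 : (zz P t s) ^ 2 ≤ 2 * (P t s) ^ 2 + 2 * (P t (t - s)) ^ 2 := by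
        unfold zz; nlinarith [sq_nonneg (P t s + P t (t - s))]
      exact mul_le_mul (Real.rpow_le_rpow (abs_nonneg _) hb hal.le) h4 (sq_nonneg _) (by positivity)
    have h5 : ∫ s in (0:ℝ)..l, (2 * M) ^ al * (2 * (P t s) ^ 2 + 2 * (P t (t - s)) ^ 2) =
        4 * (2 * M) ^ al * en l (P t) := by
      rw [intervalIntegral.integral_const_mul, intervalIntegral.integral_add
        (Continuous.intervalIntegrable (by fun_prop) _ _) (Continuous.intervalIntegrable (by fun_prop) _ _),
        intervalIntegral.integral_const_mul, intervalIntegral.integral_const_mul,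
        int_reflect (l := l) (f := fun s => (P t s) ^ 2) (fun s => by simp only [hP.per t s]) t]
      unfold en; ring
    rw [h5] at h2
    refine h2.trans ?_
    exact mul_le_mul_of_nonneg_left (en_anti hal hk hl hP ha ht.1) (by positivity)
  have h6 : ∫ t in a..b, ∫ s in (0:ℝ)..l, |zz P t s| ^ (al + 2) ≤
      ∫ t in a..b, 4 * (2 * M) ^ al * en l (P a) := by
    apply intervalIntegral.integral_mono_on hab _ (continuous_const.intervalIntegrable _ _) h1
    exact (cont_param (F := fun t s => |zz P t s| ^ (al + 2)) (rpow_abs_cont hq2 (zz_cont hP)) 0 l).intervalIntegrable _ _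
  rw [intervalIntegral.integral_const, smul_eq_mul] at h6
  have hen : 0 ≤ en l (P a) := intervalIntegral.integral_nonneg hl.le (fun s _ => sq_nonneg _)
  have h7 := mul_le_mul_of_nonneg_left h6 hk.le
  have h8 := mul_le_mul_of_nonneg_right hs hen
  have h9 : k * ((b - a) * (4 * (2 * M) ^ al * en l (P a))) = 4 * k * (2 * M) ^ al * (b - a) * en l (P a) := by
    ring
  rw [h9] at h7
  linarith

theorem en_pos (hal : 0 < al) (hk : 0 < k) (hl : 0 < l) (hP : Flow (fun z => k * phi al z) l P)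
    {M : ℝ} (hM : ∀ t, 0 ≤ t → ∀ s, |P t s| ≤ M) (he : 0 < en l (P 0)) {t : ℝ} (ht : 0 ≤ t) :
    0 < en l (P t) := by
  have hM0 : 0 ≤ M := (abs_nonneg _).trans (hM 0 le_rfl 0)
  obtain ⟨h, hh, hh2⟩ : ∃ h : ℝ, 0 < h ∧ 4 * k * (2 * M) ^ al * h ≤ 1 / 2 := by
    refine ⟨1 / (8 * k * (2 * M) ^ al + 1), by positivity, ?_⟩
    rw [mul_one_div, div_le_iff₀ (by positivity)]
    linarith
  have h1 : ∀ n : ℕ, 0 < en l (P (n * h)) := by
    intro n
    induction n with
    | zero => simpa using he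
    | succ n ih =>
      have := en_half hal hk hl hP hM (a := n * h) (b := (n + 1 : ℕ) * h) (by positivity)
        (by push_cast; nlinarith) (by push_cast; rw [show ((n:ℝ) + 1) * h - n * h = h by ring]; exact hh2)
      linarith
  obtain ⟨n, hn⟩ := exists_nat_ge (t / h)
  have h2 : t ≤ n * h := by rwa [div_le_iff₀ hh] at hn
  exact (h1 n).trans_le (en_anti hal hk hl hP ht h2)

end Pool.Agent.Helper383.WaveSeq2
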