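import Mathlib
import Pool.Agent.Helper383.WaveSeq2

set_option autoImplicit false

open Set Filter Topology MeasureTheory intervalIntegral

namespace Pool.Agent.Helper383.WaveMain

open Pool.Agent.Helper383.WavePhi Pool.Agent.Helper383.WaveFlow Pool.Agent.Helper383.WaveSup
open Pool.Agent.Helper383.WaveRay Pool.Agent.Helper383.WaveSeq Pool.Agent.Helper383.WaveSeq2

variable {al k l : ℝ} {P : ℝ → ℝ → ℝ}

theorem exists_sup (hl : 0 < l) {f : ℝ → ℝ} (hf : Continuous f) (hper : ∀ s, f (s + l) = f s) :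
    ∃ M, 0 < M ∧ ∀ s, |f s| ≤ M := by
  obtain ⟨C, hC⟩ := (isCompact_Icc (a := (0:ℝ)) (b := l)).exists_bound_of_continuousOn hf.continuousOn
  refine ⟨max C 1, by positivity, fun s => ?_⟩
  have hp : Function.Periodic f l := hper
  obtain ⟨y, hy, hy'⟩ := hp.exists_mem_Ico₀ hl s
  rw [hy']
  exact (hC y ⟨hy.1, hy.2.le⟩).trans (le_max_left _ _)

/-- upper bound. -/
theorem flow_upper (hal : 0 < al) (hk : 0 < k) (hl : 0 < l) (hP : Flow (fun z => k * phi al z) l P)
    (hmean : ∫ s in (0:ℝ)..l, P 0 s = 0) :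
    ∃ C, 0 < C ∧ ∀ t, 0 ≤ t → en l (P t) ≤ C * (1 + t) ^ (-2 / al) := by
  obtain ⟨M0, hM0, h0⟩ := exists_sup hl (hP.cont_s 0) (hP.per 0)
  have hc := cdec_pos (al := al) hk hl hM0
  set A := M0 ^ (-al) with hAd
  set B := al * cdec al k l M0 with hBd
  have hA : 0 < A := Real.rpow_pos_of_pos hM0 _
  have hB : 0 < B := mul_pos hal hc
  have hsup := sup_seq hal hk hl hP hM0 h0 hmean
  set c0 := min (A / (1 + l)) (B / l) with hc0
  have hc0p : 0 < c0 := lt_min (by positivity) (by positivity)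
  refine ⟨l * c0 ^ (-2 / al), by positivity, fun t ht => ?_⟩
  set n := ⌊t / l⌋₊ with hn
  have hn1 : (n:ℝ) * l ≤ t := by
    have := Nat.floor_le (by positivity : 0 ≤ t / l)
    rwa [le_div_iff₀ hl] at this
  have hn2 : t ≤ ((n:ℝ) + 1) * l := by
    have := (Nat.lt_floor_add_one (t / l)).le
    rwa [div_le_iff₀ hl] at this
  have h1 := en_anti hal hk hl hP (by positivity : (0:ℝ) ≤ n * l) hn1
  have hmu := mu_pos (al := al) hA hB n
  have h2 : en l (P (n * l)) ≤ l * (mu al A B n) ^ 2 := by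
    unfold en
    have hcs := hP.cont_s (n * l)
    have : ∫ s in (0:ℝ)..l, (P (n * l) s) ^ 2 ≤ ∫ s in (0:ℝ)..l, (mu al A B n) ^ 2 := by
      apply intervalIntegral.integral_mono_on hl.le
        (Continuous.intervalIntegrable (by fun_prop) _ _) (continuous_const.intervalIntegrable _ _)
      intro s _
      rw [← sq_abs (P (n * l) s)]
      exact pow_le_pow_left₀ (abs_nonneg _) (hsup n s) 2
    refine this.trans (le_of_eq ?_)
    rw [intervalIntegral.integral_const, smul_eq_mul, sub_zero]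
  have h3 : (mu al A B n) ^ 2 = (A + B * n) ^ (-2 / al) := by
    unfold mu
    rw [← Real.rpow_natCast, ← Real.rpow_mul (by positivity)]
    congr 1; push_cast; ring
  have h4 : c0 * (1 + t) ≤ A + B * n := by
    have e1 : c0 * (1 + l) ≤ A := by
      have := min_le_left (A / (1 + l)) (B / l)
      rw [← hc0] at this
      rwa [le_div_iff₀ (by positivity)] at this
    have e2 : c0 * l ≤ B := by
      have := min_le_right (A / (1 + l)) (B / l)
      rw [← hc0] at this
      rwa [le_div_iff₀ hl] at this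
    have e3 : c0 * (1 + t) ≤ c0 * (1 + ((n:ℝ) + 1) * l) :=
      mul_le_mul_of_nonneg_left (by linarith) hc0p.le
    have e4 : c0 * (1 + ((n:ℝ) + 1) * l) = c0 * (1 + l) + (c0 * l) * n := by ring
    have e5 : (c0 * l) * n ≤ B * n := mul_le_mul_of_nonneg_right e2 (by positivity)
    linarith
  have h5 : (A + B * n) ^ (-2 / al) ≤ (c0 * (1 + t)) ^ (-2 / al) :=
    Real.rpow_le_rpow_of_nonpos (by positivity) h4
      (div_nonpos_of_nonpos_of_nonneg (by norm_num) hal.le)
  rw [Real.mul_rpow hc0p.le (by positivity)] at h5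
  rw [h3] at h2
  have h6 := mul_le_mul_of_nonneg_left h5 hl.le
  calc en l (P t) ≤ l * (A + B * n) ^ (-2 / al) := h1.trans h2
    _ ≤ _ := h6
    _ = _ := by ring

/-- lower bound. -/
theorem flow_lower (hal : 0 < al) (hk : 0 < k) (hl : 0 < l) (hP : Flow (fun z => k * phi al z) l P)
    (hmean : ∫ s in (0:ℝ)..l, P 0 s = 0) (he : 0 < en l (P 0)) :
    ∃ c, 0 < c ∧ ∀ t, 0 ≤ t → c * (1 + t) ^ (-2 / al) ≤ en l (P t) := by
  have hb := nice_kphi (al := al) (k := k) hal hk
  obtain ⟨M0, hM0, h0⟩ := exists_sup hl (hP.cont_s 0) (hP.per 0)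
  have hc := cdec_pos (al := al) hk hl hM0
  set A := M0 ^ (-al) with hAd
  set B := al * cdec al k l M0 with hBd
  have hA : 0 < A := Real.rpow_pos_of_pos hM0 _
  have hB : 0 < B := mul_pos hal hc
  have hsup := sup_seq hal hk hl hP hM0 h0 hmean
  have hM' : ∀ t, 0 ≤ t → ∀ s, |P t s| ≤ M0 := fun t ht s => hP.abs_le hl hb le_rfl h0 ht s
  -- choose the starting time
  obtain ⟨n0, hn0⟩ : ∃ n0 : ℕ, (al + 2) * (k * l * (2 * mu al A B n0) ^ al) ≤ 1 / 8 := by
    obtain ⟨n0, hn0⟩ := exists_nat_ge (8 * ((al + 2) * (k * l * 2 ^ al)) / B)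
    refine ⟨n0, ?_⟩
    rw [div_le_iff₀ hB] at hn0
    rw [mu_rpow hal hA hB n0]
    have h1 : 0 < A + B * n0 := by positivity
    have e1 : (al + 2) * (k * l * (2 ^ al / (A + B * n0))) = ((al + 2) * (k * l * 2 ^ al)) / (A + B * n0) := by
      ring
    rw [e1, div_le_iff₀ h1]
    linarith
  have hQ := hP.shift hl.le n0
  have hQ0 : (fun s => P (0 + n0 * l) s) = P (n0 * l) := by funext s; simp
  have hpos0 : 0 < en l (P (n0 * l)) := en_pos hal hk hl hP hM' he (by positivity)
  have hm : ∫ s in (0:ℝ)..l, P (0 + n0 * l) s = 0 := by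
    rw [zero_add, hP.mean_eq hb le_rfl (by positivity : (0:ℝ) ≤ n0 * l), hmean]
  obtain ⟨C, hC0, hC⟩ := small_lower hal hk hl hQ (mu_pos (al := al) hA hB n0)
    (fun s => by simpa using hsup n0 s) hm hn0 (by rw [hQ0]; exact hpos0)
  rw [hQ0] at hC
  set f0 := (en l (P (n0 * l))) ^ (-(al / 2)) with hf0
  have hf0p : 0 < f0 := Real.rpow_pos_of_pos hpos0 _
  set K := f0 + C + C / l with hK
  have hKp : 0 < K := by positivity
  refine ⟨K ^ (-2 / al), Real.rpow_pos_of_pos hKp _, fun t ht => ?_⟩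
  set n := ⌈t / l⌉₊ with hn
  have hn1 : t ≤ n * l := by
    have := Nat.le_ceil (t / l)
    rwa [div_le_iff₀ hl] at this
  have hn2 : (n:ℝ) ≤ t / l + 1 := (Nat.ceil_lt_add_one (by positivity)).le
  have h1 : en l (P (n * l + n0 * l)) ≤ en l (P t) := by
    apply en_anti hal hk hl hP ht
    have : (0:ℝ) ≤ n0 * l := by positivity
    linarith
  refine le_trans ?_ ((hC n).trans h1)
  rw [← Real.mul_rpow hKp.le (by positivity)]
  apply Real.rpow_le_rpow_of_nonpos (by positivity) _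
    (div_nonpos_of_nonpos_of_nonneg (by norm_num) hal.le)
  have h2 : C * n ≤ C * (t / l + 1) := mul_le_mul_of_nonneg_left hn2 hC0
  have h3 : K * (1 + t) = f0 + C + C * (t / l) + (C / l + (f0 + C) * t) := by rw [hK]; ring
  have h4 : 0 ≤ C / l + (f0 + C) * t := by positivity
  rw [h3]; linarith

end Pool.Agent.Helper383.WaveMain
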