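import Mathlib
import Pool.Agent.Helper383.WaveFlow

set_option autoImplicit false

open Set Filter Topology MeasureTheory intervalIntegral

namespace Pool.Agent.Helper383.WaveTrans

open Pool.Agent.Helper383.WaveFlow

/-- total derivative from continuous partial derivatives. -/
theorem fderiv_partials {f f1 f2 : ℝ → ℝ → ℝ} (h1 : ∀ t x, HasDerivAt (fun t => f t x) (f1 t x) t)
    (h2 : ∀ t x, HasDerivAt (f t) (f2 t x) x) (c1 : Continuous (fun q : ℝ × ℝ => f1 q.1 q.2))
    (c2 : Continuous (fun q : ℝ × ℝ => f2 q.1 q.2)) (q : ℝ × ℝ) :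
    HasFDerivAt (fun q : ℝ × ℝ => f q.1 q.2)
      (f1 q.1 q.2 • ContinuousLinearMap.fst ℝ ℝ ℝ + f2 q.1 q.2 • ContinuousLinearMap.snd ℝ ℝ ℝ) q := by
  have e1 : Continuous (fun q : ℝ × ℝ => ContinuousLinearMap.toSpanSingleton ℝ (f1 q.1 q.2)) := by
    have := (ContinuousLinearMap.toSpanSingletonCLE (𝕜 := ℝ) (E := ℝ) ).continuous
    exact this.comp c1
  have e2 : Continuous (fun q : ℝ × ℝ => ContinuousLinearMap.toSpanSingleton ℝ (f2 q.1 q.2)) := by
    have := (ContinuousLinearMap.toSpanSingletonCLE (𝕜 := ℝ) (E := ℝ) ).continuous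
    exact this.comp c2
  have h := hasStrictFDerivAt_uncurry_coprod (𝕜 := ℝ) (u := q) (f := f)
    (f₁ := fun t x => ContinuousLinearMap.toSpanSingleton ℝ (f1 t x))
    (f₂ := fun t x => ContinuousLinearMap.toSpanSingleton ℝ (f2 t x))
    (Eventually.of_forall fun v => (h1 v.1 v.2).hasFDerivAt)
    (Eventually.of_forall fun v => (h2 v.1 v.2).hasFDerivAt)
    e1.continuousAt e2.continuousAt
  have h' := h.hasFDerivAt
  refine h'.congr_fderiv ?_
  ext <;> simp [Function.HasUncurry.uncurry]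

theorem c1_partials {f f1 f2 : ℝ → ℝ → ℝ} (h1 : ∀ t x, HasDerivAt (fun t => f t x) (f1 t x) t)
    (h2 : ∀ t x, HasDerivAt (f t) (f2 t x) x) (c1 : Continuous (fun q : ℝ × ℝ => f1 q.1 q.2))
    (c2 : Continuous (fun q : ℝ × ℝ => f2 q.1 q.2)) : ContDiff ℝ 1 (fun q : ℝ × ℝ => f q.1 q.2) := by
  rw [contDiff_one_iff_fderiv]
  have h := fderiv_partials h1 h2 c1 c2
  refine ⟨fun q => (h q).differentiableAt, ?_⟩
  have : fderiv ℝ (fun q : ℝ × ℝ => f q.1 q.2) = fun q => f1 q.1 q.2 • ContinuousLinearMap.fst ℝ ℝ ℝ +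
      f2 q.1 q.2 • ContinuousLinearMap.snd ℝ ℝ ℝ := by
    funext q; exact (h q).fderiv
  rw [this]
  fun_prop

theorem c2_partials {f f1 f2 : ℝ → ℝ → ℝ} (h1 : ∀ t x, HasDerivAt (fun t => f t x) (f1 t x) t)
    (h2 : ∀ t x, HasDerivAt (f t) (f2 t x) x) (c1 : ContDiff ℝ 1 (fun q : ℝ × ℝ => f1 q.1 q.2))
    (c2 : ContDiff ℝ 1 (fun q : ℝ × ℝ => f2 q.1 q.2)) : ContDiff ℝ 2 (fun q : ℝ × ℝ => f q.1 q.2) := by
  have h := fderiv_partials h1 h2 c1.continuous c2.continuous
  have e2 : (2 : WithTop ℕ∞) = 1 + 1 := by norm_num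
  rw [e2, contDiff_succ_iff_fderiv]
  refine ⟨fun q => (h q).differentiableAt, fun hh => by simp at hh, ?_⟩
  have : fderiv ℝ (fun q : ℝ × ℝ => f q.1 q.2) = fun q => f1 q.1 q.2 • ContinuousLinearMap.fst ℝ ℝ ℝ +
      f2 q.1 q.2 • ContinuousLinearMap.snd ℝ ℝ ℝ := by
    funext q; exact (h q).fderiv
  rw [this]
  fun_prop

/-- chain rule along a line. -/
theorem chain_line {f f1 f2 : ℝ → ℝ → ℝ} (h1 : ∀ t x, HasDerivAt (fun t => f t x) (f1 t x) t)
    (h2 : ∀ t x, HasDerivAt (f t) (f2 t x) x) (c1 : Continuous (fun q : ℝ × ℝ => f1 q.1 q.2))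
    (c2 : Continuous (fun q : ℝ × ℝ => f2 q.1 q.2)) {g1 g2 : ℝ → ℝ} {r g1' g2' : ℝ}
    (hg1 : HasDerivAt g1 g1' r) (hg2 : HasDerivAt g2 g2' r) :
    HasDerivAt (fun r => f (g1 r) (g2 r)) (f1 (g1 r) (g2 r) * g1' + f2 (g1 r) (g2 r) * g2') r := by
  have h := fderiv_partials h1 h2 c1 c2 (g1 r, g2 r)
  have h3 := h.comp_hasDerivAt r (hg1.prodMk hg2)
  refine h3.congr_deriv ?_
  simp

/-- the wave attached to a label function. -/
noncomputable def wave (P : ℝ → ℝ → ℝ) (t x : ℝ) : ℝ := (1 / 2) * ∫ y in (-x)..x, P (2 * t) (t + y)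

section
variable {P Pt Ps : ℝ → ℝ → ℝ}

theorem line_t {g : ℝ → ℝ → ℝ} (hg : Continuous (fun q : ℝ × ℝ => g q.1 q.2)) :
    Continuous (fun q : ℝ × ℝ => g (2 * q.1) (q.1 + q.2)) :=
  hg.comp (Continuous.prodMk (by fun_prop) (by fun_prop))

theorem wave_x (hPs : ∀ t s, HasDerivAt (P t) (Ps t s) s) (t x : ℝ) :
    HasDerivAt (wave P t) ((1 / 2) * (P (2 * t) (t + x) + P (2 * t) (t - x))) x := by
  have hc : Continuous (P (2 * t)) := continuous_iff_continuousAt.mpr fun s => (hPs (2 * t) s).continuousAt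
  set g : ℝ → ℝ := fun y => P (2 * t) (t + y) with hg
  have hgc : Continuous g := hc.comp (by fun_prop)
  have h1 : HasDerivAt (fun x => ∫ y in (0:ℝ)..x, g y) (g x) x :=
    intervalIntegral.integral_hasDerivAt_right (hgc.intervalIntegrable _ _)
      hgc.aestronglyMeasurable.stronglyMeasurableAtFilter hgc.continuousAt
  have h2 : HasDerivAt (fun x => ∫ y in (0:ℝ)..x, g y) (g (-x)) (-x) :=
    intervalIntegral.integral_hasDerivAt_right (hgc.intervalIntegrable _ _)
      hgc.aestronglyMeasurable.stronglyMeasurableAtFilter hgc.continuousAt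
  have h3 := h2.comp x (hasDerivAt_neg x)
  have h4 := (h1.sub h3).const_mul (1 / 2 : ℝ)
  refine (h4.congr_deriv ?_).congr_of_eventuallyEq ?_
  · simp only [hg]; rw [← sub_eq_add_neg t x]; ring
  · refine Eventually.of_forall fun x => ?_
    simp only [wave, Function.comp, Pi.sub_apply]
    rw [← intervalIntegral.integral_interval_sub_left (hgc.intervalIntegrable _ _) (hgc.intervalIntegrable _ _)]

theorem odd_int {g : ℝ → ℝ} (hg : ∀ y, g (-y) = - g y) (x : ℝ) : ∫ y in (-x)..x, g y = 0 := by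
  have h1 : ∫ y in (-x)..x, g (-y) = ∫ y in (-x)..x, g y := by
    rw [intervalIntegral.integral_comp_neg]; simp
  have h2 : ∫ y in (-x)..x, g (-y) = - ∫ y in (-x)..x, g y := by
    rw [← intervalIntegral.integral_neg]; congr 1; funext y; exact hg y
  linarith

theorem wave_t (hPt : ∀ t s, HasDerivAt (fun t => P t s) (Pt t s) t)
    (hPs : ∀ t s, HasDerivAt (P t) (Ps t s) s)
    (hPtc : Continuous (fun q : ℝ × ℝ => Pt q.1 q.2)) (hPsc : Continuous (fun q : ℝ × ℝ => Ps q.1 q.2))
    (hodd : ∀ t s, Pt t (t - s) = - Pt t s) (t x : ℝ) :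
    HasDerivAt (fun t => wave P t x) ((1 / 2) * (P (2 * t) (t + x) - P (2 * t) (t - x))) t := by
  have hline : ∀ y r, HasDerivAt (fun r => P (2 * r) (r + y)) (2 * Pt (2 * r) (r + y) + Ps (2 * r) (r + y)) r := by
    intro y r
    have := chain_line hPt hPs hPtc hPsc (g1 := fun r => 2 * r) (g2 := fun r => r + y) (r := r)
      (g1' := 2) (g2' := 1) (by simpa using (hasDerivAt_id r).const_mul 2) ((hasDerivAt_id r).add_const y)
    refine this.congr_deriv (by ring)
  have hc1 := line_t hPtc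
  have hc2 := line_t hPsc
  have hF : Continuous (fun q : ℝ × ℝ => 2 * Pt (2 * q.1) (q.1 + q.2) + Ps (2 * q.1) (q.1 + q.2)) := by
    fun_prop
  have hPc : Continuous (fun q : ℝ × ℝ => P q.1 q.2) := (c1_partials hPt hPs hPtc hPsc).continuous
  have hc3 := line_t hPc
  set G : ℝ → ℝ := fun r => P (2 * r) (r + x) - P (2 * r) (r - x) with hG
  have hGc : Continuous G := by
    have e1 : Continuous (fun r : ℝ => P (2 * r) (r + x)) := hc3.comp (Continuous.prodMk continuous_id continuous_const)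
    have e2 : Continuous (fun r : ℝ => P (2 * r) (r + (-x))) := hc3.comp (Continuous.prodMk continuous_id continuous_const)
    simp only [← sub_eq_add_neg] at e2
    exact e1.sub e2
  have key : ∀ t, wave P t x = wave P 0 x + (1 / 2) * ∫ r in (0:ℝ)..t, G r := by
    intro t
    have e0 : ∀ r, ∫ y in (-x)..x, (2 * Pt (2 * r) (r + y) + Ps (2 * r) (r + y)) = G r := by
      intro r
      have i1 : Continuous (fun y => Pt (2 * r) (r + y)) := hc1.comp (Continuous.prodMk continuous_const continuous_id)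
      have i2 : Continuous (fun y => Ps (2 * r) (r + y)) := hc2.comp (Continuous.prodMk continuous_const continuous_id)
      rw [intervalIntegral.integral_add ((i1.const_mul 2).intervalIntegrable _ _) (i2.intervalIntegrable _ _),
        intervalIntegral.integral_const_mul]
      have j1 : ∫ y in (-x)..x, Pt (2 * r) (r + y) = 0 := by
        apply odd_int
        intro y
        have := hodd (2 * r) (r + y)
        rw [show 2 * r - (r + y) = r + -y by ring] at this
        exact this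
      have j2 : ∫ y in (-x)..x, Ps (2 * r) (r + y) = P (2 * r) (r + x) - P (2 * r) (r + -x) := by
        apply intervalIntegral.integral_eq_sub_of_hasDerivAt (f := fun y => P (2 * r) (r + y))
        · intro y _
          have := (hPs (2 * r) (r + y)).comp y ((hasDerivAt_id y).const_add r)
          simpa [Function.comp_def] using this
        · exact i2.intervalIntegrable _ _
      rw [j1, j2, hG, mul_zero, zero_add, ← sub_eq_add_neg]
    have e1 : ∀ y, P (2 * t) (t + y) - P (2 * 0) (0 + y) =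
        ∫ r in (0:ℝ)..t, (2 * Pt (2 * r) (r + y) + Ps (2 * r) (r + y)) := by
      intro y
      rw [intervalIntegral.integral_eq_sub_of_hasDerivAt (f := fun r => P (2 * r) (r + y))]
      · intro r _; exact hline y r
      · exact (hF.comp (Continuous.prodMk continuous_id continuous_const)).intervalIntegrable _ _
    have e2 : ∫ r in (0:ℝ)..t, G r = (∫ y in (-x)..x, P (2 * t) (t + y)) - ∫ y in (-x)..x, P (2 * 0) (0 + y) := by
      rw [← intervalIntegral.integral_sub]
      · simp only [e1]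
        rw [← swap_cont (F := fun r y => 2 * Pt (2 * r) (r + y) + Ps (2 * r) (r + y)) hF]
        apply intervalIntegral.integral_congr
        intro r _
        exact (e0 r).symm
      · exact (hc3.comp (Continuous.prodMk continuous_const continuous_id)).intervalIntegrable _ _
      · exact (hc3.comp (Continuous.prodMk continuous_const continuous_id)).intervalIntegrable _ _
    unfold wave
    rw [e2]; ring
  have h1 : HasDerivAt (fun t => ∫ r in (0:ℝ)..t, G r) (G t) t :=
    intervalIntegral.integral_hasDerivAt_right (hGc.intervalIntegrable _ _)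
      hGc.aestronglyMeasurable.stronglyMeasurableAtFilter hGc.continuousAt
  have h2 := (h1.const_mul (1 / 2 : ℝ)).const_add (wave P 0 x)
  refine h2.congr_of_eventuallyEq ?_
  exact Eventually.of_forall fun t => key t

/-- second derivative in time. -/
theorem wave_tt (hPt : ∀ t s, HasDerivAt (fun t => P t s) (Pt t s) t)
    (hPs : ∀ t s, HasDerivAt (P t) (Ps t s) s)
    (hPtc : Continuous (fun q : ℝ × ℝ => Pt q.1 q.2)) (hPsc : Continuous (fun q : ℝ × ℝ => Ps q.1 q.2))
    (t x : ℝ) :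
    HasDerivAt (fun t => (1 / 2) * (P (2 * t) (t + x) - P (2 * t) (t - x)))
      ((1 / 2) * ((2 * Pt (2 * t) (t + x) + Ps (2 * t) (t + x)) -
        (2 * Pt (2 * t) (t - x) + Ps (2 * t) (t - x)))) t := by
  have h2t : HasDerivAt (fun r : ℝ => 2 * r) 2 t := by simpa using (hasDerivAt_id t).const_mul 2
  have a1 := chain_line hPt hPs hPtc hPsc (g1 := fun r => 2 * r) (g2 := fun r => r + x) (r := t)
    (g1' := 2) (g2' := 1) h2t ((hasDerivAt_id t).add_const x)
  have a2 := chain_line hPt hPs hPtc hPsc (g1 := fun r => 2 * r) (g2 := fun r => r - x) (r := t)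
    (g1' := 2) (g2' := 1) h2t ((hasDerivAt_id t).sub_const x)
  exact ((a1.sub a2).const_mul (1 / 2 : ℝ)).congr_deriv (by ring)

/-- second derivative in space. -/
theorem wave_xx (hPs : ∀ t s, HasDerivAt (P t) (Ps t s) s) (t x : ℝ) :
    HasDerivAt (fun x => (1 / 2) * (P (2 * t) (t + x) + P (2 * t) (t - x)))
      ((1 / 2) * (Ps (2 * t) (t + x) - Ps (2 * t) (t - x))) x := by
  have a1 := (hPs (2 * t) (t + x)).comp x ((hasDerivAt_id x).const_add t)
  have a2 := (hPs (2 * t) (t - x)).comp x ((hasDerivAt_id x).const_sub t)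
  exact ((a1.add a2).const_mul (1 / 2 : ℝ)).congr_deriv (by ring)

theorem wave_contDiff (hPt : ∀ t s, HasDerivAt (fun t => P t s) (Pt t s) t)
    (hPs : ∀ t s, HasDerivAt (P t) (Ps t s) s)
    (hPtc : Continuous (fun q : ℝ × ℝ => Pt q.1 q.2)) (hPsc : Continuous (fun q : ℝ × ℝ => Ps q.1 q.2))
    (hodd : ∀ t s, Pt t (t - s) = - Pt t s) : ContDiff ℝ 2 (fun q : ℝ × ℝ => wave P q.1 q.2) := by
  have hP1 := c1_partials hPt hPs hPtc hPsc
  have hp : ContDiff ℝ 1 (fun q : ℝ × ℝ => P (2 * q.1) (q.1 + q.2)) :=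
    hP1.comp (f := fun q : ℝ × ℝ => (2 * q.1, q.1 + q.2)) (by fun_prop)
  have hm : ContDiff ℝ 1 (fun q : ℝ × ℝ => P (2 * q.1) (q.1 - q.2)) :=
    hP1.comp (f := fun q : ℝ × ℝ => (2 * q.1, q.1 - q.2)) (by fun_prop)
  apply c2_partials (wave_t hPt hPs hPtc hPsc hodd) (wave_x hPs)
  · exact contDiff_const.mul (hp.sub hm)
  · exact contDiff_const.mul (hp.add hm)

end

end Pool.Agent.Helper383.WaveTrans
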