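import Mathlib
import Pool.Agent.Helper383.WaveMain
import Pool.Agent.Helper383.WaveExist
import Pool.Agent.Helper383.WaveTrans

set_option autoImplicit false

open Set Filter Topology MeasureTheory intervalIntegral

namespace Pool.Agent.Helper383.WaveClassical

open Pool.Agent.Helper383.WavePhi Pool.Agent.Helper383.WaveFlow Pool.Agent.Helper383.WaveSup
open Pool.Agent.Helper383.WaveRay Pool.Agent.Helper383.WaveMain Pool.Agent.Helper383.WaveExist
open Pool.Agent.Helper383.WaveTrans

/-- continuous periodic functions live on the circle. -/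
theorem lift_circle {l : ℝ} {f : ℝ → ℝ} (hf : Continuous f) (hper : ∀ s, f (s + l) = f s) :
    ∃ F : C(AddCircle l, ℝ), ∀ s : ℝ, F (s : AddCircle l) = f s := by
  have hp : Function.Periodic f l := hper
  refine ⟨⟨hp.lift, ?_⟩, fun s => rfl⟩
  exact continuous_coinduced_dom.mpr hf

/-- everything about the wave of a smooth label flow. -/
theorem exists_wave {al k l : ℝ} (hal : 0 < al) (hk : 0 < k) (hl : 0 < l) {f f' : ℝ → ℝ}
    (hf : ∀ s, HasDerivAt f (f' s) s) (hf' : Continuous f') (hper : ∀ s, f (s + l) = f s) :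
    ∃ P Pt Ps : ℝ → ℝ → ℝ, Flow (fun z => k * phi al z) l P ∧ (∀ s : ℝ, P 0 s = f s) ∧
      Continuous (fun q : ℝ × ℝ => Pt q.1 q.2) ∧ Continuous (fun q : ℝ × ℝ => Ps q.1 q.2) ∧
      (∀ t s, HasDerivAt (fun t => P t s) (Pt t s) t) ∧ (∀ t s, HasDerivAt (P t) (Ps t s) s) ∧
      (∀ t s, Pt t (t - s) = - Pt t s) ∧
      (∀ t, 0 ≤ t → ∀ s, Pt t s = - (k * phi al (P t s - P t (t - s)))) := by
  haveI : Fact (0 < l) := ⟨hl⟩
  have hfc : Continuous f := continuous_iff_continuousAt.mpr fun s => (hf s).continuousAt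
  have hper' : ∀ s, f' (s + l) = f' s := by
    intro s
    have h1 : HasDerivAt (fun s => f (s + l)) (f' (s + l)) s := by
      have := (hf (s + l)).comp s ((hasDerivAt_id s).add_const l)
      simpa [Function.comp_def] using this
    have h2 : (fun s => f (s + l)) = f := funext hper
    rw [h2] at h1
    exact h1.unique (hf s)
  obtain ⟨p0, hp0⟩ := lift_circle hfc hper
  obtain ⟨p1, hp1⟩ := lift_circle hf' hper'
  obtain ⟨P, Pt, Ps, h1, h2, h3⟩ := exists_flow hal hk p0 p1 (by
    intro s
    have : (fun s : ℝ => p0 (s : AddCircle l)) = f := funext hp0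
    rw [this, hp1]; exact hf s)
  exact ⟨P, Pt, Ps, h1, fun s => by rw [h2, hp0], h3⟩

/-- the energy of the wave is half the label energy. -/
theorem energy_wave {L : ℝ} (hL : 0 < L) {p : ℝ → ℝ} (hp : Continuous p)
    (hper : ∀ s, p (s + 2 * L) = p s) (t : ℝ) :
    ∫ x in (0:ℝ)..L, (((1 / 2) * (p (t + x) - p (t - x))) ^ 2 + ((1 / 2) * (p (t + x) + p (t - x))) ^ 2) =
      (1 / 2) * en (2 * L) p := by
  have e1 : ∀ x, (((1 / 2) * (p (t + x) - p (t - x))) ^ 2 + ((1 / 2) * (p (t + x) + p (t - x))) ^ 2) =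
      (1 / 2) * (p (t + x)) ^ 2 + (1 / 2) * (p (t - x)) ^ 2 := by intro x; ring
  simp only [e1]
  rw [intervalIntegral.integral_add (Continuous.intervalIntegrable (by fun_prop) _ _)
    (Continuous.intervalIntegrable (by fun_prop) _ _), intervalIntegral.integral_const_mul,
    intervalIntegral.integral_const_mul,
    intervalIntegral.integral_comp_add_left (fun y => (p y) ^ 2) t,
    intervalIntegral.integral_comp_sub_left (fun y => (p y) ^ 2) t]
  have hi : ∀ a b : ℝ, IntervalIntegrable (fun y => (p y) ^ 2) volume a b := fun a b =>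
    Continuous.intervalIntegrable (by fun_prop) _ _
  have e2 : (∫ x in (t - L)..(t - 0), (p x) ^ 2) + ∫ x in (t + 0)..(t + L), (p x) ^ 2 = en (2 * L) p := by
    rw [sub_zero, add_zero, intervalIntegral.integral_add_adjacent_intervals (hi _ _) (hi _ _)]
    have := int_shift (l := 2 * L) (f := fun y => (p y) ^ 2) (fun s => by simp only [hper]) (t - L)
    rw [show t - L + 2 * L = t + L by ring] at this
    exact this
  rw [← e2]; ring

theorem wave_zero (P : ℝ → ℝ → ℝ) (t : ℝ) : wave P t 0 = 0 := by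
  unfold wave; simp

theorem wave_L {P : ℝ → ℝ → ℝ} {L : ℝ} (hper : ∀ t s, P t (s + 2 * L) = P t s) (t : ℝ)
    (hm : ∫ s in (0:ℝ)..(2 * L), P (2 * t) s = 0) : wave P t L = 0 := by
  unfold wave
  rw [intervalIntegral.integral_comp_add_left (fun y => P (2 * t) y) t]
  have := int_shift (l := 2 * L) (f := P (2 * t)) (hper _) (t + -L)
  rw [show t + -L + 2 * L = t + L by ring] at this
  rw [this, hm, mul_zero]

end Pool.Agent.Helper383.WaveClassical
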