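import Mathlib

set_option autoImplicit false

open Set MeasureTheory

namespace Pool.Agent.Helper383.WaveDefs

/-- Classical solutions, twice continuously differentiable up to the boundary, of
`u_tt - u_xx + a |u_t|^al u_t = 0` for `t >= 0` and `A <= x <= B` with `u = 0` at `x = A` and
`x = B`. The first argument of `u` is time and the second is space. -/
structure IsClassicalSolution (a al A B : ℝ) (u : ℝ → ℝ → ℝ) : Prop where
  smooth : ContDiff ℝ 2 (fun q : ℝ × ℝ => u q.1 q.2)
  equation : ∀ t x : ℝ, 0 ≤ t → x ∈ Icc A B →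
    deriv (fun r => deriv (fun r' => u r' x) r) t - deriv (fun y => deriv (fun y' => u t y') y) x
      + a * (|deriv (fun r => u r x) t| ^ al * deriv (fun r => u r x) t) = 0
  left_bdry : ∀ t : ℝ, 0 ≤ t → u t A = 0
  right_bdry : ∀ t : ℝ, 0 ≤ t → u t B = 0

/-- Squared distance in the energy norm on `(A, B)` between the states `(v, w)` and `(v', w')`,
where `v` stands for the velocity `u_t` and `w` for the slope `u_x`. -/
noncomputable def energyDist (A B : ℝ) (v w v' w' : ℝ → ℝ) : ℝ :=
  ∫ x in A..B, ((v x - v' x) ^ 2 + (w x - w' x) ^ 2)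

/-- Solutions in the energy space, described by their velocity `v = u_t` and slope `w = u_x`:
for every time `t >= 0` the functions `v t` and `w t` are square integrable on `(A, B)`, and on
every bounded time interval `(v, w)` is the uniform limit, in the energy norm, of
`(u_t, u_x)` for classical solutions `u`. -/
structure IsEnergySolution (a al A B : ℝ) (v w : ℝ → ℝ → ℝ) : Prop where
  memLp_velocity : ∀ t : ℝ, 0 ≤ t → MemLp (v t) 2 (volume.restrict (Ioo A B))
  memLp_slope : ∀ t : ℝ, 0 ≤ t → MemLp (w t) 2 (volume.restrict (Ioo A B))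
  approx : ∀ T e : ℝ, 0 < e → ∃ u : ℝ → ℝ → ℝ, IsClassicalSolution a al A B u ∧
    ∀ t : ℝ, 0 ≤ t → t ≤ T →
      energyDist A B (fun x => deriv (fun r => u r x) t) (fun x => deriv (u t) x) (v t) (w t) < e

/-- The energy of the state with velocity `v` and slope `w`: the integral of `v ^ 2 + w ^ 2`. -/
noncomputable def energy (A B : ℝ) (v w : ℝ → ℝ) : ℝ := ∫ x in A..B, ((v x) ^ 2 + (w x) ^ 2)

end Pool.Agent.Helper383.WaveDefs
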