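import Mathlib
import Pool.Agent.Helper383.WaveDefs
import Pool.Agent.Helper383.WavePhi
import Pool.Agent.Helper383.WaveFlow

set_option autoImplicit false

open Set Filter Topology MeasureTheory intervalIntegral

namespace Pool.Agent.Helper383.WaveContr

open Pool.Agent.Helper383.WavePhi Pool.Agent.Helper383.WaveDefs Pool.Agent.Helper383.WaveFlow

section partials
variable {f : ℝ → ℝ → ℝ}

theorem part_t (hf : ContDiff ℝ 1 (fun q : ℝ × ℝ => f q.1 q.2)) (t x : ℝ) :
    HasDerivAt (fun r => f r x) (deriv (fun r => f r x) t) t := by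
  have h1 : Differentiable ℝ (fun q : ℝ × ℝ => f q.1 q.2) := hf.differentiable (by norm_num)
  have h2 : DifferentiableAt ℝ (fun r => f r x) t :=
    (h1 (t, x)).comp t (f := fun r : ℝ => (r, x)) (by fun_prop)
  exact h2.hasDerivAt

theorem part_x (hf : ContDiff ℝ 1 (fun q : ℝ × ℝ => f q.1 q.2)) (t x : ℝ) :
    HasDerivAt (f t) (deriv (f t) x) x := by
  have h1 : Differentiable ℝ (fun q : ℝ × ℝ => f q.1 q.2) := hf.differentiable (by norm_num)
  have h2 : DifferentiableAt ℝ (f t) x :=
    (h1 (t, x)).comp x (f := fun y : ℝ => (t, y)) (by fun_prop)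
  exact h2.hasDerivAt

theorem part_t_eq (hf : ContDiff ℝ 1 (fun q : ℝ × ℝ => f q.1 q.2)) (t x : ℝ) :
    deriv (fun r => f r x) t = fderiv ℝ (fun q : ℝ × ℝ => f q.1 q.2) (t, x) (1, 0) := by
  have h1 : Differentiable ℝ (fun q : ℝ × ℝ => f q.1 q.2) := hf.differentiable (by norm_num)
  have h2 : HasDerivAt (fun r : ℝ => (r, x)) ((1:ℝ), (0:ℝ)) t := (hasDerivAt_id t).prodMk (hasDerivAt_const t x)
  exact ((h1 (t, x)).hasFDerivAt.comp_hasDerivAt t h2).deriv

theorem part_x_eq (hf : ContDiff ℝ 1 (fun q : ℝ × ℝ => f q.1 q.2)) (t x : ℝ) :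
    deriv (f t) x = fderiv ℝ (fun q : ℝ × ℝ => f q.1 q.2) (t, x) (0, 1) := by
  have h1 : Differentiable ℝ (fun q : ℝ × ℝ => f q.1 q.2) := hf.differentiable (by norm_num)
  have h2 : HasDerivAt (fun r : ℝ => (t, r)) ((0:ℝ), (1:ℝ)) x := (hasDerivAt_const x t).prodMk (hasDerivAt_id x)
  exact ((h1 (t, x)).hasFDerivAt.comp_hasDerivAt x h2).deriv

theorem cont_t (hf : ContDiff ℝ 1 (fun q : ℝ × ℝ => f q.1 q.2)) :
    Continuous (fun q : ℝ × ℝ => deriv (fun r => f r q.2) q.1) := by
  simp only [part_t_eq hf]
  exact (hf.continuous_fderiv (by norm_num)).clm_apply continuous_const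

theorem cont_x (hf : ContDiff ℝ 1 (fun q : ℝ × ℝ => f q.1 q.2)) :
    Continuous (fun q : ℝ × ℝ => deriv (f q.1) q.2) := by
  simp only [part_x_eq hf]
  exact (hf.continuous_fderiv (by norm_num)).clm_apply continuous_const

theorem smooth_t (hf : ContDiff ℝ 2 (fun q : ℝ × ℝ => f q.1 q.2)) :
    ContDiff ℝ 1 (fun q : ℝ × ℝ => deriv (fun r => f r q.2) q.1) := by
  simp only [part_t_eq (hf.of_le (by norm_num))]
  exact (hf.fderiv_right (m := 1) (by norm_num)).clm_apply contDiff_const

theorem smooth_x (hf : ContDiff ℝ 2 (fun q : ℝ × ℝ => f q.1 q.2)) :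
    ContDiff ℝ 1 (fun q : ℝ × ℝ => deriv (f q.1) q.2) := by
  simp only [part_x_eq (hf.of_le (by norm_num))]
  exact (hf.fderiv_right (m := 1) (by norm_num)).clm_apply contDiff_const

/-- mixed derivatives commute. -/
theorem mixed (hf : ContDiff ℝ 2 (fun q : ℝ × ℝ => f q.1 q.2)) (t x : ℝ) :
    deriv (fun r => deriv (f r) x) t = deriv (fun y => deriv (fun r => f r y) t) x := by
  have h1 : ContDiff ℝ 1 (fun q : ℝ × ℝ => f q.1 q.2) := hf.of_le (by norm_num)
  have hd : Differentiable ℝ (fderiv ℝ (fun q : ℝ × ℝ => f q.1 q.2)) :=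
    (hf.fderiv_right (m := 1) (by norm_num)).differentiable (by norm_num)
  have e1 := part_t_eq (f := fun t x => deriv (f t) x) (smooth_x hf) t x
  have e2 := part_x_eq (f := fun t x => deriv (fun r => f r x) t) (smooth_t hf) t x
  rw [e1, e2]
  have hA : (fun q : ℝ × ℝ => deriv (f q.1) q.2) =
      fun q => fderiv ℝ (fun q : ℝ × ℝ => f q.1 q.2) q (0, 1) := by
    funext q; exact part_x_eq h1 q.1 q.2
  have hB : (fun q : ℝ × ℝ => deriv (fun r => f r q.2) q.1) =
      fun q => fderiv ℝ (fun q : ℝ × ℝ => f q.1 q.2) q (1, 0) := by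
    funext q; exact part_t_eq h1 q.1 q.2
  rw [hA, hB]
  have g1 : ∀ v : ℝ × ℝ, fderiv ℝ (fun q => fderiv ℝ (fun q : ℝ × ℝ => f q.1 q.2) q v) (t, x) =
      (ContinuousLinearMap.apply ℝ ℝ v).comp (fderiv ℝ (fderiv ℝ (fun q : ℝ × ℝ => f q.1 q.2)) (t, x)) := by
    intro v
    have := ((ContinuousLinearMap.apply ℝ ℝ v).hasFDerivAt.comp (t, x) (hd (t, x)).hasFDerivAt).fderiv
    exact this
  rw [g1, g1]
  have hsym := (hf.contDiffAt (x := (t, x))).isSymmSndFDerivAt (by simp)
  exact hsym (1, 0) (0, 1)

end partials

/-- the time derivative vanishes where the function vanishes for all nonnegative times. -/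
theorem deriv_bdry {g : ℝ → ℝ} (hg : ∀ t, 0 ≤ t → g t = 0) (hc : Continuous (deriv g)) (t : ℝ)
    (ht : 0 ≤ t) : deriv g t = 0 := by
  have h1 : ∀ t, 0 < t → deriv g t = 0 := by
    intro t ht
    have : g =ᶠ[𝓝 t] fun _ => 0 := by
      filter_upwards [Ioi_mem_nhds ht] with r hr
      exact hg r (le_of_lt hr)
    rw [this.deriv_eq]; simp
  rcases ht.eq_or_lt with h | h
  · subst h
    have h2 : Tendsto (deriv g) (𝓝[>] 0) (𝓝 (deriv g 0)) := hc.continuousAt.mono_left nhdsWithin_le_nhds
    have h3 : Tendsto (deriv g) (𝓝[>] 0) (𝓝 0) := by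
      apply tendsto_const_nhds.congr'
      filter_upwards [self_mem_nhdsWithin] with r hr
      exact (h1 r hr).symm
    exact tendsto_nhds_unique h2 h3
  · exact h1 t h

/-- classical solutions are a contraction in the energy norm. -/
theorem contraction {a al A B : ℝ} (ha : 0 < a) (hal : 0 < al) (hAB : A ≤ B) {u v : ℝ → ℝ → ℝ}
    (hu : IsClassicalSolution a al A B u) (hv : IsClassicalSolution a al A B v) {t : ℝ} (ht : 0 ≤ t) :
    energyDist A B (fun x => deriv (fun r => u r x) t) (fun x => deriv (u t) x)
        (fun x => deriv (fun r => v r x) t) (fun x => deriv (v t) x) ≤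
      energyDist A B (fun x => deriv (fun r => u r x) 0) (fun x => deriv (u 0) x)
        (fun x => deriv (fun r => v r x) 0) (fun x => deriv (v 0) x) := by
  have hu1 := hu.smooth.of_le (m := 1) (by norm_num)
  have hv1 := hv.smooth.of_le (m := 1) (by norm_num)
  set w : ℝ → ℝ → ℝ := fun t x => u t x - v t x with hw
  have hws : ContDiff ℝ 2 (fun q : ℝ × ℝ => w q.1 q.2) := hu.smooth.sub hv.smooth
  have hw1 := hws.of_le (m := 1) (by norm_num)
  obtain ⟨wt, hwt⟩ : ∃ wt : ℝ → ℝ → ℝ, ∀ t x, wt t x = deriv (fun r => w r x) t := ⟨_, fun _ _ => rfl⟩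
  obtain ⟨wx, hwx⟩ : ∃ wx : ℝ → ℝ → ℝ, ∀ t x, wx t x = deriv (w t) x := ⟨_, fun _ _ => rfl⟩
  have hwt' : wt = fun t x => deriv (fun r => w r x) t := by funext t x; exact hwt t x
  have hwx' : wx = fun t x => deriv (w t) x := by funext t x; exact hwx t x
  have swt : ContDiff ℝ 1 (fun q : ℝ × ℝ => wt q.1 q.2) := by rw [hwt']; exact smooth_t hws
  have swx : ContDiff ℝ 1 (fun q : ℝ × ℝ => wx q.1 q.2) := by rw [hwx']; exact smooth_x hws
  have hmix : ∀ t x, deriv (fun r => wx r x) t = deriv (wt t) x := by
    intro t x
    rw [hwt', hwx']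
    exact mixed hws t x
  -- expressions of the differences
  have d1 : ∀ t x, deriv (fun r => u r x) t - deriv (fun r => v r x) t = wt t x := by
    intro t x
    rw [hwt]
    exact ((part_t hu1 t x).sub (part_t hv1 t x)).deriv.symm
  have d2 : ∀ t x, deriv (u t) x - deriv (v t) x = wx t x := by
    intro t x
    rw [hwx]
    exact ((part_x hu1 t x).sub (part_x hv1 t x)).deriv.symm
  have d3 : ∀ t x, deriv (fun r => deriv (fun r' => u r' x) r) t - deriv (fun r => deriv (fun r' => v r' x) r) t =
      deriv (fun r => wt r x) t := by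
    intro t x
    have h1 := (part_t (f := fun t x => deriv (fun r => u r x) t) (smooth_t hu.smooth) t x).sub
      (part_t (f := fun t x => deriv (fun r => v r x) t) (smooth_t hv.smooth) t x)
    have h2 : (fun r => wt r x) = fun r => deriv (fun r' => u r' x) r - deriv (fun r' => v r' x) r := by
      funext r; exact (d1 r x).symm
    rw [h2]
    exact h1.deriv.symm
  have d4 : ∀ t x, deriv (fun y => deriv (fun y' => u t y') y) x - deriv (fun y => deriv (fun y' => v t y') y) x =
      deriv (wx t) x := by
    intro t x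
    have h1 := (part_x (f := fun t x => deriv (u t) x) (smooth_x hu.smooth) t x).sub
      (part_x (f := fun t x => deriv (v t) x) (smooth_x hv.smooth) t x)
    have h2 : wx t = fun y => deriv (u t) y - deriv (v t) y := by
      funext y; exact (d2 t y).symm
    rw [h2]
    exact h1.deriv.symm
  -- boundary values
  have bA : ∀ t, 0 ≤ t → wt t A = 0 := by
    intro t ht
    rw [hwt]
    apply deriv_bdry (g := fun r => w r A) _ _ t ht
    · intro t ht
      simp only [hw]
      rw [hu.left_bdry t ht, hv.left_bdry t ht, sub_self]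
    · have := cont_t hw1
      exact this.comp (Continuous.prodMk continuous_id continuous_const)
  have bB : ∀ t, 0 ≤ t → wt t B = 0 := by
    intro t ht
    rw [hwt]
    apply deriv_bdry (g := fun r => w r B) _ _ t ht
    · intro t ht
      simp only [hw]
      rw [hu.right_bdry t ht, hv.right_bdry t ht, sub_self]
    · have := cont_t hw1
      exact this.comp (Continuous.prodMk continuous_id continuous_const)
  have cwt := swt.continuous
  have cwx := swx.continuous
  have cwtt := cont_t (f := wt) swt
  have cwxt := cont_t (f := wx) swx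
  have cwtx := cont_x (f := wt) swt
  have cwxx := cont_x (f := wx) swx
  -- the dissipation
  have hdiss : ∀ r, 0 ≤ r → ∫ x in A..B, (2 * (wt r x * deriv (fun r => wt r x) r) +
      2 * (wx r x * deriv (fun r => wx r x) r)) ≤ 0 := by
    intro r hr
    have k1 : Continuous (fun x => deriv (wt r) x) := cwtx.comp (Continuous.prodMk continuous_const continuous_id)
    have k2 : Continuous (fun x => deriv (wx r) x) := cwxx.comp (Continuous.prodMk continuous_const continuous_id)
    have k3 : Continuous (fun x => deriv (fun r => wt r x) r) :=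
      cwtt.comp (f := fun x : ℝ => (r, x)) (Continuous.prodMk continuous_const continuous_id)
    have k4 : Continuous (fun x => wt r x) := cwt.comp (Continuous.prodMk continuous_const continuous_id)
    have k5 : Continuous (fun x => wx r x) := cwx.comp (Continuous.prodMk continuous_const continuous_id)
    have e1 : ∫ x in A..B, (wt r x * deriv (wx r) x + deriv (wt r) x * wx r x) = 0 := by
      have : ∀ x ∈ uIcc A B, HasDerivAt (fun x => wt r x * wx r x)
          (deriv (wt r) x * wx r x + wt r x * deriv (wx r) x) x := fun x _ =>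
        (part_x swt r x).mul (part_x swx r x)
      have h1 := intervalIntegral.integral_eq_sub_of_hasDerivAt this
        (((k1.mul k5).add (k4.mul k2)).intervalIntegrable A B)
      rw [bA r hr, bB r hr, zero_mul, zero_mul, sub_zero] at h1
      rw [← h1]
      apply intervalIntegral.integral_congr
      intro x _
      simp only
      ring
    have e2 : ∫ x in A..B, (2 * (wt r x * deriv (fun r => wt r x) r) +
        2 * (wx r x * deriv (fun r => wx r x) r)) =
        (∫ x in A..B, 2 * (wt r x * (deriv (fun r => wt r x) r - deriv (wx r) x))) +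
        2 * ∫ x in A..B, (wt r x * deriv (wx r) x + deriv (wt r) x * wx r x) := by
      rw [← intervalIntegral.integral_const_mul, ← intervalIntegral.integral_add]
      · apply intervalIntegral.integral_congr
        intro x _
        simp only [hmix]
        ring
      · apply Continuous.intervalIntegrable
        exact continuous_const.mul (k4.mul (k3.sub k2))
      · apply Continuous.intervalIntegrable
        exact continuous_const.mul ((k4.mul k2).add (k1.mul k5))
    rw [e2, e1, mul_zero, add_zero]
    have e3 : ∫ x in A..B, 2 * (wt r x * (deriv (fun r => wt r x) r - deriv (wx r) x)) ≤ ∫ x in A..B, (0:ℝ) := by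
      apply intervalIntegral.integral_mono_on hAB
      · apply Continuous.intervalIntegrable
        exact continuous_const.mul (k4.mul (k3.sub k2))
      · exact continuous_const.intervalIntegrable _ _
      · intro x hx
        have p1 := hu.equation r x hr hx
        have p2 := hv.equation r x hr hx
        have p3 := d3 r x
        have p4 := d4 r x
        set U := deriv (fun r => u r x) r with hU
        set V := deriv (fun r => v r x) r with hV
        have p5 : deriv (fun r => wt r x) r - deriv (wx r) x = - (a * (phi al U - phi al V)) := by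
          simp only [phi]
          linarith
        rw [p5, ← d1 r x, ← hU, ← hV]
        have p6 : 0 ≤ (U - V) * (phi al U - phi al V) := by
          rcases le_total U V with h | h
          · exact mul_nonneg_of_nonpos_of_nonpos (sub_nonpos.mpr h) (sub_nonpos.mpr (phi_mono hal h))
          · exact mul_nonneg (sub_nonneg.mpr h) (sub_nonneg.mpr (phi_mono hal h))
        have p7 : 0 ≤ a * ((U - V) * (phi al U - phi al V)) := mul_nonneg ha.le p6
        linarith
    simpa using e3
  -- fundamental theorem
  have hF : Continuous (fun q : ℝ × ℝ => 2 * (wt q.1 q.2 * deriv (fun r => wt r q.2) q.1) +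
      2 * (wx q.1 q.2 * deriv (fun r => wx r q.2) q.1)) := by fun_prop
  have hft : (∫ x in A..B, ((wt t x) ^ 2 + (wx t x) ^ 2)) - (∫ x in A..B, ((wt 0 x) ^ 2 + (wx 0 x) ^ 2)) =
      ∫ r in (0:ℝ)..t, ∫ x in A..B, (2 * (wt r x * deriv (fun r => wt r x) r) +
      2 * (wx r x * deriv (fun r => wx r x) r)) := by
    rw [swap_cont (F := fun r x => 2 * (wt r x * deriv (fun r => wt r x) r) +
      2 * (wx r x * deriv (fun r => wx r x) r)) hF, ← intervalIntegral.integral_sub]
    · apply intervalIntegral.integral_congr
      intro x _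
      simp only
      rw [intervalIntegral.integral_eq_sub_of_hasDerivAt (f := fun r => (wt r x) ^ 2 + (wx r x) ^ 2)]
      · intro r _
        have h1 := ((part_t swt r x).pow 2).add ((part_t swx r x).pow 2)
        refine h1.congr_deriv ?_
        simp only [Nat.cast_ofNat, Nat.add_one_sub_one, pow_one]
        ring
      · exact (hF.comp (Continuous.prodMk continuous_id continuous_const)).intervalIntegrable _ _
    · have c1 : Continuous (wt t) := cwt.comp (Continuous.prodMk continuous_const continuous_id)
      have c2 : Continuous (wx t) := cwx.comp (Continuous.prodMk continuous_const continuous_id)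
      exact ((c1.pow 2).add (c2.pow 2)).intervalIntegrable _ _
    · have c1 : Continuous (wt 0) := cwt.comp (Continuous.prodMk continuous_const continuous_id)
      have c2 : Continuous (wx 0) := cwx.comp (Continuous.prodMk continuous_const continuous_id)
      exact ((c1.pow 2).add (c2.pow 2)).intervalIntegrable _ _
  have hneg : ∫ r in (0:ℝ)..t, ∫ x in A..B, (2 * (wt r x * deriv (fun r => wt r x) r) +
      2 * (wx r x * deriv (fun r => wx r x) r)) ≤ 0 := by
    have : ∫ r in (0:ℝ)..t, ∫ x in A..B, (2 * (wt r x * deriv (fun r => wt r x) r) +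
      2 * (wx r x * deriv (fun r => wx r x) r)) ≤ ∫ r in (0:ℝ)..t, (0:ℝ) := by
      apply intervalIntegral.integral_mono_on ht
      · exact (cont_param (F := fun r x => 2 * (wt r x * deriv (fun r => wt r x) r) +
          2 * (wx r x * deriv (fun r => wx r x) r)) hF A B).intervalIntegrable _ _
      · exact continuous_const.intervalIntegrable _ _
      · intro r hr; exact hdiss r hr.1
    simpa using this
  unfold energyDist
  simp only [d1, d2]
  linarith

end Pool.Agent.Helper383.WaveContr
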