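import Mathlib
import Pool.Agent.Helper383.WaveSeq2

set_option autoImplicit false

open Set Filter Topology MeasureTheory intervalIntegral

namespace Pool.Agent.Helper383.WaveUnif

open Pool.Agent.Helper383.WavePhi Pool.Agent.Helper383.WaveFlow Pool.Agent.Helper383.WaveSup
open Pool.Agent.Helper383.WaveRay Pool.Agent.Helper383.WaveSeq Pool.Agent.Helper383.WaveSeq2

variable {al k l : ℝ}

/-- uniform positivity on bounded times. -/
theorem en_pos_unif (hal : 0 < al) (hk : 0 < k) (hl : 0 < l) {M0 : ℝ} (hM0 : 0 < M0) (T : ℝ) :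
    ∃ r, 0 < r ∧ ∀ P : ℝ → ℝ → ℝ, Flow (fun z => k * phi al z) l P → (∀ s, |P 0 s| ≤ M0) →
      ∀ t, 0 ≤ t → t ≤ T → r * en l (P 0) ≤ en l (P t) := by
  have hb := nice_kphi (al := al) (k := k) hal hk
  obtain ⟨h, hh, hh2⟩ : ∃ h : ℝ, 0 < h ∧ 4 * k * (2 * M0) ^ al * h ≤ 1 / 2 := by
    refine ⟨1 / (8 * k * (2 * M0) ^ al + 1), by positivity, ?_⟩
    rw [mul_one_div, div_le_iff₀ (by positivity)]
    linarith
  obtain ⟨n, hn⟩ := exists_nat_ge (T / h)
  refine ⟨(1 / 2) ^ n, by positivity, fun P hP h0 t ht htT => ?_⟩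
  have hM : ∀ t, 0 ≤ t → ∀ s, |P t s| ≤ M0 := fun t ht s => hP.abs_le hl hb le_rfl h0 ht s
  have h1 : ∀ n : ℕ, (1 / 2) ^ n * en l (P 0) ≤ en l (P (n * h)) := by
    intro n
    induction n with
    | zero => simp
    | succ n ih =>
      have := en_half hal hk hl hP hM (a := n * h) (b := (n + 1 : ℕ) * h) (by positivity)
        (by push_cast; nlinarith) (by push_cast; rw [show ((n:ℝ) + 1) * h - n * h = h by ring]; exact hh2)
      rw [pow_succ]
      linarith
  have h2 : t ≤ n * h := by rw [div_le_iff₀ hh] at hn; linarith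
  exact (h1 n).trans (en_anti hal hk hl hP ht h2)

/-- uniform upper bound. -/
theorem flow_upper_unif (hal : 0 < al) (hk : 0 < k) (hl : 0 < l) {M0 : ℝ} (hM0 : 0 < M0) :
    ∃ C, 0 < C ∧ ∀ P : ℝ → ℝ → ℝ, Flow (fun z => k * phi al z) l P → (∀ s, |P 0 s| ≤ M0) →
      (∫ s in (0:ℝ)..l, P 0 s = 0) → ∀ t, 0 ≤ t → en l (P t) ≤ C * (1 + t) ^ (-2 / al) := by
  have hc := cdec_pos (al := al) hk hl hM0
  set A := M0 ^ (-al) with hAd
  set B := al * cdec al k l M0 with hBd
  have hA : 0 < A := Real.rpow_pos_of_pos hM0 _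
  have hB : 0 < B := mul_pos hal hc
  set c0 := min (A / (1 + l)) (B / l) with hc0
  have hc0p : 0 < c0 := lt_min (by positivity) (by positivity)
  refine ⟨l * c0 ^ (-2 / al), by positivity, fun P hP h0 hmean t ht => ?_⟩
  have hsup := sup_seq hal hk hl hP hM0 h0 hmean
  set n := ⌊t / l⌋₊ with hn
  have hn1 : (n:ℝ) * l ≤ t := by
    have := Nat.floor_le (by positivity : 0 ≤ t / l)
    rwa [le_div_iff₀ hl] at this
  have hn2 : t ≤ ((n:ℝ) + 1) * l := by
    have := (Nat.lt_floor_add_one (t / l)).le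
    rwa [div_le_iff₀ hl] at this
  have h1 := en_anti hal hk hl hP (by positivity : (0:ℝ) ≤ n * l) hn1
  have hmu := mu_pos (al := al) hA hB n
  have h2 : en l (P (n * l)) ≤ l * (mu al A B n) ^ 2 := by
    unfold en
    have hcs := hP.cont_s (n * l)
    have : ∫ s in (0:ℝ)..l, (P (n * l) s) ^ 2 ≤ ∫ s in (0:ℝ)..l, (mu al A B n) ^ 2 := by
      apply intervalIntegral.integral_mono_on hl.le
        (Continuous.intervalIntegrable (by fun_prop) _ _) (continuous_const.intervalIntegrable _ _)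
      intro s _
      rw [← sq_abs (P (n * l) s)]
      exact pow_le_pow_left₀ (abs_nonneg _) (hsup n s) 2
    refine this.trans (le_of_eq ?_)
    rw [intervalIntegral.integral_const, smul_eq_mul, sub_zero]
  have h3 : (mu al A B n) ^ 2 = (A + B * n) ^ (-2 / al) := by
    unfold mu
    rw [← Real.rpow_natCast, ← Real.rpow_mul (by positivity)]
    congr 1; push_cast; ring
  have h4 : c0 * (1 + t) ≤ A + B * n := by
    have e1 : c0 * (1 + l) ≤ A := by
      have := min_le_left (A / (1 + l)) (B / l)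
      rw [← hc0] at this
      rwa [le_div_iff₀ (by positivity)] at this
    have e2 : c0 * l ≤ B := by
      have := min_le_right (A / (1 + l)) (B / l)
      rw [← hc0] at this
      rwa [le_div_iff₀ hl] at this
    have e3 : c0 * (1 + t) ≤ c0 * (1 + ((n:ℝ) + 1) * l) :=
      mul_le_mul_of_nonneg_left (by linarith) hc0p.le
    have e4 : c0 * (1 + ((n:ℝ) + 1) * l) = c0 * (1 + l) + (c0 * l) * n := by ring
    have e5 : (c0 * l) * n ≤ B * n := mul_le_mul_of_nonneg_right e2 (by positivity)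
    linarith
  have h5 : (A + B * n) ^ (-2 / al) ≤ (c0 * (1 + t)) ^ (-2 / al) :=
    Real.rpow_le_rpow_of_nonpos (by positivity) h4
      (div_nonpos_of_nonpos_of_nonneg (by norm_num) hal.le)
  rw [Real.mul_rpow hc0p.le (by positivity)] at h5
  rw [h3] at h2
  have h6 := mul_le_mul_of_nonneg_left h5 hl.le
  calc en l (P t) ≤ l * (A + B * n) ^ (-2 / al) := h1.trans h2
    _ ≤ _ := h6
    _ = _ := by ring

/-- uniform lower bound. -/
theorem flow_lower_unif (hal : 0 < al) (hk : 0 < k) (hl : 0 < l) {M0 ep : ℝ} (hM0 : 0 < M0)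
    (hep : 0 < ep) :
    ∃ c, 0 < c ∧ ∀ P : ℝ → ℝ → ℝ, Flow (fun z => k * phi al z) l P → (∀ s, |P 0 s| ≤ M0) →
      (∫ s in (0:ℝ)..l, P 0 s = 0) → ep ≤ en l (P 0) →
      ∀ t, 0 ≤ t → c * (1 + t) ^ (-2 / al) ≤ en l (P t) := by
  have hb := nice_kphi (al := al) (k := k) hal hk
  have hc := cdec_pos (al := al) hk hl hM0
  set A := M0 ^ (-al) with hAd
  set B := al * cdec al k l M0 with hBd
  have hA : 0 < A := Real.rpow_pos_of_pos hM0 _
  have hB : 0 < B := mul_pos hal hc
  -- choose the starting time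
  obtain ⟨n0, hn0⟩ : ∃ n0 : ℕ, (al + 2) * (k * l * (2 * mu al A B n0) ^ al) ≤ 1 / 8 := by
    obtain ⟨n0, hn0⟩ := exists_nat_ge (8 * ((al + 2) * (k * l * 2 ^ al)) / B)
    refine ⟨n0, ?_⟩
    rw [div_le_iff₀ hB] at hn0
    rw [mu_rpow hal hA hB n0]
    have h1 : 0 < A + B * n0 := by positivity
    have e1 : (al + 2) * (k * l * (2 ^ al / (A + B * n0))) = ((al + 2) * (k * l * 2 ^ al)) / (A + B * n0) := by
      ring
    rw [e1, div_le_iff₀ h1]
    linarith
  obtain ⟨r, hr, hrb⟩ := en_pos_unif hal hk hl hM0 (n0 * l)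
  set ep' := r * ep with hep'
  have hep'p : 0 < ep' := mul_pos hr hep
  set C := lowC al (2 * k * unifG al k l (mu al A B n0) ep') with hC
  set f0 := ep' ^ (-(al / 2)) with hf0
  have hf0p : 0 < f0 := Real.rpow_pos_of_pos hep'p _
  by_cases hC0 : 0 ≤ C
  · set K := f0 + C + C / l with hK
    have hKp : 0 < K := by positivity
    refine ⟨K ^ (-2 / al), Real.rpow_pos_of_pos hKp _, fun P hP h0 hmean hen t ht => ?_⟩
    have hsup := sup_seq hal hk hl hP hM0 h0 hmean
    have hQ := hP.shift hl.le n0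
    have hQ0 : (fun s => P (0 + n0 * l) s) = P (n0 * l) := by funext s; simp
    have hm : ∫ s in (0:ℝ)..l, P (0 + n0 * l) s = 0 := by
      rw [zero_add, hP.mean_eq hb le_rfl (by positivity : (0:ℝ) ≤ n0 * l), hmean]
    have hpos0 : ep' ≤ en l (P (n0 * l)) := by
      refine le_trans ?_ (hrb P hP h0 (n0 * l) (by positivity) le_rfl)
      exact mul_le_mul_of_nonneg_left hen hr.le
    obtain ⟨_, hCb⟩ := small_lower_unif hal hk hl hQ (mu_pos (al := al) hA hB n0) hep'p
      (fun s => by simpa using hsup n0 s) hm hn0 (by rw [hQ0]; exact hpos0)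
    set n := ⌈t / l⌉₊ with hn
    have hn1 : t ≤ n * l := by
      have := Nat.le_ceil (t / l)
      rwa [div_le_iff₀ hl] at this
    have hn2 : (n:ℝ) ≤ t / l + 1 := (Nat.ceil_lt_add_one (by positivity)).le
    have h1 : en l (P (n * l + n0 * l)) ≤ en l (P t) := by
      apply en_anti hal hk hl hP ht
      have : (0:ℝ) ≤ n0 * l := by positivity
      linarith
    refine le_trans ?_ ((hCb n).trans h1)
    rw [← Real.mul_rpow hKp.le (by positivity)]
    apply Real.rpow_le_rpow_of_nonpos (by positivity) _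
      (div_nonpos_of_nonpos_of_nonneg (by norm_num) hal.le)
    have h2 : C * n ≤ C * (t / l + 1) := mul_le_mul_of_nonneg_left hn2 hC0
    have h3 : K * (1 + t) = f0 + C + C * (t / l) + (C / l + (f0 + C) * t) := by rw [hK]; ring
    have h4 : 0 ≤ C / l + (f0 + C) * t := by positivity
    rw [h3]; linarith
  · exfalso
    apply hC0
    rw [hC]
    unfold lowC unifG
    have := C3_nonneg (al := al) (k := k) (l := l) hal
    have hmu := mu_pos (al := al) hA hB n0
    positivity

end Pool.Agent.Helper383.WaveUnif
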