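import Mathlib
import Pool.Agent.Helper383.WaveUnif
import Pool.Agent.Helper383.WaveTrans

set_option autoImplicit false

open Set Filter Topology MeasureTheory intervalIntegral

namespace Pool.Agent.Helper383.WaveSmooth

open Pool.Agent.Helper383.WavePhi Pool.Agent.Helper383.WaveFlow Pool.Agent.Helper383.WaveSup
open Pool.Agent.Helper383.WaveRay Pool.Agent.Helper383.WaveSeq Pool.Agent.Helper383.WaveSeq2
open Pool.Agent.Helper383.WaveTrans

variable {al k l : ℝ}

/-- smooth label flows. -/
structure SFlow (al k l : ℝ) (P Pt Ps : ℝ → ℝ → ℝ) : Prop where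
  flow : Flow (fun z => k * phi al z) l P
  ct : Continuous (fun q : ℝ × ℝ => Pt q.1 q.2)
  cs : Continuous (fun q : ℝ × ℝ => Ps q.1 q.2)
  dt : ∀ t s, HasDerivAt (fun t => P t s) (Pt t s) t
  ds : ∀ t s, HasDerivAt (P t) (Ps t s) s
  odd : ∀ t s, Pt t (t - s) = - Pt t s
  ode : ∀ t, 0 ≤ t → ∀ s, Pt t s = - (k * phi al (P t s - P t (t - s)))

/-- integrals of mean zero periodic functions. -/
theorem per_int (hl : 0 < l) {p : ℝ → ℝ} (hp : Continuous p) (hper : ∀ s, p (s + l) = p s)
    (hm : ∫ s in (0:ℝ)..l, p s = 0) (c d : ℝ) : |∫ s in c..d, p s| ≤ ∫ s in (0:ℝ)..l, |p s| := by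
  have hi : ∀ a b : ℝ, IntervalIntegrable p volume a b := fun a b => hp.intervalIntegrable _ _
  have hia : ∀ a b : ℝ, IntervalIntegrable (fun s => |p s|) volume a b := fun a b =>
    hp.abs.intervalIntegrable _ _
  set n : ℤ := ⌊(d - c) / l⌋ with hn
  have h1 : (n:ℝ) * l ≤ d - c := by
    have := Int.floor_le ((d - c) / l)
    rwa [le_div_iff₀ hl] at this
  have h2 : d - c ≤ ((n:ℝ) + 1) * l := by
    have := (Int.lt_floor_add_one ((d - c) / l)).le
    rwa [div_le_iff₀ hl] at this
  have hpp : Function.Periodic p l := hper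
  have h3 : ∫ s in c..(c + n * l), p s = 0 := by
    have := hpp.intervalIntegral_add_zsmul_eq n c (fun a b => hi a b)
    rw [zsmul_eq_mul, hpp.intervalIntegral_add_eq c 0, zero_add, hm, smul_zero] at this
    exact this
  have h4 : ∫ s in c..d, p s = ∫ s in (c + n * l)..d, p s := by
    rw [← intervalIntegral.integral_add_adjacent_intervals (hi c (c + n * l)) (hi _ d), h3, zero_add]
  rw [h4]
  have h5 : c + n * l ≤ d := by linarith
  have h6 : d ≤ c + n * l + l := by linarith
  refine (intervalIntegral.abs_integral_le_integral_abs h5).trans ?_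
  have h7 : ∫ s in (c + n * l)..d, |p s| ≤ ∫ s in (c + n * l)..(c + n * l + l), |p s| := by
    have e0 := intervalIntegral.integral_add_adjacent_intervals (hia (c + n * l) d) (hia d (c + n * l + l))
    have : 0 ≤ ∫ s in d..(c + n * l + l), |p s| :=
      intervalIntegral.integral_nonneg h6 (fun s _ => abs_nonneg _)
    linarith
  refine h7.trans (le_of_eq ?_)
  exact int_shift (l := l) (f := fun s => |p s|) (fun s => by simp only [hper]) _

theorem wave_le (hl : 0 < l) {P : ℝ → ℝ → ℝ} {t E0 : ℝ} (hp : Continuous (P (2 * t)))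
    (hper : ∀ s, P (2 * t) (s + l) = P (2 * t) s) (hm : ∫ s in (0:ℝ)..l, P (2 * t) s = 0)
    (hE : en l (P (2 * t)) ≤ E0) (x : ℝ) : |wave P t x| ≤ (1 / 2) * √(l * E0) := by
  unfold wave
  rw [abs_mul, abs_of_pos (by norm_num : (0:ℝ) < 1 / 2)]
  apply mul_le_mul_of_nonneg_left _ (by norm_num)
  rw [intervalIntegral.integral_comp_add_left (fun y => P (2 * t) y) t]
  refine (per_int hl hp hper hm _ _).trans ?_
  apply Real.le_sqrt_of_sq_le
  refine (cs_l hl hp.abs).trans ?_
  have : ∫ s in (0:ℝ)..l, |P (2 * t) s| ^ 2 = en l (P (2 * t)) := by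
    unfold en; simp only [sq_abs]
  rw [this]
  exact mul_le_mul_of_nonneg_left hE hl.le

/-- averages along partner characteristics. -/
theorem char_int (hal : 0 < al) (hk : 0 < k) (hl : 0 < l) {P Pt Ps : ℝ → ℝ → ℝ}
    (hP : SFlow al k l P Pt Ps) (hm : ∫ s in (0:ℝ)..l, P 0 s = 0) {E0 : ℝ} (hE : en l (P 0) ≤ E0)
    {a b : ℝ} (ha : 0 ≤ a) (hab : a ≤ b) (s : ℝ) : |∫ t in a..b, P t (t - s)| ≤ 2 * √(l * E0) := by
  have hb := nice_kphi (al := al) (k := k) hal hk
  have hPc := hP.flow.cont
  have hf1 : Continuous (fun q : ℝ × ℝ => (1 / 2) * (P (2 * q.1) (q.1 + q.2) - P (2 * q.1) (q.1 - q.2))) := by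
    have e1 : Continuous (fun q : ℝ × ℝ => P (2 * q.1) (q.1 + q.2)) :=
      hPc.comp (Continuous.prodMk (by fun_prop) (by fun_prop))
    have e2 : Continuous (fun q : ℝ × ℝ => P (2 * q.1) (q.1 - q.2)) :=
      hPc.comp (Continuous.prodMk (by fun_prop) (by fun_prop))
    fun_prop
  have hf2 : Continuous (fun q : ℝ × ℝ => (1 / 2) * (P (2 * q.1) (q.1 + q.2) + P (2 * q.1) (q.1 - q.2))) := by
    have e1 : Continuous (fun q : ℝ × ℝ => P (2 * q.1) (q.1 + q.2)) :=
      hPc.comp (Continuous.prodMk (by fun_prop) (by fun_prop))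
    have e2 : Continuous (fun q : ℝ × ℝ => P (2 * q.1) (q.1 - q.2)) :=
      hPc.comp (Continuous.prodMk (by fun_prop) (by fun_prop))
    fun_prop
  have hg : ∀ t, HasDerivAt (fun t => wave P t (s - t)) (- P (2 * t) (2 * t - s)) t := by
    intro t
    have := chain_line (wave_t hP.dt hP.ds hP.ct hP.cs hP.odd) (wave_x hP.ds) hf1 hf2
      (g1 := fun t => t) (g2 := fun t => s - t) (r := t) (g1' := 1) (g2' := -1)
      (hasDerivAt_id t) ((hasDerivAt_id t).const_sub s)
    refine this.congr_deriv ?_
    have e1 : t + (s - t) = s := by ring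
    have e2 : t - (s - t) = 2 * t - s := by ring
    rw [e1, e2]; ring
  have hcc : Continuous (fun t : ℝ => P (2 * t) (2 * t - s)) :=
    hPc.comp (Continuous.prodMk (by fun_prop) (by fun_prop))
  have h1 : ∫ t in (a / 2)..(b / 2), - P (2 * t) (2 * t - s) =
      wave P (b / 2) (s - b / 2) - wave P (a / 2) (s - a / 2) :=
    intervalIntegral.integral_eq_sub_of_hasDerivAt (f := fun t => wave P t (s - t))
      (fun t _ => hg t) (hcc.neg.intervalIntegrable _ _)
  rw [intervalIntegral.integral_neg] at h1
  have h2 : ∫ t in (a / 2)..(b / 2), P (2 * t) (2 * t - s) = (2:ℝ)⁻¹ * ∫ t in a..b, P t (t - s) := by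
    have := intervalIntegral.integral_comp_mul_left (fun t => P t (t - s)) (a := a / 2) (b := b / 2)
      (c := 2) (by norm_num)
    rw [this, smul_eq_mul]
    congr 2 <;> ring
  have hmm : ∀ t, 0 ≤ t → ∫ s in (0:ℝ)..l, P t s = 0 := fun t ht => by
    rw [hP.flow.mean_eq hb le_rfl ht, hm]
  have hE' : ∀ t, 0 ≤ t → en l (P t) ≤ E0 := fun t ht =>
    (en_anti hal hk hl hP.flow le_rfl ht).trans hE
  have h3 : ∀ t x, 0 ≤ t → |wave P t x| ≤ (1 / 2) * √(l * E0) := fun t x ht =>
    wave_le hl (hP.flow.cont_s _) (hP.flow.per _) (hmm _ (by positivity)) (hE' _ (by positivity)) x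
  have h4 := h3 (b / 2) (s - b / 2) (by linarith)
  have h5 := h3 (a / 2) (s - a / 2) (by linarith)
  have h6 : ∫ t in a..b, P t (t - s) = 2 * (wave P (a / 2) (s - a / 2) - wave P (b / 2) (s - b / 2)) := by
    rw [h2] at h1; linarith
  rw [h6, abs_mul, abs_of_pos (by norm_num : (0:ℝ) < 2)]
  have h7 := abs_sub (wave P (a / 2) (s - a / 2)) (wave P (b / 2) (s - b / 2))
  linarith

/-- tangent inequality for `phi`. -/
theorem phi_tangent (hal : 0 < al) {z m : ℝ} (hm : 0 < m) (hz : -m ≤ z) :
    m ^ (al + 1) + (al + 1) * m ^ al * (z - m) ≤ phi al z := by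
  rcases le_total 0 z with h | h
  · rw [phi_nonneg_eq hal h]
    exact rpow_tangent hal h hm
  · have h1 : phi al z = - (|z| ^ al * |z|) := by
      unfold phi; rw [abs_of_nonpos h]; ring
    have h2 : m ^ (al + 1) = m ^ al * m := by rw [Real.rpow_add hm, Real.rpow_one]
    have h3 : |z| ≤ m := by rw [abs_of_nonpos h]; linarith
    have h4 : |z| ^ al ≤ m ^ al := Real.rpow_le_rpow (abs_nonneg _) h3 hal.le
    have h5 : |z| ^ al * |z| ≤ m ^ al * |z| := mul_le_mul_of_nonneg_right h4 (abs_nonneg _)
    have hma : 0 < m ^ al := Real.rpow_pos_of_pos hm _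
    rw [h1, h2]
    have h6 : z = -|z| := by rw [abs_of_nonpos h]; ring
    have h7 : m ^ al * m + (al + 1) * m ^ al * (z - m) = -(al * (m ^ al * m)) - (al + 1) * (m ^ al * |z|) := by
      rw [h6, abs_neg, abs_abs]; ring
    rw [h7]
    have h8 : 0 ≤ al * (m ^ al * m) := by positivity
    have h9 : 0 ≤ al * (m ^ al * |z|) := by positivity
    linarith

/-- one smoothing step. -/
theorem decr (hal : 0 < al) (hk : 0 < k) (hl : 0 < l) {P : ℝ → ℝ → ℝ}
    (hP : Flow (fun z => k * phi al z) l P) {a N N0 h S : ℝ} (ha : 0 ≤ a)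
    (hN0 : ∀ s, |P a s| ≤ N0) (hNN : N0 < N) (hh : 0 < h)
    (hS : ∀ s, |∫ t in a..(a + h), P t (t - s)| ≤ S) (hNS : 4 * S ≤ N * h) (s : ℝ) :
    P (a + h) s ≤ N - min ((al * k * h + (N / 4) ^ (-al)) ^ (-1 / al)) (k * h * (N / 2) ^ (al + 1)) := by
  have hb := nice_kphi (al := al) (k := k) hal hk
  have hN00 : 0 ≤ N0 := (abs_nonneg _).trans (hN0 0)
  have hN : 0 < N := by linarith
  have hPb : ∀ t, a ≤ t → ∀ s, |P t s| ≤ N0 := fun t ht s => hP.abs_le hl hb ha hN0 ht s
  by_contra hcon
  push Not at hcon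
  set y := N - P (a + h) s with hy
  have hy1 : y < (al * k * h + (N / 4) ^ (-al)) ^ (-1 / al) := by
    have := min_le_left ((al * k * h + (N / 4) ^ (-al)) ^ (-1 / al)) (k * h * (N / 2) ^ (al + 1))
    linarith
  have hy2 : y < k * h * (N / 2) ^ (al + 1) := by
    have := min_le_right ((al * k * h + (N / 4) ^ (-al)) ^ (-1 / al)) (k * h * (N / 2) ^ (al + 1))
    linarith
  -- r
  set r : ℝ → ℝ := fun t => N - P t s with hr
  have hrpos : ∀ t, a ≤ t → 0 < r t := by
    intro t ht
    have := (abs_le.mp (hPb t ht s)).2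
    simp only [hr]; linarith
  have hrd : ∀ t, a < t → HasDerivAt r (k * phi al (P t s - P t (t - s))) t := by
    intro t ht
    have := (hP.ode t (by linarith) s).const_sub N
    refine this.congr_deriv (by ring)
  have hrc : Continuous r := continuous_const.sub (hP.cont_t s)
  have hF : AntitoneOn (fun t => (r t) ^ (-al) - al * k * t) (Icc a (a + h)) := by
    apply antitoneOn_of_deriv_nonpos (convex_Icc _ _)
    · apply ContinuousOn.sub
      · exact hrc.continuousOn.rpow_const (fun t ht => Or.inl (hrpos t ht.1).ne')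
      · fun_prop
    · rw [interior_Icc]
      intro t ht
      have h1 := (hrd t ht.1).rpow_const (p := -al) (Or.inl (hrpos t ht.1.le).ne')
      have h2 : HasDerivAt (fun t : ℝ => al * k * t) (al * k) t := by
        simpa using (hasDerivAt_id t).const_mul (al * k)
      exact (h1.sub h2).differentiableAt.differentiableWithinAt
    · rw [interior_Icc]
      intro t ht
      have hrt := hrpos t ht.1.le
      have h1 := (hrd t ht.1).rpow_const (p := -al) (Or.inl hrt.ne')
      have h2 : HasDerivAt (fun t : ℝ => al * k * t) (al * k) t := by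
        simpa using (hasDerivAt_id t).const_mul (al * k)
      have h3 := (h1.sub h2).deriv
      have h4 : deriv (fun t => (r t) ^ (-al) - al * k * t) t = _ := h3
      rw [h4]
      have h5 : - (r t) ^ (al + 1) ≤ phi al (P t s - P t (t - s)) := by
        have h6 : - r t ≤ P t s - P t (t - s) := by
          have := (abs_le.mp (hPb t ht.1.le (t - s))).2
          simp only [hr]; linarith
        have h7 := phi_mono hal h6
        rwa [phi_neg, phi_nonneg_eq hal hrt.le] at h7
      have h8 : (r t) ^ (-al - 1) * (r t) ^ (al + 1) = 1 := by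
        rw [← Real.rpow_add hrt]
        have : -al - 1 + (al + 1) = 0 := by ring
        rw [this, Real.rpow_zero]
      have h9 : 0 < (r t) ^ (-al - 1) := Real.rpow_pos_of_pos hrt _
      have h10 : - 1 ≤ (r t) ^ (-al - 1) * phi al (P t s - P t (t - s)) := by
        have := mul_le_mul_of_nonneg_left h5 h9.le
        linarith
      have h11 : k * phi al (P t s - P t (t - s)) * -al * (r t) ^ (-al - 1) - al * k =
          - (al * k) * ((r t) ^ (-al - 1) * phi al (P t s - P t (t - s)) + 1) := by ring
      rw [h11]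
      have : 0 ≤ (al * k) * ((r t) ^ (-al - 1) * phi al (P t s - P t (t - s)) + 1) :=
        mul_nonneg (by positivity) (by linarith)
      linarith
  have hyp : 0 < y := hrpos (a + h) (by linarith)
  have hrN : ∀ t ∈ Icc a (a + h), r t ≤ N / 4 := by
    intro t ht
    have h1 := hF ht (right_mem_Icc.mpr (by linarith)) ht.2
    simp only at h1
    have h2 : r (a + h) = y := rfl
    rw [h2] at h1
    have h3 : al * k * h + (N / 4) ^ (-al) < y ^ (-al) := by
      have hX : 0 < al * k * h + (N / 4) ^ (-al) := by positivity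
      have h4 := Real.rpow_lt_rpow_of_neg hyp hy1 (by linarith : -al < 0)
      rw [← Real.rpow_mul hX.le] at h4
      have : -1 / al * -al = 1 := by field_simp
      rwa [this, Real.rpow_one] at h4
    have h5 : (N / 4) ^ (-al) < (r t) ^ (-al) := by
      have : al * k * (a + h) - al * k * t ≤ al * k * h := by
        have : al * k * (a + h) - al * k * t = al * k * h - al * k * (t - a) := by ring
        rw [this]
        have : 0 ≤ al * k * (t - a) := mul_nonneg (by positivity) (by linarith [ht.1])
        linarith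
      linarith
    by_contra hc
    push Not at hc
    have := Real.rpow_le_rpow_of_nonpos (by positivity : 0 < N / 4) hc.le (by linarith : -al ≤ 0)
    linarith
  -- integral estimate
  have hc1 : Continuous (fun t : ℝ => P t s) := hP.cont_t s
  have hc2 : Continuous (fun t : ℝ => P t (t - s)) :=
    hP.cont.comp (Continuous.prodMk continuous_id (by fun_prop))
  have hphi := phi_cont hal
  obtain ⟨z, hz, hzc⟩ : ∃ z : ℝ → ℝ, (∀ t, z t = P t s - P t (t - s)) ∧ Continuous z :=
    ⟨_, fun t => rfl, hc1.sub hc2⟩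
  have hz1 : ∀ t ∈ Icc a (a + h), (N / 2) ^ (al + 1) + (al + 1) * (N / 2) ^ al * (z t - N / 2) ≤
      phi al (z t) := by
    intro t ht
    apply phi_tangent hal (by positivity)
    have h1 := hrN t ht
    have h2 := (abs_le.mp (hPb t ht.1 (t - s))).2
    simp only [hr] at h1
    rw [hz]
    linarith
  have hz2 : ∫ t in a..(a + h), ((N / 2) ^ (al + 1) + (al + 1) * (N / 2) ^ al * (z t - N / 2)) ≤
      ∫ t in a..(a + h), phi al (z t) := by
    apply intervalIntegral.integral_mono_on (by linarith) (Continuous.intervalIntegrable (by fun_prop) _ _)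
      (Continuous.intervalIntegrable (by fun_prop) _ _) hz1
  have hz3 : ∫ t in a..(a + h), z t ≥ N / 2 * h := by
    simp only [hz]
    rw [intervalIntegral.integral_sub (hc1.intervalIntegrable _ _) (hc2.intervalIntegrable _ _)]
    have h1 : (3 * N / 4) * h ≤ ∫ t in a..(a + h), P t s := by
      have : ∫ t in a..(a + h), (3 * N / 4) ≤ ∫ t in a..(a + h), P t s := by
        apply intervalIntegral.integral_mono_on (by linarith) (continuous_const.intervalIntegrable _ _)
          (hc1.intervalIntegrable _ _)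
        intro t ht
        have := hrN t ht
        simp only [hr] at this
        linarith
      rw [intervalIntegral.integral_const, smul_eq_mul, add_sub_cancel_left] at this
      linarith
    have h2 := (abs_le.mp (hS s)).2
    linarith
  have hz4 : ∫ t in a..(a + h), ((N / 2) ^ (al + 1) + (al + 1) * (N / 2) ^ al * (z t - N / 2)) =
      (N / 2) ^ (al + 1) * h + (al + 1) * (N / 2) ^ al * ((∫ t in a..(a + h), z t) - N / 2 * h) := by
    rw [intervalIntegral.integral_add (Continuous.intervalIntegrable (by fun_prop) _ _)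
      (Continuous.intervalIntegrable (by fun_prop) _ _), intervalIntegral.integral_const_mul,
      intervalIntegral.integral_sub (Continuous.intervalIntegrable (by fun_prop) _ _)
      (continuous_const.intervalIntegrable _ _), intervalIntegral.integral_const,
      intervalIntegral.integral_const, smul_eq_mul, smul_eq_mul, add_sub_cancel_left]
    ring
  have hz5 : (N / 2) ^ (al + 1) * h ≤ ∫ t in a..(a + h), phi al (z t) := by
    rw [hz4] at hz2
    have : 0 ≤ (al + 1) * (N / 2) ^ al * ((∫ t in a..(a + h), z t) - N / 2 * h) :=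
      mul_nonneg (by positivity) (by linarith)
    linarith
  have hz6 : ∫ t in a..(a + h), k * phi al (z t) = r (a + h) - r a := by
    apply intervalIntegral.integral_eq_sub_of_hasDerivAt_of_le (by linarith) hrc.continuousOn
    · intro t ht; rw [hz]; exact hrd t ht.1
    · exact Continuous.intervalIntegrable (by fun_prop) _ _
  rw [intervalIntegral.integral_const_mul] at hz6
  have hra := hrpos a le_rfl
  have hz7 : k * ((N / 2) ^ (al + 1) * h) ≤ k * ∫ t in a..(a + h), phi al (z t) :=
    mul_le_mul_of_nonneg_left hz5 hk.le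
  have hz8 : r (a + h) = y := rfl
  rw [hz8] at hz6
  linarith

end Pool.Agent.Helper383.WaveSmooth
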