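import Mathlib
import Pool.Agent.Helper383.WaveSmooth

set_option autoImplicit false

open Set Filter Topology MeasureTheory intervalIntegral

namespace Pool.Agent.Helper383.WaveSmooth2

open Pool.Agent.Helper383.WavePhi Pool.Agent.Helper383.WaveFlow Pool.Agent.Helper383.WaveSup
open Pool.Agent.Helper383.WaveRay Pool.Agent.Helper383.WaveSeq Pool.Agent.Helper383.WaveSeq2
open Pool.Agent.Helper383.WaveTrans Pool.Agent.Helper383.WaveSmooth

variable {al k l : ℝ}

/-- the smoothing exponent. -/
noncomputable def th (al : ℝ) : ℝ := min al (1 / al)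

/-- the smoothing constant. -/
noncomputable def cs0 (al k S : ℝ) : ℝ :=
  min ((4 * al * k * S + 4 ^ al) ^ (-1 / al)) (k * (4 * S) * (1 / 2) ^ (al + 1))

theorem th_pos (hal : 0 < al) : 0 < th al := lt_min hal (by positivity)

theorem cs0_pos (hal : 0 < al) (hk : 0 < k) {S : ℝ} (hS : 0 < S) : 0 < cs0 al k S :=
  lt_min (by positivity) (by positivity)

theorem gain_ge (hal : 0 < al) (hk : 0 < k) {S N : ℝ} (hS : 0 < S) (hN : 1 ≤ N) :
    cs0 al k S * N ^ (th al) ≤
      min ((al * k * (4 * S / N) + (N / 4) ^ (-al)) ^ (-1 / al)) (k * (4 * S / N) * (N / 2) ^ (al + 1)) := by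
  have hN0 : 0 < N := by linarith
  apply le_min
  · have h1 : al * k * (4 * S / N) + (N / 4) ^ (-al) ≤ (4 * al * k * S + 4 ^ al) * N ^ (-(min 1 al)) := by
      have e1 : (N / 4) ^ (-al) = 4 ^ al * N ^ (-al) := by
        rw [Real.div_rpow hN0.le (by norm_num), Real.rpow_neg (by norm_num : (0:ℝ) ≤ 4), div_inv_eq_mul]
        ring
      have e2 : N ^ (-al) ≤ N ^ (-(min 1 al)) :=
        Real.rpow_le_rpow_of_exponent_le hN (by linarith [min_le_right 1 al])
      have e3 : N⁻¹ ≤ N ^ (-(min 1 al)) := by
        rw [← Real.rpow_neg_one]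
        exact Real.rpow_le_rpow_of_exponent_le hN (by linarith [min_le_left 1 al])
      have e4 : al * k * (4 * S / N) = (4 * al * k * S) * N⁻¹ := by field_simp
      rw [e1, e4, add_mul]
      apply add_le_add
      · exact mul_le_mul_of_nonneg_left e3 (by positivity)
      · exact mul_le_mul_of_nonneg_left e2 (by positivity)
    have h2 := Real.rpow_le_rpow_of_nonpos (by positivity) h1
      (div_nonpos_of_nonpos_of_nonneg (by norm_num) hal.le : -1 / al ≤ 0)
    rw [Real.mul_rpow (by positivity) (by positivity), ← Real.rpow_mul hN0.le] at h2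
    refine le_trans ?_ h2
    have h3 : N ^ (th al) ≤ N ^ (-(min 1 al) * (-1 / al)) := by
      apply Real.rpow_le_rpow_of_exponent_le hN
      have : -(min 1 al) * (-1 / al) = min 1 al / al := by ring
      rw [this, le_div_iff₀ hal]
      unfold th
      rcases le_total 1 al with h | h
      · rw [min_eq_left h]
        have h5 : min al (1 / al) ≤ 1 / al := min_le_right _ _
        calc min al (1 / al) * al ≤ (1 / al) * al := mul_le_mul_of_nonneg_right h5 hal.le
          _ = 1 := by field_simp
      · rw [min_eq_right h]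
        have h5 : min al (1 / al) ≤ al := min_le_left _ _
        calc min al (1 / al) * al ≤ al * al := mul_le_mul_of_nonneg_right h5 hal.le
          _ ≤ 1 * al := mul_le_mul_of_nonneg_right h hal.le
          _ = al := one_mul _
    exact mul_le_mul (min_le_left _ _) h3 (by positivity) (by positivity)
  · have e1 : k * (4 * S / N) * (N / 2) ^ (al + 1) = (k * (4 * S) * (1 / 2) ^ (al + 1)) * N ^ al := by
      have : (N / 2) ^ (al + 1) = (1 / 2) ^ (al + 1) * (N ^ al * N) := by
        rw [show N / 2 = (1 / 2) * N by ring, Real.mul_rpow (by norm_num) hN0.le, Real.rpow_add hN0 al 1,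
          Real.rpow_one]
      rw [this]
      field_simp
    rw [e1]
    have h3 : N ^ (th al) ≤ N ^ al := Real.rpow_le_rpow_of_exponent_le hN (min_le_left _ _)
    exact mul_le_mul (min_le_right _ _) h3 (by positivity) (by positivity)

/-- closed form of the smoothing step, one sided. -/
theorem decr_one (hal : 0 < al) (hk : 0 < k) (hl : 0 < l) {P : ℝ → ℝ → ℝ}
    (hP : Flow (fun z => k * phi al z) l P) {a N S : ℝ} (ha : 0 ≤ a) (hS0 : 0 < S)
    (hN1 : 1 ≤ N) (hN : ∀ s, |P a s| ≤ N)
    (hS : ∀ s, |∫ t in a..(a + 4 * S / N), P t (t - s)| ≤ S) (s : ℝ) :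
    P (a + 4 * S / N) s ≤ N - cs0 al k S * N ^ (th al) := by
  have hN0 : 0 < N := by linarith
  have hh : 0 < 4 * S / N := by positivity
  set h := 4 * S / N with hhd
  set G : ℝ → ℝ := fun N' => N' - min ((al * k * h + (N' / 4) ^ (-al)) ^ (-1 / al)) (k * h * (N' / 2) ^ (al + 1)) with hG
  have hGc : ContinuousAt G N := by
    have c1 : ContinuousAt (fun N' : ℝ => (N' / 4) ^ (-al)) N :=
      (continuousAt_id.div_const 4).rpow_const (Or.inl (by simp only [id]; positivity))
    have c2 : ContinuousAt (fun N' : ℝ => (al * k * h + (N' / 4) ^ (-al)) ^ (-1 / al)) N :=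
      (continuousAt_const.add c1).rpow_const (Or.inl (by
        have : 0 < al * k * h + (N / 4) ^ (-al) := by positivity
        exact this.ne'))
    have c3 : ContinuousAt (fun N' : ℝ => (N' / 2) ^ (al + 1)) N :=
      (continuousAt_id.div_const 2).rpow_const (Or.inr (by linarith))
    exact continuousAt_id.sub (c2.min (continuousAt_const.mul c3))
  have hle : ∀ᶠ N' in 𝓝[>] N, P (a + h) s ≤ G N' := by
    filter_upwards [self_mem_nhdsWithin] with N' hN'
    have hN'' : N < N' := hN'
    apply decr hal hk hl hP ha hN hN'' hh hS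
    have : N * h = 4 * S := by rw [hhd]; field_simp
    have : N * h ≤ N' * h := mul_le_mul_of_nonneg_right hN''.le hh.le
    linarith
  have h1 : P (a + h) s ≤ G N := ge_of_tendsto (hGc.mono_left nhdsWithin_le_nhds) hle
  have h2 := gain_ge hal hk hS0 hN1
  rw [← hhd] at h2
  refine h1.trans ?_
  simp only [hG]
  linarith

theorem decr_two (hal : 0 < al) (hk : 0 < k) (hl : 0 < l) {P : ℝ → ℝ → ℝ}
    (hP : Flow (fun z => k * phi al z) l P) {a N S : ℝ} (ha : 0 ≤ a) (hS0 : 0 < S)
    (hN1 : 1 ≤ N) (hN : ∀ s, |P a s| ≤ N)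
    (hS : ∀ s, |∫ t in a..(a + 4 * S / N), P t (t - s)| ≤ S) (s : ℝ) :
    |P (a + 4 * S / N) s| ≤ N - cs0 al k S * N ^ (th al) := by
  have hb := nice_kphi (al := al) (k := k) hal hk
  rw [abs_le]
  constructor
  · have := decr_one hal hk hl (hP.neg hb) ha hS0 hN1 (fun s => by simpa using hN s)
      (fun s => by
        have := hS s
        rw [intervalIntegral.integral_neg, abs_neg]
        exact this) s
    linarith
  · exact decr_one hal hk hl hP ha hS0 hN1 hN hS s

theorem bern {th x : ℝ} (hth : 0 < th) (hx1 : x < 1) : 1 + th * x ≤ (1 - x) ^ (-th) := by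
  have h1 : 0 < 1 - x := by linarith
  rw [Real.rpow_def_of_pos h1]
  have h2 := Real.log_le_sub_one_of_pos h1
  have h3 := Real.add_one_le_exp (Real.log (1 - x) * -th)
  have h4 : th * x ≤ Real.log (1 - x) * -th := by
    have : Real.log (1 - x) ≤ -x := by linarith
    have := mul_le_mul_of_nonneg_left this hth.le
    linarith
  linarith

/-- instantaneous smoothing, with constants depending only on `S` and `t`. -/
theorem smooth_bound (hal : 0 < al) (hk : 0 < k) (hl : 0 < l) {S t : ℝ} (hS0 : 0 < S) (ht : 0 < t) :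
    ∃ K, 0 < K ∧ ∀ P : ℝ → ℝ → ℝ, Flow (fun z => k * phi al z) l P →
      (∃ N0, ∀ s, |P 0 s| ≤ N0) →
      (∀ a b s, 0 ≤ a → a ≤ b → |∫ t in a..b, P t (t - s)| ≤ S) → ∀ s, |P t s| ≤ K := by
  have hth := th_pos hal
  have hc := cs0_pos hal hk hS0
  set c := cs0 al k S with hcd
  set c' := th al * c / (4 * S) with hc'
  have hc'p : 0 < c' := by positivity
  set K := max 1 (max ((2 / (c' * t)) ^ (1 / th al)) (8 * S / t)) with hK
  have hK1 : 1 ≤ K := le_max_left _ _
  have hKp : 0 < K := by linarith
  have hK2 : K ^ (-(th al)) ≤ c' * t / 2 := by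
    have h1 : (2 / (c' * t)) ^ (1 / th al) ≤ K := (le_max_left _ _).trans (le_max_right _ _)
    have h0 : 0 < 2 / (c' * t) := by positivity
    have h2 := Real.rpow_le_rpow_of_nonpos (Real.rpow_pos_of_pos h0 _) h1 (by linarith : -(th al) ≤ 0)
    rw [← Real.rpow_mul h0.le] at h2
    have : 1 / th al * -(th al) = -1 := by field_simp
    rw [this, Real.rpow_neg_one, inv_div] at h2
    exact h2
  have hK3 : 4 * S / K ≤ t / 2 := by
    have h1 : 8 * S / t ≤ K := (le_max_right _ _).trans (le_max_right _ _)
    rw [div_le_iff₀ ht] at h1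
    rw [div_le_iff₀ hKp]
    linarith
  refine ⟨K, hKp, fun P hP hN0 hS => ?_⟩
  have hb := nice_kphi (al := al) (k := k) hal hk
  obtain ⟨N0, hN0⟩ := hN0
  have claim : ∀ n : ℕ, (∃ a, 0 ≤ a ∧ a ≤ t ∧ ∀ s, |P a s| ≤ K) ∨
      (∃ a N, 0 ≤ a ∧ a ≤ t / 2 ∧ K < N ∧ (∀ s, |P a s| ≤ N) ∧ c' * a ≤ N ^ (-(th al)) ∧
        N ≤ N0 - c * n) := by
    intro n
    induction n with
    | zero =>
      rcases le_or_gt N0 K with h | h
      · exact Or.inl ⟨0, le_rfl, ht.le, fun s => (hN0 s).trans h⟩
      · refine Or.inr ⟨0, N0, le_rfl, by positivity, h, hN0, ?_, by simp⟩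
        rw [mul_zero]
        exact Real.rpow_nonneg (by linarith) _
    | succ n ih =>
      rcases ih with h | ⟨a, N, ha, hat, hKN, hN, hcN, hNn⟩
      · exact Or.inl h
      · have hN1 : 1 ≤ N := by linarith
        have hNp : 0 < N := by linarith
        have hstep := decr_two hal hk hl hP ha hS0 hN1 hN
          (fun s => hS a (a + 4 * S / N) s ha (by have : 0 ≤ 4 * S / N := by positivity
                                                  linarith))
        have hh0 : 0 < 4 * S / N := by positivity
        have hh1 : 4 * S / N ≤ t / 2 := by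
          refine le_trans ?_ hK3
          exact div_le_div_of_nonneg_left (by positivity) hKp hKN.le
        have hNth : 1 ≤ N ^ (th al) := Real.one_le_rpow hN1 hth.le
        set N' := N - cs0 al k S * N ^ (th al) with hN'
        rcases le_or_gt N' K with h | h
        · exact Or.inl ⟨a + 4 * S / N, by linarith, by linarith, fun s => (hstep s).trans h⟩
        · have hN'p : 0 < N' := by linarith
          set x := c * N ^ (th al - 1) with hx
          have hx1 : N' = N * (1 - x) := by
            rw [hN', hx, ← hcd, Real.rpow_sub hNp, Real.rpow_one]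
            field_simp
          have hx2 : x < 1 := by
            by_contra hcon
            push Not at hcon
            have : N * (1 - x) ≤ 0 := mul_nonpos_of_nonneg_of_nonpos hNp.le (by linarith)
            linarith
          have hb1 := bern hth hx2
          have hi : c' * (a + 4 * S / N) ≤ N' ^ (-(th al)) := by
            rw [hx1, Real.mul_rpow hNp.le (by linarith)]
            have h5 : N ^ (-(th al)) * (1 + th al * x) ≤ N ^ (-(th al)) * (1 - x) ^ (-(th al)) :=
              mul_le_mul_of_nonneg_left hb1 (by positivity)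
            refine le_trans ?_ h5
            have h6 : N ^ (-(th al)) * (1 + th al * x) = N ^ (-(th al)) + th al * c / N := by
              have h7 : N ^ (-(th al)) * N ^ (th al - 1) = N⁻¹ := by
                rw [← Real.rpow_add hNp, ← Real.rpow_neg_one]
                congr 1; ring
              calc N ^ (-(th al)) * (1 + th al * x) =
                  N ^ (-(th al)) + th al * c * (N ^ (-(th al)) * N ^ (th al - 1)) := by rw [hx]; ring
                _ = _ := by rw [h7]; ring
            have h8 : c' * (a + 4 * S / N) = c' * a + th al * c / N := by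
              rw [hc']; field_simp
            rw [h6, h8]
            linarith
          have ha2 : a + 4 * S / N ≤ t / 2 := by
            have h7 : N' ^ (-(th al)) ≤ K ^ (-(th al)) :=
              Real.rpow_le_rpow_of_nonpos hKp h.le (by linarith)
            have h8 : c' * (a + 4 * S / N) ≤ c' * (t / 2) := by linarith
            exact le_of_mul_le_mul_left h8 hc'p
          refine Or.inr ⟨a + 4 * S / N, N', by linarith, ha2, h, hstep, hi, ?_⟩
          push_cast
          have : c * 1 ≤ c * N ^ (th al) := mul_le_mul_of_nonneg_left hNth hc.le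
          linarith
  obtain ⟨n, hn⟩ := exists_nat_gt (N0 / c)
  rw [div_lt_iff₀ hc] at hn
  rcases claim n with ⟨a, ha, hat, h⟩ | ⟨a, N, _, _, hKN, _, _, hNn⟩
  · intro s
    exact hP.abs_le hl hb ha h hat s
  · exfalso
    linarith

end Pool.Agent.Helper383.WaveSmooth2
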