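import Mathlib
import Pool.Agent.Helper383.WaveSmooth2
import Pool.Agent.Helper383.WaveClassical
import Pool.Agent.Helper383.WaveContr

set_option autoImplicit false

open Set Filter Topology MeasureTheory intervalIntegral

namespace Pool.Agent.Helper383.WaveDecay

open Pool.Agent.Helper383.WavePhi Pool.Agent.Helper383.WaveFlow Pool.Agent.Helper383.WaveSup
open Pool.Agent.Helper383.WaveRay Pool.Agent.Helper383.WaveSeq Pool.Agent.Helper383.WaveSeq2
open Pool.Agent.Helper383.WaveTrans Pool.Agent.Helper383.WaveSmooth Pool.Agent.Helper383.WaveSmooth2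
open Pool.Agent.Helper383.WaveUnif Pool.Agent.Helper383.WaveMain Pool.Agent.Helper383.WaveClassical
open Pool.Agent.Helper383.WaveDefs

variable {al k l : ℝ}

/-- general time shift. -/
theorem shift_gen {P : ℝ → ℝ → ℝ} (hP : Flow (fun z => k * phi al z) l P) {d : ℝ} (hd : 0 ≤ d) :
    Flow (fun z => k * phi al z) l (fun t s => P (t + d) (s + d / 2)) where
  cont := hP.cont.comp (Continuous.prodMk (continuous_fst.add continuous_const)
    (continuous_snd.add continuous_const))
  per := fun t s => by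
    have := hP.per (t + d) (s + d / 2)
    rw [show s + d / 2 + l = s + l + d / 2 by ring] at this
    exact this
  ode := fun t ht s => by
    have h1 := hP.ode (t + d) (by linarith) (s + d / 2)
    have h3 := h1.comp t ((hasDerivAt_id t).add_const d)
    have e : t + d - (s + d / 2) = t - s + d / 2 := by ring
    simp only [e, id] at h3
    simpa [Function.comp_def] using h3

theorem en_shift {p : ℝ → ℝ} (hper : ∀ s, p (s + l) = p s) (c : ℝ) :
    en l (fun s => p (s + c)) = en l p := by
  unfold en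
  rw [intervalIntegral.integral_comp_add_right (fun s => (p s) ^ 2) c, zero_add, add_comm l c]
  exact int_shift (l := l) (f := fun s => (p s) ^ 2) (fun s => by simp only [hper]) c

/-- uniform two sided decay of smooth flows from energy information only. -/
theorem unif_decay (hal : 0 < al) (hk : 0 < k) (hl : 0 < l) {E0 ep d : ℝ} (hE0 : 0 < E0) (hep : 0 < ep)
    (hd : 0 < d) :
    ∃ c C, 0 < c ∧ 0 < C ∧ ∀ P Pt Ps : ℝ → ℝ → ℝ, SFlow al k l P Pt Ps →
      (∫ s in (0:ℝ)..l, P 0 s = 0) → en l (P 0) ≤ E0 → ep ≤ en l (P d) →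
      ∀ t, d ≤ t → c * (1 + t) ^ (-2 / al) ≤ en l (P t) ∧ en l (P t) ≤ C * (1 + t) ^ (-2 / al) := by
  have hb := nice_kphi (al := al) (k := k) hal hk
  have hexp : -2 / al ≤ 0 := div_nonpos_of_nonpos_of_nonneg (by norm_num) hal.le
  obtain ⟨K, hK, hKb⟩ := smooth_bound hal hk hl (S := 2 * √(l * E0)) (t := d) (by positivity) hd
  obtain ⟨C, hC, hCb⟩ := flow_upper_unif hal hk hl hK
  obtain ⟨c, hc, hcb⟩ := flow_lower_unif hal hk hl hK hep
  refine ⟨c, C * (1 + d) ^ (2 / al), hc, by positivity, fun P Pt Ps hP hm hE hed t hdt => ?_⟩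
  have hsup : ∀ s, |P d s| ≤ K := by
    apply hKb P hP.flow
    · obtain ⟨M, _, hM⟩ := exists_sup hl (hP.flow.cont_s 0) (hP.flow.per 0)
      exact ⟨M, hM⟩
    · intro a b s ha hab
      exact char_int hal hk hl hP hm hE ha hab s
  have hQ := shift_gen hP.flow hd.le
  have e1 : ∀ r, en l ((fun t s => P (t + d) (s + d / 2)) r) = en l (P (r + d)) := fun r =>
    en_shift (hP.flow.per (r + d)) (d / 2)
  have q1 : ∀ s, |(fun t s => P (t + d) (s + d / 2)) 0 s| ≤ K := by
    intro s; simp only [zero_add]; exact hsup _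
  have q2 : ∫ s in (0:ℝ)..l, (fun t s => P (t + d) (s + d / 2)) 0 s = 0 := by
    simp only [zero_add]
    rw [intervalIntegral.integral_comp_add_right (fun s => P d s) (d / 2), zero_add, add_comm l]
    rw [int_shift (l := l) (f := P d) (hP.flow.per d), hP.flow.mean_eq hb le_rfl hd.le, hm]
  have q3 : ep ≤ en l ((fun t s => P (t + d) (s + d / 2)) 0) := by
    rw [e1, zero_add]; exact hed
  have u1 := hCb _ hQ q1 q2 (t - d) (by linarith)
  have l1 := hcb _ hQ q1 q2 q3 (t - d) (by linarith)
  have e2 : en l ((fun t s => P (t + d) (s + d / 2)) (t - d)) = en l (P t) := by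
    rw [e1, sub_add_cancel]
  rw [e2] at u1 l1
  have h1 : 0 < 1 + (t - d) := by linarith
  constructor
  · refine le_trans ?_ l1
    apply mul_le_mul_of_nonneg_left _ hc.le
    exact Real.rpow_le_rpow_of_nonpos h1 (by linarith) hexp
  · refine u1.trans ?_
    rw [mul_assoc]
    apply mul_le_mul_of_nonneg_left _ hC.le
    have h2 : (1 + t) / (1 + d) ≤ 1 + (t - d) := by
      rw [div_le_iff₀ (by linarith)]
      nlinarith
    have h30 : 0 < (1 + t) / (1 + d) := div_pos (by linarith) (by linarith)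
    have h3 := Real.rpow_le_rpow_of_nonpos h30 h2 hexp
    refine h3.trans (le_of_eq ?_)
    rw [Real.div_rpow (by linarith) (by linarith)]
    have : (1 + d) ^ (2 / al) = ((1 + d) ^ (-2 / al))⁻¹ := by
      rw [← Real.rpow_neg (by linarith)]
      congr 1; ring
    rw [this]; field_simp

/-! ### waves on an interval -/

/-- the wave on `(A, B)`. -/
noncomputable def iwave (A : ℝ) (P : ℝ → ℝ → ℝ) (t x : ℝ) : ℝ := wave P t (x - A)

theorem iwave_t {P Pt Ps : ℝ → ℝ → ℝ} (hP : SFlow al k l P Pt Ps) (A t x : ℝ) :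
    HasDerivAt (fun r => iwave A P r x) ((1 / 2) * (P (2 * t) (t + (x - A)) - P (2 * t) (t - (x - A)))) t :=
  wave_t hP.dt hP.ds hP.ct hP.cs hP.odd t (x - A)

theorem iwave_x {P Pt Ps : ℝ → ℝ → ℝ} (hP : SFlow al k l P Pt Ps) (A t x : ℝ) :
    HasDerivAt (iwave A P t) ((1 / 2) * (P (2 * t) (t + (x - A)) + P (2 * t) (t - (x - A)))) x := by
  have := (wave_x hP.ds t (x - A)).comp x ((hasDerivAt_id x).sub_const A)
  rw [mul_one] at this
  exact this

theorem iwave_classical {a A B : ℝ} (ha : 0 < a) (hal : 0 < al) {P Pt Ps : ℝ → ℝ → ℝ}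
    (hP : SFlow al (a / 2 ^ (al + 2)) (2 * (B - A)) P Pt Ps)
    (hm : ∫ s in (0:ℝ)..(2 * (B - A)), P 0 s = 0) :
    IsClassicalSolution a al A B (iwave A P) := by
  set k : ℝ := a / 2 ^ (al + 2) with hk
  have hkp : 0 < k := by positivity
  have hnice := nice_kphi (al := al) (k := k) hal hkp
  have hmean : ∀ t, 0 ≤ t → ∫ s in (0:ℝ)..(2 * (B - A)), P (2 * t) s = 0 := by
    intro t ht
    rw [hP.flow.mean_eq hnice le_rfl (by positivity : 0 ≤ 2 * t), hm]
  have hsm := wave_contDiff hP.dt hP.ds hP.ct hP.cs hP.odd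
  refine ⟨?_, ?_, ?_, ?_⟩
  · have : ContDiff ℝ 2 (fun q : ℝ × ℝ => (q.1, q.2 - A)) := by fun_prop
    exact hsm.comp this
  · intro t x ht _
    have hut : (fun t => deriv (fun r => iwave A P r x) t) =
        fun t => (1 / 2) * (P (2 * t) (t + (x - A)) - P (2 * t) (t - (x - A))) :=
      funext fun t => (iwave_t hP A t x).deriv
    have hux : (fun x => deriv (fun y => iwave A P t y) x) =
        fun x => (fun z => (1 / 2) * (P (2 * t) (t + z) + P (2 * t) (t - z))) (x - A) :=
      funext fun x => (iwave_x hP A t x).deriv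
    have e3 := (wave_tt hP.dt hP.ds hP.ct hP.cs t (x - A)).deriv
    have e4 := (wave_xx hP.ds t (x - A)).deriv
    rw [hut, hux, e3, deriv_comp_sub_const (f := fun z => (1 / 2) * (P (2 * t) (t + z) + P (2 * t) (t - z))),
      e4, (iwave_t hP A t x).deriv]
    have e5 := hP.odd (2 * t) (t + (x - A))
    rw [show 2 * t - (t + (x - A)) = t - (x - A) by ring] at e5
    have e6 := hP.ode (2 * t) (by positivity) (t + (x - A))
    rw [show 2 * t - (t + (x - A)) = t - (x - A) by ring] at e6
    rw [e5, e6]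
    set z := P (2 * t) (t + (x - A)) - P (2 * t) (t - (x - A)) with hz
    have e7 : |(1 / 2) * z| ^ al = |z| ^ al / 2 ^ al := by
      rw [abs_mul, Real.mul_rpow (abs_nonneg _) (abs_nonneg _), abs_of_pos (by norm_num : (0:ℝ) < 1 / 2),
        Real.div_rpow (by norm_num) (by norm_num), Real.one_rpow]
      ring
    have e8 : (2:ℝ) ^ (al + 2) = 2 ^ al * 4 := by
      rw [Real.rpow_add (by norm_num)]; norm_num
    have e9 : (2:ℝ) ^ al ≠ 0 := by positivity
    rw [e7, hk, e8, phi]
    field_simp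
    ring
  · intro t _
    simp only [iwave, sub_self]
    exact wave_zero P t
  · intro t ht
    exact wave_L hP.flow.per t (hmean t ht)

end Pool.Agent.Helper383.WaveDecay
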