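import Mathlib
import Pool.Agent.Helper383.WaveDecay

set_option autoImplicit false

open Set Filter Topology MeasureTheory intervalIntegral

namespace Pool.Agent.Helper383.WaveApprox

open Pool.Agent.Helper383.WavePhi Pool.Agent.Helper383.WaveFlow Pool.Agent.Helper383.WaveSup
open Pool.Agent.Helper383.WaveRay
open Pool.Agent.Helper383.WaveTrans Pool.Agent.Helper383.WaveSmooth
open Pool.Agent.Helper383.WaveClassical Pool.Agent.Helper383.WaveContr
open Pool.Agent.Helper383.WaveDefs Pool.Agent.Helper383.WaveDecay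

/-- Steklov averages. -/
theorem steklov {l : ℝ} {f : ℝ → ℝ} (hf : Continuous f) (hper : ∀ s, f (s + l) = f s)
    (huc : ∀ e, 0 < e → ∃ d, 0 < d ∧ ∀ s y, |y| < d → |f (s + y) - f s| ≤ e) {e : ℝ} (he : 0 < e) :
    ∃ g g' : ℝ → ℝ, (∀ s, HasDerivAt g (g' s) s) ∧ Continuous g' ∧ (∀ s, g (s + l) = g s) ∧
      (∫ s in (0:ℝ)..l, g s = ∫ s in (0:ℝ)..l, f s) ∧ ∀ s, |g s - f s| ≤ e := by
  obtain ⟨d, hd, hdd⟩ := huc e he
  set h := d / 2 with hh
  have hhp : 0 < h := by positivity
  have hi : ∀ a b : ℝ, IntervalIntegrable f volume a b := fun a b => hf.intervalIntegrable _ _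
  have hform : ∀ s, ∫ y in (0:ℝ)..h, f (s + y) = ∫ y in s..(s + h), f y := by
    intro s
    rw [intervalIntegral.integral_comp_add_left (fun y => f y) s, add_zero]
  refine ⟨fun s => h⁻¹ * ∫ y in (0:ℝ)..h, f (s + y), fun s => h⁻¹ * (f (s + h) - f s), ?_, by fun_prop,
    ?_, ?_, ?_⟩
  · intro s
    have h1 : ∀ x, HasDerivAt (fun x => ∫ y in (0:ℝ)..x, f y) (f x) x := fun x =>
      intervalIntegral.integral_hasDerivAt_right (hi _ _)
        hf.aestronglyMeasurable.stronglyMeasurableAtFilter hf.continuousAt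
    have h2 := ((h1 (s + h)).comp s ((hasDerivAt_id s).add_const h)).sub (h1 s)
    have h3 := h2.const_mul h⁻¹
    refine (h3.congr_deriv (by ring)).congr_of_eventuallyEq (Eventually.of_forall fun s => ?_)
    simp only [hform, Function.comp, Pi.sub_apply, id]
    rw [← intervalIntegral.integral_interval_sub_left (hi 0 (s + h)) (hi 0 s)]
  · intro s
    have e1 : ∀ y, f (s + l + y) = f (s + y) := by
      intro y
      have := hper (s + y)
      rw [show s + y + l = s + l + y by ring] at this
      exact this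
    simp only [e1]
  · rw [intervalIntegral.integral_const_mul,
      swap_cont (F := fun s y => f (s + y)) (by fun_prop)]
    have : ∀ y, ∫ s in (0:ℝ)..l, f (s + y) = ∫ s in (0:ℝ)..l, f s := by
      intro y
      rw [intervalIntegral.integral_comp_add_right (fun s => f s) y, zero_add, add_comm l y]
      exact int_shift (l := l) hper y
    simp only [this]
    rw [intervalIntegral.integral_const, smul_eq_mul, sub_zero, ← mul_assoc, inv_mul_cancel₀ hhp.ne', one_mul]
  · intro s
    have h1 : h⁻¹ * (∫ y in (0:ℝ)..h, f (s + y)) - f s = h⁻¹ * ∫ y in (0:ℝ)..h, (f (s + y) - f s) := by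
      rw [intervalIntegral.integral_sub (Continuous.intervalIntegrable (by fun_prop) _ _)
        (continuous_const.intervalIntegrable _ _), intervalIntegral.integral_const, smul_eq_mul, sub_zero,
        mul_sub, ← mul_assoc, inv_mul_cancel₀ hhp.ne', one_mul]
    rw [h1, abs_mul, abs_of_pos (inv_pos.mpr hhp)]
    have h2 : |∫ y in (0:ℝ)..h, (f (s + y) - f s)| ≤ e * |h - 0| := by
      rw [← Real.norm_eq_abs]
      apply intervalIntegral.norm_integral_le_of_norm_le_const
      intro y hy
      rw [uIoc_of_le hhp.le] at hy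
      rw [Real.norm_eq_abs]
      apply hdd
      rw [abs_of_pos hy.1]
      linarith [hy.2]
    rw [sub_zero, abs_of_pos hhp] at h2
    calc h⁻¹ * |∫ y in (0:ℝ)..h, (f (s + y) - f s)| ≤ h⁻¹ * (e * h) :=
          mul_le_mul_of_nonneg_left h2 (inv_pos.mpr hhp).le
      _ = e := by field_simp

/-- label function of a continuous state. -/
theorem label {A B : ℝ} (hAB : A < B) {v w : ℝ → ℝ} (hv : Continuous v) (hw : Continuous w)
    (hvA : v A = 0) (hvB : v B = 0) :
    ∃ f : ℝ → ℝ, Continuous f ∧ (∀ s, f (s + 2 * (B - A)) = f s) ∧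
      (∀ e, 0 < e → ∃ d, 0 < d ∧ ∀ s y, |y| < d → |f (s + y) - f s| ≤ e) ∧
      (∀ x ∈ Icc 0 (B - A), f x = w (A + x) + v (A + x) ∧ f (-x) = w (A + x) - v (A + x)) := by
  set L := B - A with hL
  have hLp : 0 < L := by linarith
  have : Fact (0 < 2 * L) := ⟨by positivity⟩
  set g : ℝ → ℝ := fun x => if 0 ≤ x then w (A + x) + v (A + x) else w (A - x) - v (A - x) with hg
  have hgc : Continuous g := by
    apply Continuous.if_le (by fun_prop) (by fun_prop) (by fun_prop) (by fun_prop)
    intro x hx
    rw [← hx]; simp [hvA]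
  have hg1 : g (-L) = g (-L + 2 * L) := by
    have e1 : -L + 2 * L = L := by ring
    rw [e1]
    simp only [hg]
    rw [if_neg (by linarith), if_pos hLp.le]
    have e2 : A - -L = B := by rw [hL]; ring
    have e3 : A + L = B := by rw [hL]; ring
    rw [e2, e3, hvB]; ring
  have hFc : Continuous (AddCircle.liftIco (2 * L) (-L) g) := AddCircle.liftIco_continuous hg1 hgc.continuousOn
  set F : C(AddCircle (2 * L), ℝ) := ⟨AddCircle.liftIco (2 * L) (-L) g, hFc⟩ with hF
  have hFg : ∀ x ∈ Ico (-L) (-L + 2 * L), F (x : AddCircle (2 * L)) = g x := by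
    intro x hx
    have := AddCircle.liftIco_coe_apply (f := g) hx
    exact this
  have hFg' : ∀ x ∈ Icc (-L) L, F (x : AddCircle (2 * L)) = g x := by
    intro x hx
    rcases hx.2.lt_or_eq with h | h
    · exact hFg x ⟨hx.1, by linarith⟩
    · have e1 : (x : AddCircle (2 * L)) = ((-L : ℝ) : AddCircle (2 * L)) := by
        have h0 : x = -L + 2 * L := by linarith
        rw [h0]
        exact AddCircle.coe_add_period _ _
      rw [e1, hFg (-L) ⟨le_rfl, by linarith⟩, hg1]
      congr 1; linarith
  refine ⟨fun s => F (s : AddCircle (2 * L)), ?_, fun s => ?_, ?_, ?_⟩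
  · exact F.continuous.comp (AddCircle.continuous_mk' (2 * L))
  · simp only [AddCircle.coe_add_period]
  · intro e he
    have hu : UniformContinuous F := CompactSpace.uniformContinuous_of_continuous F.continuous
    rw [Metric.uniformContinuous_iff] at hu
    obtain ⟨d, hd, hdd⟩ := hu e he
    refine ⟨d, hd, fun s y hy => ?_⟩
    have := hdd (a := ((s + y : ℝ) : AddCircle (2 * L))) (b := (s : AddCircle (2 * L))) (by
      rw [dist_eq_norm, AddCircle.coe_add, add_sub_cancel_left]
      exact lt_of_le_of_lt QuotientAddGroup.norm_mk_le_norm hy)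
    rw [Real.dist_eq] at this
    exact this.le
  · intro x hx
    have h1 := hFg' x ⟨by linarith [hx.1], hx.2⟩
    have h2 := hFg' (-x) ⟨by linarith [hx.2], by linarith [hx.1]⟩
    refine ⟨?_, ?_⟩
    · change F (x : AddCircle (2 * L)) = _
      rw [h1]; simp only [hg]; rw [if_pos hx.1]
    · change F ((-x : ℝ) : AddCircle (2 * L)) = _
      rw [h2]; simp only [hg]
      rcases hx.1.eq_or_lt with h | h
      · rw [← h]; simp [hvA]
      · rw [if_neg (by linarith), sub_neg_eq_add]

/-- approximation of continuous states by smooth waves. -/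
theorem approx_cont {a al A B : ℝ} (ha : 0 < a) (hal : 0 < al) (hAB : A < B) {v w : ℝ → ℝ}
    (hv : Continuous v) (hw : Continuous w) (hvA : v A = 0) (hvB : v B = 0)
    (hwm : ∫ x in A..B, w x = 0) {e : ℝ} (he : 0 < e) :
    ∃ P Pt Ps : ℝ → ℝ → ℝ, SFlow al (a / 2 ^ (al + 2)) (2 * (B - A)) P Pt Ps ∧
      (∫ s in (0:ℝ)..(2 * (B - A)), P 0 s = 0) ∧
      energyDist A B (fun x => deriv (fun r => iwave A P r x) 0) (fun x => deriv (iwave A P 0) x) v w < e := by
  have hL : 0 < B - A := by linarith
  obtain ⟨f, hfc, hfp, hfu, hfe⟩ := label hAB hv hw hvA hvB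
  set eta := √(e / (4 * (B - A))) with heta
  have hetap : 0 < eta := Real.sqrt_pos.mpr (by positivity)
  have heta2 : eta ^ 2 = e / (4 * (B - A)) := Real.sq_sqrt (by positivity)
  obtain ⟨g, g', hg, hg'c, hgp, hgm, hgf⟩ := steklov hfc hfp hfu hetap
  obtain ⟨P, Pt, Ps, h1, h2, h3, h4, h5, h6, h7, h8⟩ :=
    exists_wave hal (by positivity : 0 < a / 2 ^ (al + 2)) (by positivity : 0 < 2 * (B - A)) hg hg'c hgp
  have hS : SFlow al (a / 2 ^ (al + 2)) (2 * (B - A)) P Pt Ps := ⟨h1, h3, h4, h5, h6, h7, h8⟩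
  refine ⟨P, Pt, Ps, hS, ?_, ?_⟩
  · have e0 : ∫ s in (0:ℝ)..(2 * (B - A)), P 0 s = ∫ s in (0:ℝ)..(2 * (B - A)), f s := by
      rw [← hgm]
      apply intervalIntegral.integral_congr
      intro s _
      exact h2 s
    rw [e0]
    have hi : ∀ a b : ℝ, IntervalIntegrable f volume a b := fun a b => hfc.intervalIntegrable _ _
    have e1 : ∫ s in (0:ℝ)..(2 * (B - A)), f s = ∫ s in (-(B - A))..(B - A), f s := by
      have := int_shift (l := 2 * (B - A)) hfp (-(B - A))
      rw [show -(B - A) + 2 * (B - A) = B - A by ring] at this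
      exact this.symm
    have e2 : ∫ s in (-(B - A))..(B - A), f s = (∫ s in (0:ℝ)..(B - A), f (-s)) + ∫ s in (0:ℝ)..(B - A), f s := by
      rw [intervalIntegral.integral_comp_neg (fun s => f s), neg_zero,
        intervalIntegral.integral_add_adjacent_intervals (hi _ _) (hi _ _)]
    have e3 : (∫ s in (0:ℝ)..(B - A), f (-s)) + ∫ s in (0:ℝ)..(B - A), f s =
        ∫ s in (0:ℝ)..(B - A), 2 * w (A + s) := by
      rw [← intervalIntegral.integral_add (Continuous.intervalIntegrable (by fun_prop) _ _) (hi _ _)]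
      apply intervalIntegral.integral_congr
      intro s hs
      rw [uIcc_of_le hL.le] at hs
      obtain ⟨q1, q2⟩ := hfe s hs
      simp only
      rw [q1, q2]; ring
    rw [e1, e2, e3, intervalIntegral.integral_const_mul,
      intervalIntegral.integral_comp_add_left (fun x => w x) A, add_zero, add_sub_cancel, hwm, mul_zero]
  · have d1 : ∀ x, deriv (fun r => iwave A P r x) 0 = (1 / 2) * (g (x - A) - g (-(x - A))) := by
      intro x
      rw [(iwave_t hS A 0 x).deriv, mul_zero, zero_add, zero_sub, h2, h2]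
    have d2 : ∀ x, deriv (iwave A P 0) x = (1 / 2) * (g (x - A) + g (-(x - A))) := by
      intro x
      rw [(iwave_x hS A 0 x).deriv, mul_zero, zero_add, zero_sub, h2, h2]
    unfold energyDist
    simp only [d1, d2]
    have hgc : Continuous g := continuous_iff_continuousAt.mpr fun s => (hg s).continuousAt
    have hle : ∫ x in A..B, (((1 / 2) * (g (x - A) - g (-(x - A))) - v x) ^ 2 +
        ((1 / 2) * (g (x - A) + g (-(x - A))) - w x) ^ 2) ≤ ∫ x in A..B, 2 * eta ^ 2 := by
      apply intervalIntegral.integral_mono_on hAB.le (Continuous.intervalIntegrable (by fun_prop) _ _)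
        (continuous_const.intervalIntegrable _ _)
      intro x hx
      obtain ⟨q1, q2⟩ := hfe (x - A) ⟨by linarith [hx.1], by linarith [hx.2]⟩
      rw [add_sub_cancel] at q1 q2
      have r1 := abs_le.mp (hgf (x - A))
      have r2 := abs_le.mp (hgf (-(x - A)))
      set p := g (x - A) - f (x - A) with hp
      set q := g (-(x - A)) - f (-(x - A)) with hq
      have s1 : (1 / 2) * (g (x - A) - g (-(x - A))) - v x = (1 / 2) * (p - q) := by
        rw [hp, hq, q1, q2]; ring
      have s2 : (1 / 2) * (g (x - A) + g (-(x - A))) - w x = (1 / 2) * (p + q) := by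
        rw [hp, hq, q1, q2]; ring
      rw [s1, s2]
      have s3 : p ^ 2 ≤ eta ^ 2 := sq_le_sq' r1.1 r1.2
      have s4 : q ^ 2 ≤ eta ^ 2 := sq_le_sq' r2.1 r2.2
      nlinarith
    rw [intervalIntegral.integral_const, smul_eq_mul, heta2] at hle
    have : (B - A) * (2 * (e / (4 * (B - A)))) = e / 2 := by field_simp; ring
    rw [this] at hle
    linarith

end Pool.Agent.Helper383.WaveApprox
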