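import Mathlib
import Pool.Agent.Helper383.WaveApprox

set_option autoImplicit false

open Set Filter Topology MeasureTheory intervalIntegral

namespace Pool.Agent.Helper383.WaveFinal

open Pool.Agent.Helper383.WavePhi Pool.Agent.Helper383.WaveFlow Pool.Agent.Helper383.WaveSup
open Pool.Agent.Helper383.WaveRay Pool.Agent.Helper383.WaveSeq2
open Pool.Agent.Helper383.WaveTrans Pool.Agent.Helper383.WaveSmooth
open Pool.Agent.Helper383.WaveClassical Pool.Agent.Helper383.WaveContr
open Pool.Agent.Helper383.WaveDefs Pool.Agent.Helper383.WaveDecay Pool.Agent.Helper383.WaveApprox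

/-- square integrability of a state. -/
def L2 (A B : ℝ) (f : ℝ → ℝ) : Prop := MemLp f 2 (volume.restrict (Ioo A B))

theorem L2.sq_int {A B : ℝ} (hAB : A ≤ B) {f : ℝ → ℝ} (hf : L2 A B f) :
    IntervalIntegrable (fun x => (f x) ^ 2) volume A B := by
  have h1 : Integrable (fun x => (f x) ^ 2) (volume.restrict (Ioo A B)) := MemLp.integrable_sq hf
  rw [intervalIntegrable_iff_integrableOn_Ioo_of_le hAB]
  exact h1

theorem L2.of_cont {A B : ℝ} {f : ℝ → ℝ} (hf : Continuous f) : L2 A B f := by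
  obtain ⟨C, hC⟩ := (isCompact_Icc (a := A) (b := B)).exists_bound_of_continuousOn hf.continuousOn
  apply MemLp.of_bound (hf.aestronglyMeasurable) C
  rw [ae_restrict_iff' measurableSet_Ioo]
  exact Eventually.of_forall fun x hx => hC x ⟨hx.1.le, hx.2.le⟩

/-- comparison of energies. -/
theorem young {A B : ℝ} (hAB : A ≤ B) {v w v' w' : ℝ → ℝ} (hv : L2 A B v) (hw : L2 A B w)
    (hv' : L2 A B v') (hw' : L2 A B w') {d : ℝ} (hd : 0 < d) :
    energy A B v w ≤ (1 + d) * energy A B v' w' + (1 + 1 / d) * energyDist A B v w v' w' := by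
  have i1 := L2.sq_int (f := v - v') hAB (MemLp.sub hv hv')
  have i2 := L2.sq_int (f := w - w') hAB (MemLp.sub hw hw')
  unfold energy energyDist
  rw [← intervalIntegral.integral_const_mul, ← intervalIntegral.integral_const_mul,
    ← intervalIntegral.integral_add]
  · apply intervalIntegral.integral_mono_on hAB ((hv.sq_int hAB).add (hw.sq_int hAB))
    · exact (((hv'.sq_int hAB).add (hw'.sq_int hAB)).const_mul _).add ((i1.add i2).const_mul _)
    · intro x _
      have key : ∀ p q : ℝ, p ^ 2 ≤ (1 + d) * q ^ 2 + (1 + 1 / d) * (p - q) ^ 2 := by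
        intro p q
        have h1 : 0 ≤ (d * q - (p - q)) ^ 2 / d := by positivity
        have h2 : (d * q - (p - q)) ^ 2 / d = d * q ^ 2 - 2 * q * (p - q) + (p - q) ^ 2 / d := by
          field_simp; ring
        have h3 : (1 + d) * q ^ 2 + (1 + 1 / d) * (p - q) ^ 2 - p ^ 2 =
            d * q ^ 2 - 2 * q * (p - q) + (p - q) ^ 2 / d := by ring
        linarith
      have k1 := key (v x) (v' x)
      have k2 := key (w x) (w' x)
      linarith
  · exact ((hv'.sq_int hAB).add (hw'.sq_int hAB)).const_mul _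
  · exact (i1.add i2).const_mul _

theorem dist_comm' (A B : ℝ) (v w v' w' : ℝ → ℝ) :
    energyDist A B v w v' w' = energyDist A B v' w' v w := by
  unfold energyDist
  apply intervalIntegral.integral_congr
  intro x _
  simp only
  ring

theorem dist_tri {A B : ℝ} (hAB : A ≤ B) {v w v' w' v2 w2 : ℝ → ℝ} (hv : L2 A B v) (hw : L2 A B w)
    (hv' : L2 A B v') (hw' : L2 A B w') (hv2 : L2 A B v2) (hw2 : L2 A B w2) :
    energyDist A B v w v2 w2 ≤ 2 * energyDist A B v w v' w' + 2 * energyDist A B v' w' v2 w2 := by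
  have i1 := L2.sq_int (f := v - v') hAB (MemLp.sub hv hv')
  have i2 := L2.sq_int (f := w - w') hAB (MemLp.sub hw hw')
  have i3 := L2.sq_int (f := v' - v2) hAB (MemLp.sub hv' hv2)
  have i4 := L2.sq_int (f := w' - w2) hAB (MemLp.sub hw' hw2)
  have i5 := L2.sq_int (f := v - v2) hAB (MemLp.sub hv hv2)
  have i6 := L2.sq_int (f := w - w2) hAB (MemLp.sub hw hw2)
  unfold energyDist
  rw [← intervalIntegral.integral_const_mul, ← intervalIntegral.integral_const_mul,
    ← intervalIntegral.integral_add]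
  · apply intervalIntegral.integral_mono_on hAB (i5.add i6)
    · exact ((i1.add i2).const_mul _).add ((i3.add i4).const_mul _)
    · intro x _
      have key : ∀ p q r : ℝ, (p - r) ^ 2 ≤ 2 * (p - q) ^ 2 + 2 * (q - r) ^ 2 := by
        intro p q r
        nlinarith [sq_nonneg ((p - q) - (q - r))]
      have k1 := key (v x) (v' x) (v2 x)
      have k2 := key (w x) (w' x) (w2 x)
      change (v x - v2 x) ^ 2 + (w x - w2 x) ^ 2 ≤ _
      linarith
  · exact (i1.add i2).const_mul _
  · exact (i3.add i4).const_mul _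

theorem dist_nonneg' {A B : ℝ} (hAB : A ≤ B) (v w v' w' : ℝ → ℝ) : 0 ≤ energyDist A B v w v' w' :=
  intervalIntegral.integral_nonneg hAB (fun x _ => by positivity)

/-- velocity and slope of a twice differentiable function are square integrable. -/
theorem L2_vel {A B : ℝ} {u : ℝ → ℝ → ℝ} (hu : ContDiff ℝ 2 (fun q : ℝ × ℝ => u q.1 q.2)) (t : ℝ) :
    L2 A B (fun x => deriv (fun r => u r x) t) := by
  apply L2.of_cont
  have := cont_t (hu.of_le (m := 1) (by norm_num))
  exact this.comp (f := fun x : ℝ => (t, x)) (Continuous.prodMk continuous_const continuous_id)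

theorem L2_slope {A B : ℝ} {u : ℝ → ℝ → ℝ} (hu : ContDiff ℝ 2 (fun q : ℝ × ℝ => u q.1 q.2)) (t : ℝ) :
    L2 A B (fun x => deriv (u t) x) := by
  apply L2.of_cont
  have := cont_x (hu.of_le (m := 1) (by norm_num))
  exact this.comp (f := fun x : ℝ => (t, x)) (Continuous.prodMk continuous_const continuous_id)

/-- approximation by smooth waves. -/
theorem approx_wave {a al A B : ℝ} (ha : 0 < a) (hal : 0 < al) (hAB : A < B) {v w : ℝ → ℝ → ℝ}
    (h : IsEnergySolution a al A B v w) (T : ℝ) {e : ℝ} (he : 0 < e) :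
    ∃ P Pt Ps : ℝ → ℝ → ℝ, SFlow al (a / 2 ^ (al + 2)) (2 * (B - A)) P Pt Ps ∧
      (∫ s in (0:ℝ)..(2 * (B - A)), P 0 s = 0) ∧ ∀ t : ℝ, 0 ≤ t → t ≤ T →
      energyDist A B (fun x => deriv (fun r => iwave A P r x) t) (fun x => deriv (iwave A P t) x)
        (v t) (w t) < e := by
  obtain ⟨u, hu, hud⟩ := h.approx T (e / 4) (by positivity)
  have hu1 := hu.smooth.of_le (m := 1) (by norm_num)
  have c1 : Continuous (fun x => deriv (fun r => u r x) 0) :=
    (cont_t hu1).comp (f := fun x : ℝ => ((0:ℝ), x)) (Continuous.prodMk continuous_const continuous_id)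
  have c2 : Continuous (fun x => deriv (u 0) x) :=
    (cont_x hu1).comp (f := fun x : ℝ => ((0:ℝ), x)) (Continuous.prodMk continuous_const continuous_id)
  have b1 : deriv (fun r => u r A) 0 = 0 := by
    apply deriv_bdry hu.left_bdry _ 0 le_rfl
    exact (cont_t hu1).comp (f := fun r : ℝ => (r, A)) (Continuous.prodMk continuous_id continuous_const)
  have b2 : deriv (fun r => u r B) 0 = 0 := by
    apply deriv_bdry hu.right_bdry _ 0 le_rfl
    exact (cont_t hu1).comp (f := fun r : ℝ => (r, B)) (Continuous.prodMk continuous_id continuous_const)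
  have b3 : ∫ x in A..B, deriv (u 0) x = 0 := by
    rw [intervalIntegral.integral_eq_sub_of_hasDerivAt (f := u 0) (fun x _ => part_x hu1 0 x)
      (c2.intervalIntegrable _ _), hu.left_bdry 0 le_rfl, hu.right_bdry 0 le_rfl, sub_zero]
  obtain ⟨P, Pt, Ps, hP, hm, hd⟩ := approx_cont ha hal hAB c1 c2 b1 b2 b3 (e := e / 4) (by positivity)
  refine ⟨P, Pt, Ps, hP, hm, fun t ht htT => ?_⟩
  have hcl := iwave_classical ha hal hP hm
  have h1 := contraction ha hal hAB.le hcl hu ht
  have h2 := hud t ht htT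
  have h3 := dist_tri hAB.le (L2_vel hcl.smooth t) (L2_slope hcl.smooth t) (L2_vel hu.smooth t)
    (L2_slope hu.smooth t) (h.memLp_velocity t ht) (h.memLp_slope t ht)
  linarith

/-- energy of a smooth wave. -/
theorem energy_iwave {al k A B : ℝ} (hAB : A < B) {P Pt Ps : ℝ → ℝ → ℝ}
    (hP : SFlow al k (2 * (B - A)) P Pt Ps) (t : ℝ) :
    energy A B (fun x => deriv (fun r => iwave A P r x) t) (fun x => deriv (iwave A P t) x) =
      (1 / 2) * en (2 * (B - A)) (P (2 * t)) := by
  have d1 : ∀ x, deriv (fun r => iwave A P r x) t = (1 / 2) * (P (2 * t) (t + (x - A)) - P (2 * t) (t - (x - A))) :=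
    fun x => (iwave_t hP A t x).deriv
  have d2 : ∀ x, deriv (iwave A P t) x = (1 / 2) * (P (2 * t) (t + (x - A)) + P (2 * t) (t - (x - A))) :=
    fun x => (iwave_x hP A t x).deriv
  unfold energy
  simp only [d1, d2]
  rw [intervalIntegral.integral_comp_sub_right (fun x => ((1 / 2) * (P (2 * t) (t + x) - P (2 * t) (t - x))) ^ 2 +
    ((1 / 2) * (P (2 * t) (t + x) + P (2 * t) (t - x))) ^ 2) A, sub_self]
  exact energy_wave (by linarith) (hP.flow.cont_s (2 * t)) (hP.flow.per (2 * t)) t

theorem L2_state {a al A B : ℝ} {v w : ℝ → ℝ → ℝ} (h : IsEnergySolution a al A B v w) {t : ℝ}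
    (ht : 0 ≤ t) : L2 A B (v t) ∧ L2 A B (w t) := ⟨h.memLp_velocity t ht, h.memLp_slope t ht⟩

/-- every nontrivial solution in the energy space has the exact rate. -/
theorem exact_rate {a al A B : ℝ} (ha : 0 < a) (hal : 0 < al) (hAB : A < B) {v w : ℝ → ℝ → ℝ}
    (h : IsEnergySolution a al A B v w) (hne : 0 < energy A B (v 0) (w 0)) :
    ∃ c C : ℝ, 0 < c ∧ 0 < C ∧ ∀ t : ℝ, 0 ≤ t →
      c * (1 + t) ^ (-2 / al) ≤ energy A B (v t) (w t) ∧
      energy A B (v t) (w t) ≤ C * (1 + t) ^ (-2 / al) := by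
  set k : ℝ := a / 2 ^ (al + 2) with hk
  have hkp : 0 < k := by positivity
  set l : ℝ := 2 * (B - A) with hl
  have hlp : 0 < l := by rw [hl]; linarith
  have hexp : -2 / al ≤ 0 := div_nonpos_of_nonpos_of_nonneg (by norm_num) hal.le
  set F : ℝ → ℝ := fun t => energy A B (v t) (w t) with hF
  set E := energy A B (v 0) (w 0) with hE
  -- comparison with a wave
  have cmp : ∀ {T e : ℝ} {P Pt Ps : ℝ → ℝ → ℝ}, SFlow al k l P Pt Ps →
      (∀ t : ℝ, 0 ≤ t → t ≤ T → energyDist A B (fun x => deriv (fun r => iwave A P r x) t)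
        (fun x => deriv (iwave A P t) x) (v t) (w t) < e) → ∀ d : ℝ, 0 < d → ∀ t : ℝ, 0 ≤ t → t ≤ T →
      F t ≤ (1 + d) * ((1 / 2) * en l (P (2 * t))) + (1 + 1 / d) * e ∧
      (1 / 2) * en l (P (2 * t)) ≤ (1 + d) * F t + (1 + 1 / d) * e := by
    intro T e P Pt Ps hP hd d hdp t ht htT
    obtain ⟨l1, l2⟩ := L2_state h ht
    have hsm : ContDiff ℝ 2 (fun q : ℝ × ℝ => iwave A P q.1 q.2) :=
      (wave_contDiff hP.dt hP.ds hP.ct hP.cs hP.odd).comp
        (f := fun q : ℝ × ℝ => (q.1, q.2 - A)) (by fun_prop)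
    have l3 : L2 A B (fun x => deriv (fun r => iwave A P r x) t) := L2_vel hsm t
    have l4 : L2 A B (fun x => deriv (iwave A P t) x) := L2_slope hsm t
    have h1 := young hAB.le l1 l2 l3 l4 hdp
    have h2 := young hAB.le l3 l4 l1 l2 hdp
    have h3 := hd t ht htT
    have h4 : energyDist A B (v t) (w t) (fun x => deriv (fun r => iwave A P r x) t)
        (fun x => deriv (iwave A P t) x) < e := by rw [dist_comm']; exact h3
    have h5 : 0 < 1 + 1 / d := by positivity
    have e1 := energy_iwave hAB hP t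
    rw [e1] at h1 h2
    have h6 := mul_le_mul_of_nonneg_left h4.le h5.le
    have h7 := mul_le_mul_of_nonneg_left h3.le h5.le
    constructor <;> linarith
  -- step one: energy at a small positive time
  obtain ⟨d0, hd0, hd01, hEd⟩ : ∃ d0 : ℝ, 0 < d0 ∧ d0 ≤ 1 ∧ E / 2 ≤ F d0 := by
    obtain ⟨P, Pt, Ps, hP, hm, hd⟩ := approx_wave ha hal hAB h 1 (e := E / 100) (by positivity)
    have hc : Continuous (fun t => (1 / 2) * en l (P (2 * t))) := by
      have h1 : Continuous (fun t => en l (P t)) :=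
        cont_param (F := fun t s => (P t s) ^ 2) (hP.flow.cont.pow 2) 0 l
      exact continuous_const.mul (h1.comp (by fun_prop))
    have h2 : ∀ᶠ t in 𝓝 (0:ℝ), (1 / 2) * en l (P (2 * 0)) - E / 100 < (1 / 2) * en l (P (2 * t)) :=
      (hc.tendsto 0).eventually (lt_mem_nhds (by
        have : 0 < E := hne
        linarith))
    rw [Metric.eventually_nhds_iff] at h2
    obtain ⟨r, hr, hrb⟩ := h2
    have hd0 : 0 < min (r / 2) 1 := lt_min (by positivity) one_pos
    refine ⟨min (r / 2) 1, hd0, min_le_right _ _, ?_⟩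
    have h3 := hrb (y := min (r / 2) 1) (by
      rw [Real.dist_eq, sub_zero, abs_of_pos hd0]
      have := min_le_left (r / 2) 1
      linarith)
    have h4 := (cmp hP hd (1 / 4) (by norm_num) 0 le_rfl zero_le_one).1
    have h5 := (cmp hP hd (1 / 4) (by norm_num) (min (r / 2) 1) hd0.le (min_le_right _ _)).2
    have h6 : F 0 = E := rfl
    rw [h6] at h4
    norm_num at h4 h5
    norm_num at h3
    linarith
  -- constants
  obtain ⟨c, C, hc, hC, hcC⟩ := unif_decay hal hkp hlp (E0 := 4 * E + 4) (ep := E / 4) (d := 2 * d0)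
    (by positivity) (by positivity) (by positivity)
  -- good approximations
  have good : ∀ t, 0 ≤ t → ∀ e, 0 < e → e ≤ 1 → e ≤ E / 8 → ∃ P : ℝ → ℝ → ℝ,
      (∀ t, 2 * d0 ≤ t → c * (1 + t) ^ (-2 / al) ≤ en l (P t) ∧ en l (P t) ≤ C * (1 + t) ^ (-2 / al)) ∧
      E / 4 ≤ en l (P (2 * d0)) ∧ en l (P 0) ≤ 4 * E + 4 ∧
      (∀ a b, 0 ≤ a → a ≤ b → en l (P b) ≤ en l (P a)) ∧
      F t ≤ en l (P (2 * t)) + 2 * e ∧ (1 / 2) * en l (P (2 * t)) ≤ 2 * F t + 2 * e := by
    intro t ht e he he1 heE
    obtain ⟨P, Pt, Ps, hP, hm, hd⟩ := approx_wave ha hal hAB h (max t 1) (e := e) he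
    have g := cmp hP hd 1 one_pos
    have g0 := (g 0 le_rfl (by positivity)).2
    have gd := (g d0 hd0.le (hd01.trans (le_max_right _ _))).1
    have gt := g t ht (le_max_left _ _)
    have h6 : F 0 = E := rfl
    rw [h6, mul_zero] at g0
    norm_num at g0 gd gt
    have k1 : en l (P 0) ≤ 4 * E + 4 := by linarith
    have k2 : E / 4 ≤ en l (P (2 * d0)) := by linarith
    exact ⟨P, hcC P Pt Ps hP hm k1 k2, k2, k1, fun a b ha hab => en_anti hal hkp hlp hP.flow ha hab,
      by linarith [gt.1], by linarith [gt.2]⟩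
  have hEp : 0 < E := hne
  have lim_le : ∀ {x y M e0 : ℝ}, 0 < e0 → (∀ e, 0 < e → e ≤ e0 → x ≤ y + M * e) → x ≤ y := by
    intro x y M e0 he0 hh
    by_contra hcon
    push Not at hcon
    have hM : 0 < |M| + 1 := by positivity
    have h1 := hh (min e0 ((x - y) / (2 * (|M| + 1)))) (lt_min he0 (div_pos (by linarith) (by positivity)))
      (min_le_left _ _)
    have h2 := min_le_right e0 ((x - y) / (2 * (|M| + 1)))
    have h3 : 0 < min e0 ((x - y) / (2 * (|M| + 1))) := lt_min he0 (div_pos (by linarith) (by positivity))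
    have h4 : M * min e0 ((x - y) / (2 * (|M| + 1))) ≤ (|M| + 1) * ((x - y) / (2 * (|M| + 1))) := by
      have : M ≤ |M| + 1 := by have := le_abs_self M; linarith
      calc M * min e0 ((x - y) / (2 * (|M| + 1))) ≤ (|M| + 1) * min e0 ((x - y) / (2 * (|M| + 1))) :=
            mul_le_mul_of_nonneg_right this h3.le
        _ ≤ _ := mul_le_mul_of_nonneg_left h2 hM.le
    have h5 : (|M| + 1) * ((x - y) / (2 * (|M| + 1))) = (x - y) / 2 := by field_simp
    linarith
  have he0 : 0 < min 1 (E / 8) := lt_min one_pos (by positivity)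
  -- final constants
  refine ⟨min (c / 4 * 2 ^ (-2 / al)) (E / 16), max C ((4 * E + 4) * 2 ^ (2 / al)),
    lt_min (by positivity) (by positivity), lt_max_of_lt_left hC, fun t ht => ?_⟩
  have h1t : (0:ℝ) < 1 + t := by linarith
  have hrp : 0 < (1 + t) ^ (-2 / al) := Real.rpow_pos_of_pos h1t _
  rcases le_total d0 t with hdt | hdt
  · have h2t : (0:ℝ) < 1 + 2 * t := by linarith
    constructor
    · have s1 : c / 4 * (1 + 2 * t) ^ (-2 / al) ≤ F t := by
        apply lim_le (M := 1) he0
        intro e he hee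
        obtain ⟨P, p1, _, _, _, _, p6⟩ := good t ht e he (hee.trans (min_le_left _ _)) (hee.trans (min_le_right _ _))
        have := (p1 (2 * t) (by linarith)).1
        linarith
      have s2 : (2 * (1 + t)) ^ (-2 / al) ≤ (1 + 2 * t) ^ (-2 / al) :=
        Real.rpow_le_rpow_of_nonpos h2t (by linarith) hexp
      rw [Real.mul_rpow (by norm_num) h1t.le] at s2
      calc min (c / 4 * 2 ^ (-2 / al)) (E / 16) * (1 + t) ^ (-2 / al) ≤
          (c / 4 * 2 ^ (-2 / al)) * (1 + t) ^ (-2 / al) := mul_le_mul_of_nonneg_right (min_le_left _ _) hrp.le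
        _ = c / 4 * (2 ^ (-2 / al) * (1 + t) ^ (-2 / al)) := by ring
        _ ≤ c / 4 * (1 + 2 * t) ^ (-2 / al) := mul_le_mul_of_nonneg_left s2 (by positivity)
        _ ≤ F t := s1
    · have s1 : F t ≤ C * (1 + 2 * t) ^ (-2 / al) := by
        apply lim_le (M := 2) he0
        intro e he hee
        obtain ⟨P, p1, _, _, _, p5, _⟩ := good t ht e he (hee.trans (min_le_left _ _)) (hee.trans (min_le_right _ _))
        have := (p1 (2 * t) (by linarith)).2
        linarith
      have s2 : (1 + 2 * t) ^ (-2 / al) ≤ (1 + t) ^ (-2 / al) :=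
        Real.rpow_le_rpow_of_nonpos h1t (by linarith) hexp
      calc F t ≤ C * (1 + 2 * t) ^ (-2 / al) := s1
        _ ≤ C * (1 + t) ^ (-2 / al) := mul_le_mul_of_nonneg_left s2 hC.le
        _ ≤ _ := mul_le_mul_of_nonneg_right (le_max_left _ _) hrp.le
  · constructor
    · have s1 : E / 16 ≤ F t := by
        apply lim_le (M := 1) he0
        intro e he hee
        obtain ⟨P, _, p2, _, p4, _, p6⟩ := good t ht e he (hee.trans (min_le_left _ _)) (hee.trans (min_le_right _ _))
        have := p4 (2 * t) (2 * d0) (by positivity) (by linarith)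
        linarith
      have s2 : (1 + t) ^ (-2 / al) ≤ 1 := Real.rpow_le_one_of_one_le_of_nonpos (by linarith) hexp
      calc min (c / 4 * 2 ^ (-2 / al)) (E / 16) * (1 + t) ^ (-2 / al) ≤
          (E / 16) * (1 + t) ^ (-2 / al) := mul_le_mul_of_nonneg_right (min_le_right _ _) hrp.le
        _ ≤ (E / 16) * 1 := mul_le_mul_of_nonneg_left s2 (by positivity)
        _ ≤ F t := by linarith
    · have s1 : F t ≤ 4 * E + 4 := by
        apply lim_le (M := 2) he0
        intro e he hee
        obtain ⟨P, _, _, p3, p4, p5, _⟩ := good t ht e he (hee.trans (min_le_left _ _)) (hee.trans (min_le_right _ _))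
        have := p4 0 (2 * t) le_rfl (by positivity)
        linarith
      have s2 : (2:ℝ) ^ (-2 / al) ≤ (1 + t) ^ (-2 / al) :=
        Real.rpow_le_rpow_of_nonpos h1t (by linarith) hexp
      have s3 : (2:ℝ) ^ (2 / al) * 2 ^ (-2 / al) = 1 := by
        rw [← Real.rpow_add (by norm_num)]
        have : 2 / al + -2 / al = 0 := by ring
        rw [this, Real.rpow_zero]
      calc F t ≤ 4 * E + 4 := s1
        _ = ((4 * E + 4) * 2 ^ (2 / al)) * 2 ^ (-2 / al) := by rw [mul_assoc, s3, mul_one]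
        _ ≤ ((4 * E + 4) * 2 ^ (2 / al)) * (1 + t) ^ (-2 / al) :=
            mul_le_mul_of_nonneg_left s2 (by positivity)
        _ ≤ _ := mul_le_mul_of_nonneg_right (le_max_right _ _) hrp.le

end Pool.Agent.Helper383.WaveFinal
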