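import Mathlib
import Pool.Agent.Helper383.WaveFinal

set_option autoImplicit false

open Set Filter Topology MeasureTheory intervalIntegral

namespace Pool.Agent.Helper383.WaveWell

open Pool.Agent.Helper383.WaveContr
open Pool.Agent.Helper383.WaveDefs Pool.Agent.Helper383.WaveDecay Pool.Agent.Helper383.WaveApprox
open Pool.Agent.Helper383.WaveFinal Pool.Agent.Helper383.WaveSmooth

theorem ii {A B : ℝ} (hAB : A ≤ B) (h : ℝ → ℝ) : ∫ x in A..B, h x = ∫ x, h x ∂(volume.restrict (Ioo A B)) := by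
  rw [intervalIntegral.integral_of_le hAB, integral_Ioc_eq_integral_Ioo]

theorem L2.int {A B : ℝ} (hAB : A ≤ B) {f : ℝ → ℝ} (hf : L2 A B f) : IntervalIntegrable f volume A B := by
  have h0 : IsFiniteMeasure (volume.restrict (Ioo A B)) := by
    constructor; rw [Measure.restrict_apply_univ]; exact measure_Ioo_lt_top
  have h1 : Integrable f (volume.restrict (Ioo A B)) := MemLp.integrable (by norm_num) hf
  rw [intervalIntegrable_iff_integrableOn_Ioo_of_le hAB]
  exact h1

/-- Cauchy-Schwarz against constants. -/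
theorem cs_one {A B : ℝ} (hAB : A < B) {f : ℝ → ℝ} (hf : L2 A B f) :
    (∫ x in A..B, f x) ^ 2 ≤ (B - A) * ∫ x in A..B, (f x) ^ 2 := by
  have hL : 0 < B - A := by linarith
  set m := ∫ x in A..B, f x with hm
  have i1 := L2.int hAB.le hf
  have i2 := L2.sq_int hAB.le hf
  have h1 : 0 ≤ ∫ x in A..B, (f x - m / (B - A)) ^ 2 :=
    intervalIntegral.integral_nonneg hAB.le (fun s _ => sq_nonneg _)
  have h2 : ∫ x in A..B, (f x - m / (B - A)) ^ 2 =
      (∫ x in A..B, (f x) ^ 2) - (2 * (m / (B - A))) * m + (m / (B - A)) ^ 2 * (B - A) := by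
    have : ∀ x, (f x - m / (B - A)) ^ 2 = (f x) ^ 2 - (2 * (m / (B - A))) * f x + (m / (B - A)) ^ 2 := by
      intro x; ring
    simp only [this]
    rw [intervalIntegral.integral_add (i2.sub (i1.const_mul _)) (continuous_const.intervalIntegrable _ _),
      intervalIntegral.integral_sub i2 (i1.const_mul _),
      intervalIntegral.integral_const_mul, intervalIntegral.integral_const, smul_eq_mul, ← hm]
    ring
  rw [h2] at h1
  have h3 : (2 * (m / (B - A))) * m - (m / (B - A)) ^ 2 * (B - A) = m ^ 2 / (B - A) := by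
    field_simp; ring
  have h4 : m ^ 2 / (B - A) ≤ ∫ x in A..B, (f x) ^ 2 := by linarith
  rw [div_le_iff₀ hL] at h4
  linarith

/-- density of continuous functions. -/
theorem dens0 {A B : ℝ} (hAB : A < B) {f : ℝ → ℝ} (hf : L2 A B f) {e : ℝ} (he : 0 < e) :
    ∃ g : ℝ → ℝ, Continuous g ∧ ∫ x in A..B, (f x - g x) ^ 2 ≤ e := by
  have hf' : MemLp f (ENNReal.ofReal 2) (volume.restrict (Ioo A B)) := by
    have : ENNReal.ofReal 2 = 2 := by norm_num
    rw [this]; exact hf
  obtain ⟨g, hg, _⟩ := hf'.exists_boundedContinuous_integral_rpow_sub_le (by norm_num) he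
  refine ⟨g, g.continuous, ?_⟩
  rw [ii hAB.le]
  refine le_trans (le_of_eq ?_) hg
  apply MeasureTheory.integral_congr_ae
  refine Eventually.of_forall fun x => ?_
  simp only [Real.norm_eq_abs]
  rw [show (2:ℝ) = ((2:ℕ):ℝ) by norm_num, Real.rpow_natCast, sq_abs]

/-- cut-off. -/
noncomputable def chi (A B : ℝ) (n : ℕ) (x : ℝ) : ℝ := max 0 (min 1 (min (n * (x - A)) (n * (B - x))))

theorem chi_cont (A B : ℝ) (n : ℕ) : Continuous (chi A B n) := by unfold chi; fun_prop

theorem chi_A (A B : ℝ) (n : ℕ) (hAB : A ≤ B) : chi A B n A = 0 := by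
  unfold chi
  rw [sub_self, mul_zero]
  have : (0:ℝ) ≤ n * (B - A) := mul_nonneg n.cast_nonneg (by linarith)
  rw [min_eq_left this, min_eq_right zero_le_one, max_self]

theorem chi_B (A B : ℝ) (n : ℕ) (hAB : A ≤ B) : chi A B n B = 0 := by
  unfold chi
  rw [sub_self, mul_zero]
  have : (0:ℝ) ≤ n * (B - A) := mul_nonneg n.cast_nonneg (by linarith)
  rw [min_eq_right this, min_eq_right zero_le_one, max_self]

theorem chi_mem (A B : ℝ) (n : ℕ) (x : ℝ) : 0 ≤ chi A B n x ∧ chi A B n x ≤ 1 := by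
  unfold chi
  exact ⟨le_max_left _ _, max_le zero_le_one (min_le_left _ _)⟩

theorem chi_tend {A B x : ℝ} (hx : x ∈ Ioo A B) : Tendsto (fun n : ℕ => chi A B n x) atTop (𝓝 1) := by
  apply tendsto_const_nhds.congr'
  obtain ⟨n0, hn0⟩ := exists_nat_ge (max (1 / (x - A)) (1 / (B - x)))
  filter_upwards [eventually_ge_atTop n0] with n hn
  have hn' : max (1 / (x - A)) (1 / (B - x)) ≤ n := hn0.trans (by exact_mod_cast hn)
  have hxA : 0 < x - A := by linarith [hx.1]
  have hxB : 0 < B - x := by linarith [hx.2]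
  have h1 : 1 ≤ (n:ℝ) * (x - A) := by
    have := (le_max_left _ _).trans hn'
    rwa [div_le_iff₀ hxA] at this
  have h2 : 1 ≤ (n:ℝ) * (B - x) := by
    have := (le_max_right _ _).trans hn'
    rwa [div_le_iff₀ hxB] at this
  unfold chi
  rw [min_eq_left (le_min h1 h2), max_eq_right zero_le_one]

theorem dens {A B : ℝ} (hAB : A < B) {f : ℝ → ℝ} (hf : L2 A B f) {e : ℝ} (he : 0 < e) :
    ∃ g : ℝ → ℝ, Continuous g ∧ g A = 0 ∧ g B = 0 ∧ ∫ x in A..B, (f x - g x) ^ 2 ≤ e := by
  obtain ⟨g, hg, hge⟩ := dens0 hAB hf (e := e / 4) (by positivity)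
  obtain ⟨C, hC⟩ := (isCompact_Icc (a := A) (b := B)).exists_bound_of_continuousOn hg.continuousOn
  have h0 : IsFiniteMeasure (volume.restrict (Ioo A B)) := by
    constructor; rw [Measure.restrict_apply_univ]; exact measure_Ioo_lt_top
  have ht : Tendsto (fun n : ℕ => ∫ x, (g x - chi A B n x * g x) ^ 2 ∂(volume.restrict (Ioo A B))) atTop
      (𝓝 (∫ x, (0:ℝ) ∂(volume.restrict (Ioo A B)))) := by
    apply tendsto_integral_of_dominated_convergence (fun _ => C ^ 2)
    · intro n
      have := chi_cont A B n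
      exact Continuous.aestronglyMeasurable (by fun_prop)
    · exact integrable_const _
    · intro n
      rw [ae_restrict_iff' measurableSet_Ioo]
      refine Eventually.of_forall fun x hx => ?_
      have h1 := hC x ⟨hx.1.le, hx.2.le⟩
      have h2 := chi_mem A B n x
      rw [Real.norm_eq_abs] at h1 ⊢
      rw [abs_of_nonneg (sq_nonneg _), show g x - chi A B n x * g x = (1 - chi A B n x) * g x by ring, mul_pow]
      have h3 : (1 - chi A B n x) ^ 2 ≤ 1 := by nlinarith
      have h4 : (g x) ^ 2 ≤ C ^ 2 := by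
        rw [← sq_abs (g x)]; exact pow_le_pow_left₀ (abs_nonneg _) h1 2
      calc (1 - chi A B n x) ^ 2 * g x ^ 2 ≤ 1 * C ^ 2 :=
            mul_le_mul h3 h4 (sq_nonneg _) zero_le_one
        _ = C ^ 2 := one_mul _
    · rw [ae_restrict_iff' measurableSet_Ioo]
      refine Eventually.of_forall fun x hx => ?_
      have h1 := chi_tend hx
      have h2 : Tendsto (fun n : ℕ => (g x - chi A B n x * g x) ^ 2) atTop (𝓝 ((g x - 1 * g x) ^ 2)) :=
        ((tendsto_const_nhds.sub (h1.mul tendsto_const_nhds)).pow 2)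
      simpa using h2
  rw [integral_zero] at ht
  obtain ⟨n, hn⟩ := (ht.eventually (gt_mem_nhds (show (0:ℝ) < e / 4 by positivity))).exists
  have hcc := chi_cont A B n
  refine ⟨fun x => chi A B n x * g x, by fun_prop, by simp [chi_A A B n hAB.le],
    by simp [chi_B A B n hAB.le], ?_⟩
  rw [← ii hAB.le] at hn
  have l1 : L2 A B g := L2.of_cont hg
  have l2 : L2 A B (fun x => chi A B n x * g x) := L2.of_cont (by fun_prop)
  have i1 : IntervalIntegrable (fun x => (f x - g x) ^ 2) volume A B :=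
    L2.sq_int (f := f - g) hAB.le (MemLp.sub hf l1)
  have i2 : IntervalIntegrable (fun x => (g x - chi A B n x * g x) ^ 2) volume A B :=
    L2.sq_int (f := g - fun x => chi A B n x * g x) hAB.le (MemLp.sub l1 l2)
  have i3 : IntervalIntegrable (fun x => (f x - chi A B n x * g x) ^ 2) volume A B :=
    L2.sq_int (f := f - fun x => chi A B n x * g x) hAB.le (MemLp.sub hf l2)
  have h5 : ∫ x in A..B, (f x - chi A B n x * g x) ^ 2 ≤
      ∫ x in A..B, (2 * (f x - g x) ^ 2 + 2 * (g x - chi A B n x * g x) ^ 2) := by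
    apply intervalIntegral.integral_mono_on hAB.le i3 ((i1.const_mul 2).add (i2.const_mul 2))
    intro x _
    nlinarith [sq_nonneg ((f x - g x) - (g x - chi A B n x * g x))]
  rw [intervalIntegral.integral_add (i1.const_mul 2) (i2.const_mul 2),
    intervalIntegral.integral_const_mul, intervalIntegral.integral_const_mul] at h5
  simp only
  linarith

/-- approximation of an arbitrary state by classical solutions. -/
theorem approx_state {a al A B : ℝ} (ha : 0 < a) (hal : 0 < al) (hAB : A < B) {v w : ℝ → ℝ}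
    (hv : L2 A B v) (hw : L2 A B w) (hwm : ∫ x in A..B, w x = 0) {e : ℝ} (he : 0 < e) :
    ∃ u : ℝ → ℝ → ℝ, IsClassicalSolution a al A B u ∧
      energyDist A B (fun x => deriv (fun r => u r x) 0) (fun x => deriv (u 0) x) v w < e := by
  have hL : 0 < B - A := by linarith
  obtain ⟨v1, hv1, hvA, hvB, hvd⟩ := dens hAB hv (e := e / 16) (by positivity)
  obtain ⟨w1, hw1, hwd⟩ := dens0 hAB hw (e := e / 64) (by positivity)
  set m := (∫ x in A..B, w1 x) / (B - A) with hm
  have lw1 : L2 A B w1 := L2.of_cont hw1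
  have lv1 : L2 A B v1 := L2.of_cont hv1
  have hwm2 : ∫ x in A..B, (w1 x - m) = 0 := by
    rw [intervalIntegral.integral_sub (hw1.intervalIntegrable _ _) (continuous_const.intervalIntegrable _ _),
      intervalIntegral.integral_const, smul_eq_mul, hm]
    field_simp; ring
  have hm2 : m ^ 2 * (B - A) ≤ e / 64 := by
    have h1 := cs_one hAB (f := w - w1) (MemLp.sub hw lw1)
    have h2 : ∫ x in A..B, (w - w1) x = - ((B - A) * m) := by
      have : ∫ x in A..B, (w - w1) x = (∫ x in A..B, w x) - ∫ x in A..B, w1 x :=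
        intervalIntegral.integral_sub (L2.int hAB.le hw) (hw1.intervalIntegrable _ _)
      rw [this, hwm, hm]; field_simp; ring
    rw [h2] at h1
    have h3 : ∫ x in A..B, (w - w1) x ^ 2 ≤ e / 64 := hwd
    have h4 := mul_le_mul_of_nonneg_left h3 hL.le
    have h5 : (B - A) * (m ^ 2 * (B - A)) ≤ (B - A) * (e / 64) := by
      have : (-((B - A) * m)) ^ 2 = (B - A) * (m ^ 2 * (B - A)) := by ring
      rw [this] at h1; linarith
    exact le_of_mul_le_mul_left h5 hL
  obtain ⟨P, Pt, Ps, hP, hPm, hPd⟩ := approx_cont ha hal hAB hv1 (w := fun x => w1 x - m) (by fun_prop)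
    hvA hvB hwm2 (e := e / 4) (by positivity)
  have hcl := iwave_classical ha hal hP hPm
  refine ⟨iwave A P, hcl, ?_⟩
  have lw2 : L2 A B (fun x => w1 x - m) := L2.of_cont (by fun_prop)
  have h1 := dist_tri hAB.le (L2_vel hcl.smooth 0) (L2_slope hcl.smooth 0) lv1 lw2 hv hw
  have h2 : energyDist A B v1 (fun x => w1 x - m) v w ≤ e / 8 := by
    unfold energyDist
    have i1 : IntervalIntegrable (fun x => (v1 x - v x) ^ 2) volume A B :=
      L2.sq_int (f := v1 - v) hAB.le (MemLp.sub lv1 hv)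
    have i2 : IntervalIntegrable (fun x => (w1 x - m - w x) ^ 2) volume A B :=
      L2.sq_int (f := (fun x => w1 x - m) - w) hAB.le (MemLp.sub lw2 hw)
    have i3 : IntervalIntegrable (fun x => (w x - w1 x) ^ 2) volume A B :=
      L2.sq_int (f := w - w1) hAB.le (MemLp.sub hw lw1)
    have s1 : ∫ x in A..B, ((v1 x - v x) ^ 2 + (w1 x - m - w x) ^ 2) =
        (∫ x in A..B, (v1 x - v x) ^ 2) + ∫ x in A..B, (w1 x - m - w x) ^ 2 :=
      intervalIntegral.integral_add i1 i2
    have s2 : ∫ x in A..B, (v1 x - v x) ^ 2 ≤ e / 16 := by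
      refine le_trans (le_of_eq ?_) hvd
      apply intervalIntegral.integral_congr
      intro x _; simp only; ring
    have s3 : ∫ x in A..B, (w1 x - m - w x) ^ 2 ≤ ∫ x in A..B, (2 * (w x - w1 x) ^ 2 + 2 * m ^ 2) := by
      apply intervalIntegral.integral_mono_on hAB.le i2 ((i3.const_mul 2).add (continuous_const.intervalIntegrable _ _))
      intro x _
      nlinarith [sq_nonneg ((w x - w1 x) - m)]
    have s4 : ∫ x in A..B, (2 * (w x - w1 x) ^ 2 + 2 * m ^ 2) =
        2 * (∫ x in A..B, (w x - w1 x) ^ 2) + (B - A) * (2 * m ^ 2) := by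
      rw [intervalIntegral.integral_add (i3.const_mul 2) (continuous_const.intervalIntegrable _ _),
        intervalIntegral.integral_const, smul_eq_mul, intervalIntegral.integral_const_mul]
    rw [s1]
    rw [s4] at s3
    linarith
  linarith

/-- continuous dependence in the energy norm. -/
theorem stab {a al A B : ℝ} (ha : 0 < a) (hal : 0 < al) (hAB : A < B) {v w v' w' : ℝ → ℝ → ℝ}
    (h : IsEnergySolution a al A B v w) (h' : IsEnergySolution a al A B v' w') {t : ℝ} (ht : 0 ≤ t)
    {D : ℝ} (hD : energyDist A B (v 0) (w 0) (v' 0) (w' 0) ≤ D) :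
    energyDist A B (v t) (w t) (v' t) (w' t) ≤ 16 * D := by
  by_contra hcon
  push Not at hcon
  set X := energyDist A B (v t) (w t) (v' t) (w' t) with hX
  obtain ⟨u, hu, hud⟩ := h.approx t ((X - 16 * D) / 64) (by linarith)
  obtain ⟨u', hu', hud'⟩ := h'.approx t ((X - 16 * D) / 64) (by linarith)
  have c1 := contraction ha hal hAB.le hu hu' ht
  obtain ⟨a1, a2⟩ := L2_state h ht
  obtain ⟨a3, a4⟩ := L2_state h' ht
  obtain ⟨b1, b2⟩ := L2_state h le_rfl
  obtain ⟨b3, b4⟩ := L2_state h' le_rfl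
  have d1 := hud t ht le_rfl
  have d2 := hud' t ht le_rfl
  have d3 := hud 0 le_rfl ht
  have d4 := hud' 0 le_rfl ht
  have t1 := dist_tri hAB.le a1 a2 (L2_vel hu.smooth t) (L2_slope hu.smooth t) a3 a4
  have t2 := dist_tri hAB.le (L2_vel hu.smooth t) (L2_slope hu.smooth t) (L2_vel hu'.smooth t)
    (L2_slope hu'.smooth t) a3 a4
  have t3 := dist_tri hAB.le (L2_vel hu.smooth 0) (L2_slope hu.smooth 0) b1 b2
    (L2_vel hu'.smooth 0) (L2_slope hu'.smooth 0)
  have t4 := dist_tri hAB.le b1 b2 b3 b4 (L2_vel hu'.smooth 0) (L2_slope hu'.smooth 0)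
  have e1 := dist_comm' A B (v t) (w t) (fun x => deriv (fun r => u r x) t) (fun x => deriv (u t) x)
  have e2 := dist_comm' A B (fun x => deriv (fun r => u' r x) 0) (fun x => deriv (u' 0) x) (v' 0) (w' 0)
  linarith

end Pool.Agent.Helper383.WaveWell
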