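import Mathlib
import Pool.Agent.Helper383.WaveWell

set_option autoImplicit false

open Set Filter Topology MeasureTheory intervalIntegral

namespace Pool.Agent.Helper383.WaveWell2

open Pool.Agent.Helper383.WaveContr
open Pool.Agent.Helper383.WaveDefs Pool.Agent.Helper383.WaveDecay Pool.Agent.Helper383.WaveApprox
open Pool.Agent.Helper383.WaveFinal Pool.Agent.Helper383.WaveSmooth Pool.Agent.Helper383.WaveWell

open scoped RealInnerProductSpace

theorem norm_sq_Lp {mu : Measure ℝ} (f : Lp ℝ 2 mu) : ‖f‖ ^ 2 = ∫ x, (f x) ^ 2 ∂mu := by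
  rw [← real_inner_self_eq_norm_sq, L2.inner_def]
  apply MeasureTheory.integral_congr_ae
  refine Eventually.of_forall fun x => ?_
  simp only [RCLike.inner_apply, conj_trivial]
  ring

theorem dist_toLp {mu : Measure ℝ} {f : ℝ → ℝ} (hf : MemLp f 2 mu) (g : Lp ℝ 2 mu) :
    (dist (hf.toLp f) g) ^ 2 = ∫ x, (f x - g x) ^ 2 ∂mu := by
  rw [dist_eq_norm, norm_sq_Lp]
  apply MeasureTheory.integral_congr_ae
  filter_upwards [Lp.coeFn_sub (hf.toLp f) g, hf.coeFn_toLp] with x h1 h2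
  rw [h1, Pi.sub_apply, h2]

theorem dist_toLp2 {mu : Measure ℝ} {f g : ℝ → ℝ} (hf : MemLp f 2 mu) (hg : MemLp g 2 mu) :
    (dist (hf.toLp f) (hg.toLp g)) ^ 2 = ∫ x, (f x - g x) ^ 2 ∂mu := by
  rw [dist_toLp hf]
  apply MeasureTheory.integral_congr_ae
  filter_upwards [hg.coeFn_toLp] with x h2
  rw [h2]

/-- limits of rapidly converging sequences. -/
theorem lim_L2 {A B : ℝ} (hAB : A < B) {f : ℕ → ℝ → ℝ} (hf : ∀ n, L2 A B (f n))
    (hc : ∀ n, ∫ x in A..B, (f n x - f (n + 1) x) ^ 2 ≤ 4 * (1 / 4 : ℝ) ^ n) :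
    ∃ g : ℝ → ℝ, L2 A B g ∧ ∀ n, ∫ x in A..B, (f n x - g x) ^ 2 ≤ 16 * (1 / 4 : ℝ) ^ n := by
  have hf' : ∀ n, MemLp (f n) 2 (volume.restrict (Ioo A B)) := hf
  have hsq : ∀ n : ℕ, ((1:ℝ) / 4) ^ n = (((1:ℝ) / 2) ^ n) ^ 2 := by
    intro n
    rw [← pow_mul, mul_comm n 2, pow_mul]; norm_num
  have h1 : ∀ n, dist ((hf' n).toLp (f n)) ((hf' (n + 1)).toLp (f (n + 1))) ≤ 2 * (1 / 2 : ℝ) ^ n := by
    intro n
    apply (sq_le_sq₀ dist_nonneg (by positivity)).mp
    rw [dist_toLp2, mul_pow, ← hsq n]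
    have := hc n
    rw [ii hAB.le] at this
    norm_num at this ⊢
    exact this
  have h2 := cauchySeq_of_le_geometric (1 / 2 : ℝ) 2 (by norm_num) h1
  obtain ⟨g, hg⟩ := cauchySeq_tendsto_of_complete h2
  refine ⟨g, Lp.memLp g, fun n => ?_⟩
  have h3 := dist_le_of_le_geometric_of_tendsto (1 / 2 : ℝ) 2 (by norm_num) h1 hg n
  have h4 : (dist ((hf' n).toLp (f n)) g) ^ 2 ≤ (2 * (1 / 2 : ℝ) ^ n / (1 - 1 / 2)) ^ 2 :=
    pow_le_pow_left₀ dist_nonneg h3 2
  rw [dist_toLp] at h4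
  rw [ii hAB.le]
  refine h4.trans (le_of_eq ?_)
  rw [hsq n]; ring

/-- existence of solutions in the energy space. -/
theorem exists_solution {a al A B : ℝ} (ha : 0 < a) (hal : 0 < al) (hAB : A < B) {v0 w0 : ℝ → ℝ}
    (hv : MemLp v0 2 (volume.restrict (Ioo A B))) (hw : MemLp w0 2 (volume.restrict (Ioo A B)))
    (hwm : ∫ x in A..B, w0 x = 0) :
    ∃ v w : ℝ → ℝ → ℝ, IsEnergySolution a al A B v w ∧ v 0 = v0 ∧ w 0 = w0 := by
  have h1 : ∀ n : ℕ, ∃ u : ℝ → ℝ → ℝ, IsClassicalSolution a al A B u ∧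
      energyDist A B (fun x => deriv (fun r => u r x) 0) (fun x => deriv (u 0) x) v0 w0 < (1 / 4 : ℝ) ^ n :=
    fun n => approx_state ha hal hAB hv hw hwm (by positivity)
  choose u hu hud using h1
  have hdist : ∀ n t, 0 ≤ t → energyDist A B (fun x => deriv (fun r => u n r x) t) (fun x => deriv (u n t) x)
      (fun x => deriv (fun r => u (n + 1) r x) t) (fun x => deriv (u (n + 1) t) x) ≤ 4 * (1 / 4 : ℝ) ^ n := by
    intro n t ht
    have c1 := contraction ha hal hAB.le (hu n) (hu (n + 1)) ht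
    have c2 := dist_tri hAB.le (L2_vel (hu n).smooth 0) (L2_slope (hu n).smooth 0) hv hw
      (L2_vel (hu (n + 1)).smooth 0) (L2_slope (hu (n + 1)).smooth 0)
    have c3 := hud n
    have c4 := hud (n + 1)
    rw [dist_comm'] at c4
    have c5 : (1 / 4 : ℝ) ^ (n + 1) ≤ (1 / 4 : ℝ) ^ n := by
      rw [pow_succ]
      have : (0:ℝ) ≤ (1 / 4) ^ n := by positivity
      linarith
    linarith
  have hsplit : ∀ n t, 0 ≤ t →
      (∫ x in A..B, (deriv (fun r => u n r x) t - deriv (fun r => u (n + 1) r x) t) ^ 2 ≤ 4 * (1 / 4 : ℝ) ^ n) ∧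
      (∫ x in A..B, (deriv (u n t) x - deriv (u (n + 1) t) x) ^ 2 ≤ 4 * (1 / 4 : ℝ) ^ n) := by
    intro n t ht
    have h2 := hdist n t ht
    unfold energyDist at h2
    have i1 : IntervalIntegrable (fun x => (deriv (fun r => u n r x) t - deriv (fun r => u (n + 1) r x) t) ^ 2) volume A B :=
      L2.sq_int (f := (fun x => deriv (fun r => u n r x) t) - fun x => deriv (fun r => u (n + 1) r x) t) hAB.le
        (MemLp.sub (L2_vel (hu n).smooth t) (L2_vel (hu (n + 1)).smooth t))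
    have i2 : IntervalIntegrable (fun x => (deriv (u n t) x - deriv (u (n + 1) t) x) ^ 2) volume A B :=
      L2.sq_int (f := (fun x => deriv (u n t) x) - fun x => deriv (u (n + 1) t) x) hAB.le
        (MemLp.sub (L2_slope (hu n).smooth t) (L2_slope (hu (n + 1)).smooth t))
    rw [intervalIntegral.integral_add i1 i2] at h2
    have p1 : 0 ≤ ∫ x in A..B, (deriv (fun r => u n r x) t - deriv (fun r => u (n + 1) r x) t) ^ 2 :=
      intervalIntegral.integral_nonneg hAB.le (fun _ _ => sq_nonneg _)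
    have p2 : 0 ≤ ∫ x in A..B, (deriv (u n t) x - deriv (u (n + 1) t) x) ^ 2 :=
      intervalIntegral.integral_nonneg hAB.le (fun _ _ => sq_nonneg _)
    constructor <;> linarith
  have hlim : ∀ t, ∃ v w : ℝ → ℝ, 0 ≤ t → (L2 A B v ∧ L2 A B w ∧
      ∀ n, energyDist A B (fun x => deriv (fun r => u n r x) t) (fun x => deriv (u n t) x) v w ≤
        32 * (1 / 4 : ℝ) ^ n) := by
    intro t
    by_cases ht : 0 ≤ t
    · obtain ⟨v, hv1, hv2⟩ := lim_L2 hAB (f := fun n x => deriv (fun r => u n r x) t)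
        (fun n => L2_vel (hu n).smooth t) (fun n => (hsplit n t ht).1)
      obtain ⟨w, hw1, hw2⟩ := lim_L2 hAB (f := fun n x => deriv (u n t) x)
        (fun n => L2_slope (hu n).smooth t) (fun n => (hsplit n t ht).2)
      refine ⟨v, w, fun _ => ⟨hv1, hw1, fun n => ?_⟩⟩
      unfold energyDist
      have i1 : IntervalIntegrable (fun x => (deriv (fun r => u n r x) t - v x) ^ 2) volume A B :=
        L2.sq_int (f := (fun x => deriv (fun r => u n r x) t) - v) hAB.le
          (MemLp.sub (L2_vel (hu n).smooth t) hv1)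
      have i2 : IntervalIntegrable (fun x => (deriv (u n t) x - w x) ^ 2) volume A B :=
        L2.sq_int (f := (fun x => deriv (u n t) x) - w) hAB.le
          (MemLp.sub (L2_slope (hu n).smooth t) hw1)
      rw [intervalIntegral.integral_add i1 i2]
      have q1 := hv2 n
      have q2 := hw2 n
      linarith
    · exact ⟨0, 0, fun h => absurd h ht⟩
  choose vl wl hvw using hlim
  have hsmall : ∀ e : ℝ, 0 < e → ∃ n : ℕ, 32 * (1 / 4 : ℝ) ^ n < e := by
    intro e he
    obtain ⟨n, hn⟩ := exists_pow_lt_of_lt_one (show (0:ℝ) < e / 32 by positivity) (show (1 / 4 : ℝ) < 1 by norm_num)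
    exact ⟨n, by linarith⟩
  refine ⟨fun t => if t = 0 then v0 else vl t, fun t => if t = 0 then w0 else wl t, ⟨?_, ?_, ?_⟩, by simp, by simp⟩
  · intro t ht
    by_cases h0 : t = 0
    · simp only [h0, if_true]; exact hv
    · simp only [h0, if_false]; exact (hvw t ht).1
  · intro t ht
    by_cases h0 : t = 0
    · simp only [h0, if_true]; exact hw
    · simp only [h0, if_false]; exact (hvw t ht).2.1
  · intro T e he
    obtain ⟨n, hn⟩ := hsmall e he
    refine ⟨u n, hu n, fun t ht _ => ?_⟩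
    by_cases h0 : t = 0
    · simp only [h0, if_true]
      have h2 := hud n
      have h3 : (1 / 4 : ℝ) ^ n ≤ 32 * (1 / 4 : ℝ) ^ n := by
        have : (0:ℝ) ≤ (1 / 4) ^ n := by positivity
        linarith
      linarith
    · simp only [h0, if_false]
      exact lt_of_le_of_lt ((hvw t ht).2.2 n) hn

end Pool.Agent.Helper383.WaveWell2
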